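import Pool.Agent.Helper58.T3.Defs

set_option autoImplicit false

namespace Pool.Agent.Helper58.T3

open Relation

variable {V : Type}

/-- a perfect elimination order -/
structure Peo (G : SimpleGraph V) where
  r : V → ℕ
  r_inj : Function.Injective r
  clique : ∀ i x y, G.Adj i x → r i < r x → G.Adj i y → r i < r y → x ≠ y → G.Adj x y

lemma fin_sub_eq_one {m : ℕ} (hm : 2 ≤ m) (a b : Fin m) :
    (a - b).val = 1 ↔ a.val = b.val + 1 ∨ (a.val = 0 ∧ b.val = m - 1) := by
  have ha := a.isLt
  have hb := b.isLt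
  rw [Fin.sub_def]
  show (m - b.val + a.val) % m = 1 ↔ _
  by_cases h : b.val ≤ a.val
  · have e : m - b.val + a.val = (a.val - b.val) + m := by omega
    rw [e, Nat.add_mod_right, Nat.mod_eq_of_lt (by omega)]
    omega
  · rw [Nat.mod_eq_of_lt (by omega)]
    omega

lemma cycle_adj {m : ℕ} (hm : 2 ≤ m) (a b : Fin m) : (SimpleGraph.cycleGraph m).Adj a b ↔
    (a.val = b.val + 1 ∨ b.val = a.val + 1) ∨ (a.val = 0 ∧ b.val = m - 1) ∨
      (b.val = 0 ∧ a.val = m - 1) := by
  rw [SimpleGraph.cycleGraph_adj', fin_sub_eq_one hm, fin_sub_eq_one hm]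
  tauto

/-- a perfect elimination order shows that a graph is chordal -/
theorem Peo.chordal {G : SimpleGraph V} (P : Peo G) : Chordal G := by
  intro m hm
  refine ⟨fun e => ?_⟩
  have : Nonempty (Fin m) := ⟨⟨0, by omega⟩⟩
  obtain ⟨i, hi⟩ := Finite.exists_min (fun i : Fin m => P.r (e i))
  have hlt : ∀ j, j ≠ i → P.r (e i) < P.r (e j) := by
    intro j hj
    refine lt_of_le_of_ne (hi j) (fun h => hj ?_)
    exact (e.injective (P.r_inj h)).symm
  have hil := i.isLt
  -- the two neighbours
  obtain ⟨j, hj⟩ : ∃ j : Fin m, j.val = if i.val = 0 then m - 1 else i.val - 1 :=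
    ⟨⟨if i.val = 0 then m - 1 else i.val - 1, by split_ifs <;> omega⟩, rfl⟩
  obtain ⟨k, hk⟩ : ∃ k : Fin m, k.val = if i.val = m - 1 then 0 else i.val + 1 :=
    ⟨⟨if i.val = m - 1 then 0 else i.val + 1, by split_ifs <;> omega⟩, rfl⟩
  have hij : (SimpleGraph.cycleGraph m).Adj i j := by
    rw [cycle_adj (by omega)]
    split_ifs at hj <;> omega
  have hik : (SimpleGraph.cycleGraph m).Adj i k := by
    rw [cycle_adj (by omega)]
    split_ifs at hk <;> omega
  have hjk : j ≠ k := by
    intro h
    have : j.val = k.val := by rw [h]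
    split_ifs at hj hk <;> omega
  have hadj := P.clique (e i) (e j) (e k) (e.map_adj_iff.2 hij) (hlt j hij.ne.symm)
    (e.map_adj_iff.2 hik) (hlt k hik.ne.symm) (fun h => hjk (e.injective h))
  rw [e.map_adj_iff, cycle_adj (by omega)] at hadj
  split_ifs at hj hk <;> omega

section dirac

variable {G : SimpleGraph V}

/-- walks through `C`, given by functions -/
def PathLen (G : SimpleGraph V) (C : Set V) (x y : V) (k : ℕ) : Prop :=
  ∃ f : ℕ → V, f 0 = x ∧ f k = y ∧ (∀ i < k, G.Adj (f i) (f (i + 1))) ∧ ∀ i, 0 < i → i < k → f i ∈ C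

lemma PathLen.snoc {C : Set V} {x y z : V} {k : ℕ} (h : PathLen G C x y k) (hk : 0 < k) (hy : y ∈ C)
    (hyz : G.Adj y z) : PathLen G C x z (k + 1) := by
  obtain ⟨f, h0, h1, h2, h3⟩ := h
  refine ⟨fun i => if i ≤ k then f i else z, by simp [h0], by simp, ?_, ?_⟩
  · intro i hi
    rcases Nat.lt_or_ge i k with h4 | h4
    · simp only [show i ≤ k by omega, show i + 1 ≤ k by omega, if_true]
      exact h2 i h4
    · have : i = k := by omega
      subst this
      simp only [le_refl, if_true, show ¬ i + 1 ≤ i by omega, if_false]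
      rw [h1]; exact hyz
  · intro i hi1 hi2
    simp only [show i ≤ k by omega, if_true]
    rcases Nat.lt_or_ge i k with h4 | h4
    · exact h3 i hi1 h4
    · have : i = k := by omega
      subst this
      rw [h1]; exact hy

/-- a vertex `u` and two nonadjacent neighbours joined through nonneighbours give an induced cycle -/
lemma no_path (hG : Chordal G) {C : Set V} {u x y : V} (hux : G.Adj u x) (huy : G.Adj u y)
    (hxy : x ≠ y) (hnxy : ¬ G.Adj x y) (hC : ∀ c ∈ C, c ≠ u ∧ ¬ G.Adj u c) {k : ℕ}
    (hk : PathLen G C x y k) : False := by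
  classical
  have hex : ∃ k, PathLen G C x y k := ⟨k, hk⟩
  obtain ⟨f, h0, h1, h2, h3⟩ := Nat.find_spec hex
  have hmin : ∀ j < Nat.find hex, ¬ PathLen G C x y j := fun j hj => Nat.find_min hex hj
  clear hk
  generalize Nat.find hex = k at h1 h2 h3 hmin
  have hk0 : k ≠ 0 := by rintro rfl; exact hxy (h0.symm.trans h1)
  have hk1 : k ≠ 1 := by
    rintro rfl
    have := h2 0 (by omega)
    rw [h0, h1] at this
    exact hnxy this
  -- shortcuts
  have short : ∀ i j, i < j → j ≤ k → ∀ d, d + (j - i) = k + 1 → i + 1 < j → G.Adj (f i) (f j) → False := by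
    intro i j hij hj d hd hij2 hadj
    apply hmin d (by omega)
    refine ⟨fun t => if t ≤ i then f t else f (t + (j - i) - 1), by simp [h0], ?_, ?_, ?_⟩
    · simp only [show ¬ d ≤ i by omega, if_false]
      rw [hd]; exact h1
    · intro t ht
      rcases Nat.lt_trichotomy t i with h4 | h4 | h4
      · simp only [show t ≤ i by omega, show t + 1 ≤ i by omega, if_true]
        exact h2 t (by omega)
      · subst h4
        simp only [le_refl, if_true, show ¬ t + 1 ≤ t by omega, if_false]
        rw [show t + 1 + (j - t) - 1 = j by omega]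
        exact hadj
      · simp only [show ¬ t ≤ i by omega, show ¬ t + 1 ≤ i by omega, if_false]
        rw [show t + 1 + (j - i) - 1 = (t + (j - i) - 1) + 1 by omega]
        exact h2 _ (by omega)
    · intro t ht1 ht2
      beta_reduce
      split_ifs with h4
      · exact h3 t ht1 (by omega)
      · exact h3 _ (by omega) (by omega)
  have short2 : ∀ i j, i < j → j ≤ k → f i = f j → False := by
    intro i j hij hj he
    apply hmin (k - (j - i)) (by omega)
    refine ⟨fun t => if t ≤ i then f t else f (t + (j - i)), by simp [h0], ?_, ?_, ?_⟩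
    · by_cases h4 : k - (j - i) ≤ i
      · simp only [h4, if_true]
        have h5 : k - (j - i) = i := by omega
        have h6 : j = k := by omega
        rw [h5, he, h6]; exact h1
      · simp only [h4, if_false]
        rw [show k - (j - i) + (j - i) = k by omega]; exact h1
    · intro t ht
      rcases Nat.lt_trichotomy t i with h4 | h4 | h4
      · simp only [show t ≤ i by omega, show t + 1 ≤ i by omega, if_true]
        exact h2 t (by omega)
      · subst h4
        simp only [le_refl, if_true, show ¬ t + 1 ≤ t by omega, if_false]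
        rw [he, show t + 1 + (j - t) = j + 1 by omega]
        exact h2 j (by omega)
      · simp only [show ¬ t ≤ i by omega, show ¬ t + 1 ≤ i by omega, if_false]
        rw [show t + 1 + (j - i) = (t + (j - i)) + 1 by omega]
        exact h2 _ (by omega)
    · intro t ht1 ht2
      beta_reduce
      split_ifs with h4
      · exact h3 t ht1 (by omega)
      · exact h3 _ (by omega) (by omega)
  have hadj : ∀ i j, i < j → j ≤ k → (G.Adj (f i) (f j) ↔ j = i + 1) := by
    intro i j hij hj
    constructor
    · intro h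
      by_contra hne
      exact short i j hij hj (k + 1 - (j - i)) (by omega) (by omega) h
    · rintro rfl
      exact h2 i (by omega)
  have hne_u : ∀ i, i ≤ k → f i ≠ u := by
    intro i hi he
    by_cases h4 : i = 0
    · subst h4; rw [h0] at he; exact hux.ne he.symm
    · by_cases h5 : i = k
      · subst h5; rw [h1] at he; exact huy.ne he.symm
      · exact (hC _ (h3 i (by omega) (by omega))).1 he
  have hadj_u : ∀ i, i ≤ k → (G.Adj u (f i) ↔ i = 0 ∨ i = k) := by
    intro i hi
    by_cases h4 : i = 0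
    · subst h4; rw [h0]; simp [hux]
    · by_cases h5 : i = k
      · subst h5; rw [h1]; simp [huy]
      · simp only [h4, h5, or_self, iff_false]
        exact (hC _ (h3 i (by omega) (by omega))).2
  let F : Fin (k + 2) → V := fun t => if t.val = 0 then u else f (t.val - 1)
  have hF0 : ∀ t : Fin (k + 2), t.val = 0 → F t = u := fun t ht => if_pos ht
  have hF1 : ∀ t : Fin (k + 2), t.val ≠ 0 → F t = f (t.val - 1) := fun t ht => if_neg ht
  have hinj : Function.Injective F := by
    intro s t hst
    have hs := s.isLt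
    have ht := t.isLt
    by_cases h4 : s.val = 0 <;> by_cases h5 : t.val = 0
    · exact Fin.ext (by omega)
    · rw [hF0 s h4, hF1 t h5] at hst
      exact absurd hst.symm (hne_u _ (by omega))
    · rw [hF1 s h4, hF0 t h5] at hst
      exact absurd hst (hne_u _ (by omega))
    · rw [hF1 s h4, hF1 t h5] at hst
      apply Fin.ext
      by_contra hne
      rcases Nat.lt_or_ge s.val t.val with h6 | h6
      · exact short2 _ _ (by omega) (by omega) hst
      · exact short2 _ _ (by omega) (by omega) hst.symm
  refine (hG (k + 2) (by omega)).false ⟨⟨F, hinj⟩, ?_⟩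
  intro s t
  show G.Adj (F s) (F t) ↔ _
  rw [cycle_adj (by omega)]
  have hs := s.isLt
  have ht := t.isLt
  by_cases h4 : s.val = 0 <;> by_cases h5 : t.val = 0
  · have : s = t := Fin.ext (by omega)
    subst this
    simp only [SimpleGraph.irrefl, false_iff]
    omega
  · rw [hF0 s h4, hF1 t h5, hadj_u _ (by omega)]
    omega
  · rw [hF1 s h4, hF0 t h5, G.adj_comm, hadj_u _ (by omega)]
    omega
  · rw [hF1 s h4, hF1 t h5]
    rcases Nat.lt_trichotomy s.val t.val with h6 | h6 | h6
    · rw [hadj _ _ (by omega) (by omega)]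
      omega
    · have : s = t := Fin.ext h6
      subst this
      simp only [SimpleGraph.irrefl, false_iff]
      omega
    · rw [G.adj_comm, hadj _ _ (by omega) (by omega)]
      omega

/-- simplicial vertices of an induced subgraph -/
def Simplicial (G : SimpleGraph V) (W : Finset V) (v : V) : Prop :=
  v ∈ W ∧ ∀ x ∈ W, ∀ y ∈ W, G.Adj v x → G.Adj v y → x ≠ y → G.Adj x y

lemma dirac_aux [DecidableEq V] (hG : Chordal G) (W : Finset V)
    (ih : ∀ W' : Finset V, W'.card < W.card → W'.Nonempty →
      (∀ x ∈ W', ∀ y ∈ W', x ≠ y → G.Adj x y) ∨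
      ∃ x y, Simplicial G W' x ∧ Simplicial G W' y ∧ x ≠ y ∧ ¬ G.Adj x y)
    {u t : V} (hu : u ∈ W) (ht : t ∈ W) (hut : u ≠ t) (hnadj : ¬ G.Adj u t) :
    ∃ z, Simplicial G W z ∧ z ≠ u ∧ ¬ G.Adj z u := by
  classical
  -- the component of `t`
  let R : V → V → Prop := fun a b => G.Adj a b ∧ b ∈ W ∧ b ≠ u ∧ ¬ G.Adj u b
  let C : Finset V := W.filter (fun z => ReflTransGen R t z)
  have hCprop : ∀ c, ReflTransGen R t c → c ∈ W ∧ c ≠ u ∧ ¬ G.Adj u c := by
    intro c hc
    cases hc with
    | refl => exact ⟨ht, hut.symm, hnadj⟩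
    | tail _ h => exact h.2
  have hCmem : ∀ c, c ∈ C ↔ ReflTransGen R t c := by
    intro c
    rw [Finset.mem_filter]
    exact ⟨fun h => h.2, fun h => ⟨(hCprop c h).1, h⟩⟩
  have htC : t ∈ C := (hCmem t).2 ReflTransGen.refl
  let S : Finset V := W.filter (fun s => s ∉ C ∧ ∃ c ∈ C, G.Adj c s)
  have hSu : ∀ s ∈ S, G.Adj u s := by
    intro s hs
    rw [Finset.mem_filter] at hs
    obtain ⟨hsW, hsC, c, hc, hcs⟩ := hs
    by_contra hcon
    apply hsC
    rw [hCmem] at hc ⊢
    refine hc.tail ⟨hcs, hsW, ?_, hcon⟩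
    rintro rfl
    exact (hCprop c hc).2.2 hcs.symm
  have hSclique : ∀ x ∈ S, ∀ y ∈ S, x ≠ y → G.Adj x y := by
    intro x hx y hy hxy
    by_contra hcon
    have hx' := hx
    have hy' := hy
    rw [Finset.mem_filter] at hx' hy'
    obtain ⟨_, _, c, hc, hcx⟩ := hx'
    obtain ⟨_, _, d, hd, hdy⟩ := hy'
    rw [hCmem] at hc hd
    -- connect c to d
    have hsymm : ∀ a b, ReflTransGen R t a → ReflTransGen R t b → ReflTransGen R a b := by
      have h1 : ∀ a, ReflTransGen R t a → ReflTransGen R a t := by
        intro a ha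
        induction ha with
        | refl => exact ReflTransGen.refl
        | @tail b c hb hbc ih =>
          refine ReflTransGen.head ⟨hbc.1.symm, ?_⟩ ih
          exact hCprop b hb
      intro a b ha hb
      exact (h1 a ha).trans hb
    have hpath : ∃ k, 0 < k ∧ PathLen G (C : Set V) x d k := by
      have hcd := hsymm c d hc hd
      clear hdy
      have : ∀ e, ReflTransGen R c e → ∃ k, 0 < k ∧ PathLen G (C : Set V) x e k := by
        intro e he
        induction he with
        | refl =>
          refine ⟨1, by omega, fun i => if i = 0 then x else c, by simp, by simp, ?_, ?_⟩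
          · intro i hi
            have : i = 0 := by omega
            subst this
            simpa using hcx.symm
          · intro i h1 h2; omega
        | @tail e e' he hee ih =>
          obtain ⟨k, hk, hp⟩ := ih
          refine ⟨k + 1, by omega, hp.snoc hk ?_ hee.1⟩
          exact (hCmem e).2 (hc.trans he)
      exact this d hcd
    obtain ⟨k, hk, hp⟩ := hpath
    have hp2 := hp.snoc hk ((hCmem d).2 hd) hdy
    refine no_path hG (hSu x hx) (hSu y hy) hxy hcon ?_ hp2
    intro c hc
    exact (hCprop c ((hCmem c).1 hc)).2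
  let W' : Finset V := C ∪ S
  have hW'W : W' ⊆ W := by
    intro z hz
    rcases Finset.mem_union.1 hz with h | h
    · exact (Finset.mem_filter.1 h).1
    · exact (Finset.mem_filter.1 h).1
  have huW' : u ∉ W' := by
    intro h
    rcases Finset.mem_union.1 h with h | h
    · exact (hCprop u ((hCmem u).1 h)).2.1 rfl
    · exact (hSu u h).ne rfl
  have hcard : W'.card < W.card := by
    apply Finset.card_lt_card
    refine ⟨hW'W, fun h => huW' (h hu)⟩
  have hnb : ∀ c ∈ C, ∀ x ∈ W, G.Adj c x → x ∈ W' := by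
    intro c hc x hx hcx
    by_cases hxC : x ∈ C
    · exact Finset.mem_union_left _ hxC
    · exact Finset.mem_union_right _ (Finset.mem_filter.2 ⟨hx, hxC, c, hc, hcx⟩)
  have hlift : ∀ z ∈ C, Simplicial G W' z → ∃ z, Simplicial G W z ∧ z ≠ u ∧ ¬ G.Adj z u := by
    intro z hz hs
    have h1 := hCprop z ((hCmem z).1 hz)
    refine ⟨z, ⟨h1.1, fun x hx y hy hzx hzy hxy => ?_⟩, h1.2.1, fun h => h1.2.2 h.symm⟩
    exact hs.2 x (hnb z hz x hx hzx) y (hnb z hz y hy hzy) hzx hzy hxy
  rcases ih W' hcard ⟨t, Finset.mem_union_left _ htC⟩ with h | ⟨x, y, hx, hy, hxy, hnxy⟩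
  · refine hlift t htC ⟨Finset.mem_union_left _ htC, fun x hx y hy _ _ hxy => h x hx y hy hxy⟩
  · by_cases hxC : x ∈ C
    · exact hlift x hxC hx
    · by_cases hyC : y ∈ C
      · exact hlift y hyC hy
      · exfalso
        apply hnxy
        refine hSclique x ?_ y ?_ hxy
        · exact (Finset.mem_union.1 hx.1).resolve_left hxC
        · exact (Finset.mem_union.1 hy.1).resolve_left hyC

/-- every nonempty induced subgraph of a chordal graph has a simplicial vertex -/
theorem dirac [DecidableEq V] (hG : Chordal G) (W : Finset V) (hW : W.Nonempty) :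
    ∃ v, Simplicial G W v := by
  have key : ∀ n, ∀ W : Finset V, W.card = n → W.Nonempty →
      (∀ x ∈ W, ∀ y ∈ W, x ≠ y → G.Adj x y) ∨
      ∃ x y, Simplicial G W x ∧ Simplicial G W y ∧ x ≠ y ∧ ¬ G.Adj x y := by
    intro n
    induction n using Nat.strong_induction_on with
    | _ n ih =>
      intro W hn hne
      by_cases hcl : ∀ x ∈ W, ∀ y ∈ W, x ≠ y → G.Adj x y
      · exact Or.inl hcl
      · right
        push Not at hcl
        obtain ⟨u, hu, t, ht, hut, hnadj⟩ := hcl
        have ih' : ∀ W' : Finset V, W'.card < W.card → W'.Nonempty →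
            (∀ x ∈ W', ∀ y ∈ W', x ≠ y → G.Adj x y) ∨
            ∃ x y, Simplicial G W' x ∧ Simplicial G W' y ∧ x ≠ y ∧ ¬ G.Adj x y :=
          fun W' h1 h2 => ih W'.card (by omega) W' rfl h2
        obtain ⟨z, hz, hzu, hnzu⟩ := dirac_aux hG W ih' hu ht hut hnadj
        obtain ⟨z', hz', hzz', hnzz'⟩ := dirac_aux hG W ih' hz.1 hu hzu hnzu
        exact ⟨z', z, hz', hz, hzz', hnzz'⟩
  obtain ⟨w, hw⟩ := hW
  rcases key _ W rfl ⟨w, hw⟩ with h | ⟨x, _, hx, _⟩
  · exact ⟨w, hw, fun x hx y hy _ _ hxy => h x hx y hy hxy⟩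
  · exact ⟨x, hx⟩

end dirac

end Pool.Agent.Helper58.T3
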