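import Pool.Agent.Helper58.T3.Elim

set_option autoImplicit false

namespace Pool.Agent.Helper58.T3

/-- a graph is chordal if it has no induced cycle of length at least four -/
def Chordal {V : Type} (G : SimpleGraph V) : Prop :=
  ∀ m, 4 ≤ m → IsEmpty (SimpleGraph.cycleGraph m ↪g G)

/-- `G` has a tree 3-spanner: a spanning tree `T` with `d_T(x,y) ≤ 3 d_G(x,y)` for all `x`, `y` -/
def HasTree3Spanner {V : Type} (G : SimpleGraph V) : Prop :=
  ∃ T : SimpleGraph V, T ≤ G ∧ T.IsTree ∧ ∀ x y, T.dist x y ≤ 3 * G.dist x y

/-- finite graphs, on the vertices `0, …, n - 1` -/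
abbrev FinGraph := Σ n : ℕ, SimpleGraph (Fin n)

open Classical in
/-- the encoding of a graph on `n` vertices: the `n ^ 2` bits of its adjacency matrix, row by row -/
noncomputable def adjBits (G : FinGraph) : List Bool :=
  (List.finRange G.1).flatMap (fun i => (List.finRange G.1).map (fun j => decide (G.2.Adj i j)))

end Pool.Agent.Helper58.T3
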