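import Pool.Agent.Helper58.T3.Star

set_option autoImplicit false

namespace Pool.Agent.Helper58.T3

open Relation

variable {V : Type}

/-- a spanning tree in which adjacent vertices of `G` have distance at most three -/
def IsSpanner3 (G T : SimpleGraph V) : Prop :=
  T ≤ G ∧ T.IsTree ∧ ∀ x y, G.Adj x y → T.dist x y ≤ 3

/-- a perfect elimination order of a connected graph, with the parent function -/
structure Elim (G : SimpleGraph V) where
  r : V → ℕ
  root : V
  p : V → V
  r_inj : Function.Injective r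
  clique : ∀ i x y, G.Adj i x → r i < r x → G.Adj i y → r i < r y → x ≠ y → G.Adj x y
  p_adj : ∀ i, i ≠ root → G.Adj i (p i)
  p_lt : ∀ i, i ≠ root → r i < r (p i)
  p_min : ∀ i, i ≠ root → ∀ x, G.Adj i x → r i < r x → r (p i) ≤ r x
  root_max : ∀ i, r i ≤ r root

namespace Elim

variable {G : SimpleGraph V} (E : Elim G)

/-- later neighbours -/
def S (i : V) : Set V := {x | G.Adj i x ∧ E.r i < E.r x}

/-- the bag of `i` -/
def K (i : V) : Set V := {x | x = i ∨ x ∈ E.S i}

lemma S_sub_K {i x : V} (h : x ∈ E.S i) : x ∈ E.K i := Or.inr h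
lemma self_mem_K (i : V) : i ∈ E.K i := Or.inl rfl

lemma le_of_mem_K {i x : V} (h : x ∈ E.K i) : E.r i ≤ E.r x := by
  rcases h with h | h
  · rw [h]
  · exact h.2.le

lemma ne_root_of_mem_S {i x : V} (h : x ∈ E.S i) : i ≠ E.root := by
  intro h2
  have := E.root_max x
  rw [← h2] at this
  exact absurd h.2 (by omega)

lemma K_clique {i x y : V} (hx : x ∈ E.K i) (hy : y ∈ E.K i) (h : x ≠ y) : G.Adj x y := by
  rcases hx with rfl | hx <;> rcases hy with rfl | hy
  · exact absurd rfl h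
  · exact hy.1
  · exact hx.1.symm
  · exact E.clique i x y hx.1 hx.2 hy.1 hy.2 h

lemma S_sub {i x : V} (h : x ∈ E.S i) : x ∈ E.K (E.p i) := by
  have hi := E.ne_root_of_mem_S h
  by_cases h2 : x = E.p i
  · exact Or.inl h2
  · refine Or.inr ⟨(E.clique i x (E.p i) h.1 h.2 (E.p_adj i hi) (E.p_lt i hi) h2).symm, ?_⟩
    have h3 := E.p_min i hi x h.1 h.2
    exact lt_of_le_of_ne h3 (fun h4 => h2 (E.r_inj h4.symm))

lemma p_mem_S {i : V} (h : i ≠ E.root) : E.p i ∈ E.S i := ⟨E.p_adj i h, E.p_lt i h⟩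

/-- descending induction -/
theorem desc {P : V → Prop} (h : ∀ i, (∀ j, E.r i < E.r j → P j) → P i) : ∀ i, P i := by
  have key : ∀ n i, E.r E.root - E.r i = n → P i := by
    intro n
    induction n using Nat.strong_induction_on with
    | _ n ih =>
      intro i hi
      apply h
      intro j hj
      have h1 := E.root_max j
      exact ih (E.r E.root - E.r j) (by omega) j rfl
  intro i
  exact key _ i rfl

/-- ascending induction -/
theorem asc {P : V → Prop} (h : ∀ i, (∀ j, E.r j < E.r i → P j) → P i) : ∀ i, P i := by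
  have key : ∀ n i, E.r i = n → P i := by
    intro n
    induction n using Nat.strong_induction_on with
    | _ n ih =>
      intro i hi
      apply h
      intro j hj
      exact ih (E.r j) (by omega) j rfl
  intro i
  exact key _ i rfl

/-- recursion from the root -/
theorem exists_rec {β : Type} (F : V → β → β) (b0 : β) :
    ∃ χ : V → β, χ E.root = b0 ∧ ∀ i, i ≠ E.root → χ i = F i (χ (E.p i)) := by
  classical
  let wf := (measure (fun i => E.r E.root - E.r i)).wf
  have hdec : ∀ i, i ≠ E.root → E.r E.root - E.r (E.p i) < E.r E.root - E.r i := by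
    intro i hi
    have h1 := E.p_lt i hi
    have h2 := E.root_max (E.p i)
    omega
  let χ : V → β := wf.fix (fun i rec => if h : i = E.root then b0 else F i (rec (E.p i) (hdec i h)))
  refine ⟨χ, ?_, ?_⟩
  · show wf.fix _ _ = _
    rw [wf.fix_eq, dif_pos rfl]
  · intro i hi
    show wf.fix _ _ = _
    rw [wf.fix_eq, dif_neg hi]

/-- ancestors -/
def Anc : V → V → Prop := ReflTransGen (fun x y => x ≠ E.root ∧ E.p x = y)

lemma anc_p {i : V} (h : i ≠ E.root) : E.Anc i (E.p i) := ReflTransGen.single ⟨h, rfl⟩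

lemma anc_trans {i j k : V} (h : E.Anc i j) (h2 : E.Anc j k) : E.Anc i k := ReflTransGen.trans h h2

lemma anc_le {i j : V} (h : E.Anc i j) : E.r i ≤ E.r j := by
  induction h with
  | refl => exact le_rfl
  | tail _ h ih => exact ih.trans (by rw [← h.2]; exact (E.p_lt _ h.1).le)

lemma anc_root : ∀ i, E.Anc i E.root := by
  apply E.desc (P := fun i => E.Anc i E.root)
  intro i ih
  by_cases h : i = E.root
  · rw [h]; exact ReflTransGen.refl
  · exact E.anc_trans (E.anc_p h) (ih _ (E.p_lt i h))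

lemma mem_S_of_anc {w x j : V} (hx : x ∈ E.S w) (h : E.Anc w j) (hj : E.r j < E.r x) : x ∈ E.S j := by
  induction h with
  | refl => exact hx
  | tail h1 h2 ih =>
    obtain ⟨h3, rfl⟩ := h2
    have h4 := E.p_lt _ h3
    rcases E.S_sub (ih (by omega)) with h5 | h5
    · rw [h5] at hj; omega
    · exact h5

lemma anc_of_adj : ∀ w x : V, G.Adj w x → E.r w < E.r x → E.Anc w x := by
  have : ∀ w, ∀ x, G.Adj w x → E.r w < E.r x → E.Anc w x := by
    apply E.desc (P := fun w => ∀ x, G.Adj w x → E.r w < E.r x → E.Anc w x)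
    intro w ih x h1 h2
    have hx : x ∈ E.S w := ⟨h1, h2⟩
    have hw := E.ne_root_of_mem_S hx
    rcases E.S_sub hx with h3 | h3
    · rw [h3]; exact E.anc_p hw
    · exact E.anc_trans (E.anc_p hw) (ih _ (E.p_lt w hw) x h3.1 h3.2)
  exact this

lemma anc_linear {w b j : V} (h1 : E.Anc w b) (h2 : E.Anc w j) (h : E.r b ≤ E.r j) : E.Anc b j := by
  have hU : Relator.RightUnique (fun x y => x ≠ E.root ∧ E.p x = y) := by
    intro a b c h1 h2
    rw [← h1.2, ← h2.2]
  rcases ReflTransGen.total_of_right_unique hU h1 h2 with h3 | h3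
  · exact h3
  · have h4 := E.anc_le h3
    have h5 : b = j := E.r_inj (by omega)
    rw [h5]; exact ReflTransGen.refl

lemma exists_child {w i : V} (h : E.Anc w i) (hne : w ≠ i) :
    ∃ j, j ≠ E.root ∧ E.p j = i ∧ E.Anc w j := by
  cases h with
  | refl => exact absurd rfl hne
  | tail h1 h2 => exact ⟨_, h2.1, h2.2, h1⟩

/-- the first of two vertices -/
noncomputable def lo (x y : V) : V := by classical exact if E.r x ≤ E.r y then x else y

lemma lo_comm (x y : V) : E.lo x y = E.lo y x := by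
  unfold lo
  split_ifs with h1 h2 h2
  · exact E.r_inj (by omega)
  · rfl
  · rfl
  · omega

lemma lo_left {i y : V} (h : y ∈ E.K i) : E.lo i y = i := by
  unfold lo
  rw [if_pos (E.le_of_mem_K h)]

lemma mem_K_lo {x y : V} (h : G.Adj x y) : x ∈ E.K (E.lo x y) ∧ y ∈ E.K (E.lo x y) := by
  have hne : E.r x ≠ E.r y := fun h2 => h.ne (E.r_inj h2)
  unfold lo
  split_ifs with h1
  · exact ⟨Or.inl rfl, Or.inr ⟨h, by omega⟩⟩
  · exact ⟨Or.inr ⟨h.symm, by omega⟩, Or.inl rfl⟩

/-- a triangle lies in a bag -/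
lemma triangle_mem {x y z : V} (hxy : G.Adj x y) (hyz : G.Adj y z) (hxz : G.Adj x z) :
    ∃ i, x ∈ E.K i ∧ y ∈ E.K i ∧ z ∈ E.K i := by
  have h1 : E.r x ≠ E.r y := fun h2 => hxy.ne (E.r_inj h2)
  have h2 : E.r y ≠ E.r z := fun h2 => hyz.ne (E.r_inj h2)
  have h3 : E.r x ≠ E.r z := fun h2 => hxz.ne (E.r_inj h2)
  rcases lt_or_ge (E.r x) (E.r y) with h4 | h4
  · rcases lt_or_ge (E.r x) (E.r z) with h5 | h5
    · exact ⟨x, Or.inl rfl, Or.inr ⟨hxy, h4⟩, Or.inr ⟨hxz, h5⟩⟩
    · exact ⟨z, Or.inr ⟨hxz.symm, by omega⟩, Or.inr ⟨hyz.symm, by omega⟩, Or.inl rfl⟩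
  · rcases lt_or_ge (E.r y) (E.r z) with h5 | h5
    · exact ⟨y, Or.inr ⟨hxy.symm, by omega⟩, Or.inl rfl, Or.inr ⟨hyz, h5⟩⟩
    · exact ⟨z, Or.inr ⟨hxz.symm, by omega⟩, Or.inr ⟨hyz.symm, by omega⟩, Or.inl rfl⟩

include E in
/-- cocycles are coboundaries -/
theorem cocycle (φ : V → V → Bool) (hsymm : ∀ x y, φ x y = φ y x)
    (htri : ∀ x y z, G.Adj x y → G.Adj y z → G.Adj x z → φ x z = xor (φ x y) (φ y z)) :
    ∃ χ : V → Bool, ∀ x y, G.Adj x y → φ x y = xor (χ x) (χ y) := by
  obtain ⟨χ, _, hχ⟩ := E.exists_rec (fun i b => xor (φ i (E.p i)) b) false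
  have key : ∀ x, ∀ y, y ∈ E.S x → φ x y = xor (χ x) (χ y) := by
    apply E.desc (P := fun x => ∀ y, y ∈ E.S x → φ x y = xor (χ x) (χ y))
    intro x ih y hy
    have hx := E.ne_root_of_mem_S hy
    rcases E.S_sub hy with h1 | h1
    · rw [h1, hχ x hx]
      cases φ x (E.p x) <;> cases χ (E.p x) <;> rfl
    · have h2 := ih _ (E.p_lt x hx) y h1
      rw [htri x (E.p x) y (E.p_adj x hx) h1.1 hy.1, h2, hχ x hx]
      cases φ x (E.p x) <;> cases χ (E.p x) <;> cases χ y <;> rfl
  refine ⟨χ, fun x y h => ?_⟩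
  have hne : E.r x ≠ E.r y := fun h2 => h.ne (E.r_inj h2)
  rcases lt_or_ge (E.r x) (E.r y) with h1 | h1
  · exact key x y ⟨h, h1⟩
  · rw [hsymm, key y x ⟨h.symm, by omega⟩]
    exact Bool.xor_comm _ _

end Elim

end Pool.Agent.Helper58.T3
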