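import Pool.Agent.Helper58.T3.Chordal

set_option autoImplicit false

namespace Pool.Agent.Helper58.T3

variable {V : Type} {G : SimpleGraph V}

/-- in a connected graph, a perfect elimination order has a parent function -/
theorem Peo.elim [Finite V] (hG : G.Connected) (P : Peo G) : ∃ E : Elim G, E.r = P.r := by
  classical
  have hne := hG.nonempty
  obtain ⟨root, hroot⟩ := Finite.exists_max P.r
  have hmin : ∀ i, (∃ x, G.Adj i x ∧ P.r i < P.r x) →
      ∃ x, (G.Adj i x ∧ P.r i < P.r x) ∧ ∀ y, G.Adj i y → P.r i < P.r y → P.r x ≤ P.r y := by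
    intro i hi
    have hex : ∃ n, ∃ x, (G.Adj i x ∧ P.r i < P.r x) ∧ P.r x = n := by
      obtain ⟨x, hx⟩ := hi
      exact ⟨_, x, hx, rfl⟩
    obtain ⟨x, hx, hxn⟩ := Nat.find_spec hex
    refine ⟨x, hx, fun y hy1 hy2 => ?_⟩
    rw [hxn]
    exact Nat.find_min' hex ⟨y, ⟨hy1, hy2⟩, rfl⟩
  let p : V → V := fun i => if h : ∃ x, G.Adj i x ∧ P.r i < P.r x then (hmin i h).choose else i
  have hp : ∀ i, (∃ x, G.Adj i x ∧ P.r i < P.r x) → (G.Adj i (p i) ∧ P.r i < P.r (p i)) ∧
      ∀ y, G.Adj i y → P.r i < P.r y → P.r (p i) ≤ P.r y := by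
    intro i hi
    have : p i = (hmin i hi).choose := dif_pos hi
    rw [this]
    exact (hmin i hi).choose_spec
  let wf := (measure (fun i => P.r root - P.r i)).wf
  have hdec : ∀ i, (∃ x, G.Adj i x ∧ P.r i < P.r x) →
      P.r root - P.r (p i) < P.r root - P.r i := by
    intro i hi
    have h1 := (hp i hi).1.2
    have h2 := hroot (p i)
    omega
  let ρ : V → V := wf.fix (fun i rec => if h : ∃ x, G.Adj i x ∧ P.r i < P.r x then
    rec (p i) (hdec i h) else i)
  have hρ1 : ∀ i, (∃ x, G.Adj i x ∧ P.r i < P.r x) → ρ i = ρ (p i) := by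
    intro i hi
    show wf.fix _ _ = _
    rw [wf.fix_eq, dif_pos hi]
  have hρ2 : ∀ i, ¬ (∃ x, G.Adj i x ∧ P.r i < P.r x) → ρ i = i := by
    intro i hi
    show wf.fix _ _ = _
    rw [wf.fix_eq, dif_neg hi]
  have key : ∀ n x, P.r root - P.r x = n → ∀ y, G.Adj x y → P.r x < P.r y → ρ x = ρ y := by
    intro n
    induction n using Nat.strong_induction_on with
    | _ n ih =>
      intro x hx y hxy hlt
      have hi : ∃ x', G.Adj x x' ∧ P.r x < P.r x' := ⟨y, hxy, hlt⟩
      rw [hρ1 x hi]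
      obtain ⟨⟨h1, h2⟩, h3⟩ := hp x hi
      by_cases hy : y = p x
      · rw [hy]
      · have h4 : P.r (p x) < P.r y := lt_of_le_of_ne (h3 y hxy hlt) (fun h => hy (P.r_inj h.symm))
        have h5 := hdec x hi
        exact ih _ (by omega) (p x) rfl y (P.clique x (p x) y h1 h2 hxy hlt (Ne.symm hy)) h4
  have key2 : ∀ x y, G.Adj x y → ρ x = ρ y := by
    intro x y hxy
    have hne : P.r x ≠ P.r y := fun h => hxy.ne (P.r_inj h)
    rcases lt_or_ge (P.r x) (P.r y) with h | h
    · exact key _ x rfl y hxy h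
    · exact (key _ y rfl x hxy.symm (by omega)).symm
  have key3 : ∀ x y, ρ x = ρ y := by
    intro x y
    obtain ⟨w⟩ := hG.preconnected x y
    induction w with
    | nil => rfl
    | cons h _ ih => exact (key2 _ _ h).trans ih
  have hlater : ∀ i, i ≠ root → ∃ x, G.Adj i x ∧ P.r i < P.r x := by
    intro i hi
    by_contra hcon
    have h1 := hρ2 i hcon
    have h2 : ρ root = root := hρ2 root (by
      rintro ⟨x, _, hx⟩
      have := hroot x
      omega)
    exact hi (by rw [← h1, key3 i root, h2])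
  exact ⟨{
    r := P.r
    root := root
    p := p
    r_inj := P.r_inj
    clique := P.clique
    p_adj := fun i hi => (hp i (hlater i hi)).1.1
    p_lt := fun i hi => (hp i (hlater i hi)).1.2
    p_min := fun i hi => (hp i (hlater i hi)).2
    root_max := hroot }, rfl⟩

/-- the children of `i` -/
lemma Elim.child_iff (E : Elim G) {i j : V} :
    (j ≠ E.root ∧ E.p j = i) ↔ (i ∈ E.S j ∧ ∀ x ∈ E.S j, x ∈ E.K i) := by
  constructor
  · rintro ⟨hj, rfl⟩
    exact ⟨E.p_mem_S hj, fun x hx => E.S_sub hx⟩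
  · rintro ⟨h1, h2⟩
    have hj := E.ne_root_of_mem_S h1
    refine ⟨hj, ?_⟩
    have h3 := E.le_of_mem_K (h2 _ (E.p_mem_S hj))
    have h4 := E.p_min j hj i h1.1 h1.2
    exact E.r_inj (by omega)

end Pool.Agent.Helper58.T3
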