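import Pool.Agent.Helper58.T3.Program
import Pool.Agent.Helper58.T3.PeoElim

set_option autoImplicit false

namespace Pool.Agent.Helper58.T3

open Pool.Agent.Helper58

/-- the list of pairs `E` lists the edges of `G` -/
def Lists (n : ℕ) (G : SimpleGraph (Fin n)) (E : List (ℕ × ℕ)) : Prop :=
  ∀ x y, (x, y) ∈ E ↔ ∃ i j : Fin n, i.val = x ∧ j.val = y ∧ G.Adj i j

lemma adjB_iff {E : List (ℕ × ℕ)} {x y : ℕ} : adjB E x y = true ↔ (x, y) ∈ E := by
  simp [adjB]

lemma mem_nb {E : List (ℕ × ℕ)} {W : List ℕ} {v x : ℕ} : x ∈ nb E W v ↔ x ∈ W ∧ (v, x) ∈ E := by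
  simp [nb, adjB_iff]

lemma simpB_iff {E : List (ℕ × ℕ)} {W : List ℕ} {v : ℕ} : simpB E W v = true ↔
    ∀ x ∈ nb E W v, ∀ y ∈ nb E W v, x ≠ y → (x, y) ∈ E := by
  simp only [simpB, List.all_eq_true, Bool.or_eq_true, decide_eq_true_eq, adjB_iff]
  constructor
  · intro h x hx y hy hxy
    exact (h x hx y hy).resolve_left hxy
  · intro h x hx y hy
    by_cases hxy : x = y
    · exact Or.inl hxy
    · exact Or.inr (h x hx y hy hxy)

/-- the invariant of the elimination -/
structure Inv (n : ℕ) (E : List (ℕ × ℕ)) (s : List ℕ × List (ℕ × List ℕ)) : Prop where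
  lt : ∀ x ∈ s.1, x < n
  ltO : ∀ q ∈ s.2, q.1 < n
  nodup : (s.2.map Prod.fst ++ s.1).Nodup
  all : ∀ x < n, x ∈ s.2.map Prod.fst ++ s.1
  ent : ∀ O1 q O2, s.2 = O1 ++ q :: O2 → ∀ x, x ∈ q.2 ↔ x ∈ O2.map Prod.fst ++ s.1 ∧ (q.1, x) ∈ E
  clq : ∀ q ∈ s.2, ∀ x ∈ q.2, ∀ y ∈ q.2, x ≠ y → (x, y) ∈ E

lemma inv_init (n : ℕ) (E : List (ℕ × ℕ)) : Inv n E (List.range n, []) where
  lt := fun x hx => List.mem_range.1 hx
  ltO := by simp
  nodup := by simpa using List.nodup_range
  all := by simp
  ent := by simp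
  clq := by simp

lemma inv_step {n : ℕ} {E : List (ℕ × ℕ)} (hloop : ∀ x, (x, x) ∉ E)
    {s : List ℕ × List (ℕ × List ℕ)} (h : Inv n E s) : Inv n E (elimStep E s) := by
  obtain ⟨W, O⟩ := s
  unfold elimStep
  simp only
  cases hf : W.filter (fun v => simpB E W v) with
  | nil => exact h
  | cons v t =>
    have hv : v ∈ W.filter (fun v => simpB E W v) := by rw [hf]; exact List.mem_cons_self
    obtain ⟨hvW, hvs⟩ := List.mem_filter.1 hv
    rw [simpB_iff] at hvs
    simp only [lcase]
    have hW : ∀ x, x ∈ W.filter (fun x => !decide (x = v)) ↔ x ∈ W ∧ x ≠ v := by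
      intro x; simp
    have hnd := h.nodup
    simp only at hnd
    rw [List.nodup_append] at hnd
    obtain ⟨hnd1, hnd2, hnd3⟩ := hnd
    refine ⟨?_, ?_, ?_, ?_, ?_, ?_⟩
    · intro x hx
      exact h.lt x ((hW x).1 hx).1
    · intro q hq
      rcases List.mem_append.1 hq with hq | hq
      · exact h.ltO q hq
      · rw [List.mem_singleton] at hq
        subst hq
        exact h.lt v hvW
    · simp only [List.map_append, List.map_cons, List.map_nil, List.append_assoc,
        List.singleton_append]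
      rw [List.nodup_append]
      refine ⟨hnd1, ?_, ?_⟩
      · rw [List.nodup_cons]
        refine ⟨fun hh => ((hW v).1 hh).2 rfl, hnd2.filter _⟩
      · intro a ha b hb
        rcases List.mem_cons.1 hb with hb | hb
        · subst hb; exact hnd3 a ha b hvW
        · exact hnd3 a ha b ((hW b).1 hb).1
    · intro x hx
      have h1 := h.all x hx
      simp only [List.map_append, List.map_cons, List.map_nil, List.append_assoc,
        List.singleton_append, List.mem_append, List.mem_cons] at h1 ⊢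
      rcases h1 with h1 | h1
      · exact Or.inl h1
      · by_cases hxv : x = v
        · exact Or.inr (Or.inl hxv)
        · exact Or.inr (Or.inr ((hW x).2 ⟨h1, hxv⟩))
    · intro O1 q O2 he x
      simp only at he
      rcases List.eq_nil_or_concat O2 with rfl | ⟨O3, z, rfl⟩
      · have h1 : O1 = O ∧ q = (v, nb E W v) := by
          have := List.append_inj' (s₁ := O) (t₁ := [(v, nb E W v)]) (s₂ := O1) (t₂ := [q]) he rfl
          exact ⟨this.1.symm, by simpa using this.2.symm⟩
        obtain ⟨rfl, rfl⟩ := h1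
        simp only [List.map_nil, List.nil_append]
        rw [mem_nb, hW]
        constructor
        · rintro ⟨h2, h3⟩
          refine ⟨⟨h2, ?_⟩, h3⟩
          rintro rfl
          exact hloop _ h3
        · rintro ⟨⟨h2, _⟩, h3⟩
          exact ⟨h2, h3⟩
      · rw [List.concat_eq_append] at he ⊢
        have h1 : O = O1 ++ q :: O3 ∧ z = (v, nb E W v) := by
          rw [← List.cons_append, ← List.append_assoc] at he
          have := List.append_inj' (s₁ := O) (t₁ := [(v, nb E W v)]) (s₂ := O1 ++ q :: O3)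
            (t₂ := [z]) he rfl
          exact ⟨this.1, by simpa using this.2.symm⟩
        obtain ⟨h1, rfl⟩ := h1
        rw [h.ent O1 q O3 h1 x]
        simp only [List.map_append, List.map_cons, List.map_nil, List.mem_append,
          List.mem_singleton]
        constructor
        · rintro ⟨h2 | h2, h3⟩
          · exact ⟨Or.inl (Or.inl h2), h3⟩
          · by_cases hxv : x = v
            · exact ⟨Or.inl (Or.inr hxv), h3⟩
            · exact ⟨Or.inr ((hW x).2 ⟨h2, hxv⟩), h3⟩
        · rintro ⟨(h2 | h2) | h2, h3⟩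
          · exact ⟨Or.inl h2, h3⟩
          · exact ⟨Or.inr (by rw [h2]; exact hvW), h3⟩
          · exact ⟨Or.inr ((hW x).1 h2).1, h3⟩
    · intro q hq
      rcases List.mem_append.1 hq with hq | hq
      · exact h.clq q hq
      · rw [List.mem_singleton] at hq
        subst hq
        exact hvs

lemma inv_run {n : ℕ} {E : List (ℕ × ℕ)} (hloop : ∀ x, (x, x) ∉ E) : Inv n E (elimRun n E) := by
  unfold elimRun
  have : ∀ (l : List ℕ) (s : List ℕ × List (ℕ × List ℕ)), Inv n E s →
      Inv n E (l.foldl (fun s _ => elimStep E s) s) := by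
    intro l
    induction l with
    | nil => intro s h; exact h
    | cons x l ih => intro s h; exact ih _ (inv_step hloop h)
  exact this _ _ (inv_init n E)

lemma progress {n : ℕ} {G : SimpleGraph (Fin n)} {E : List (ℕ × ℕ)} (hE : Lists n G E)
    (hG : Chordal G) {s : List ℕ × List (ℕ × List ℕ)} (h : Inv n E s) (hs : s.1 ≠ []) :
    (elimStep E s).1.length < s.1.length := by
  classical
  obtain ⟨W, O⟩ := s
  simp only at hs
  obtain ⟨x, t, rfl⟩ := List.exists_cons_of_ne_nil hs
  set W := x :: t with hW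
  obtain ⟨v, hv⟩ := dirac hG (Finset.univ.filter (fun i : Fin n => i.val ∈ W))
    ⟨⟨x, h.lt x (by simp [hW])⟩, by simp [hW]⟩
  have hvW : v.val ∈ W := by simpa using hv.1
  have hsimp : simpB E W v.val = true := by
    rw [simpB_iff]
    intro a ha b hb hab
    rw [mem_nb] at ha hb
    obtain ⟨i, j, hi, hj, hadj1⟩ := (hE _ _).1 ha.2
    obtain ⟨i', k, hi', hk, hadj2⟩ := (hE _ _).1 hb.2
    have e1 : i = v := Fin.ext hi
    have e2 : i' = v := Fin.ext hi'
    subst e1; subst e2
    subst hj; subst hk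
    rw [hE]
    refine ⟨j, k, rfl, rfl, hv.2 j ?_ k ?_ hadj1 hadj2 (fun h => hab (by rw [h]))⟩
    · simpa using ha.1
    · simpa using hb.1
  unfold elimStep
  simp only
  cases hf : W.filter (fun v => simpB E W v) with
  | nil =>
    have : v.val ∈ W.filter (fun v => simpB E W v) := List.mem_filter.2 ⟨hvW, hsimp⟩
    rw [hf] at this
    simp at this
  | cons w t' =>
    have hw : w ∈ W.filter (fun v => simpB E W v) := by rw [hf]; exact List.mem_cons_self
    have hwW := List.mem_of_mem_filter hw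
    simp only [lcase]
    refine lt_of_le_of_ne (List.length_filter_le _ _) (fun he => ?_)
    rw [List.length_filter_eq_length_iff] at he
    have := he w hwW
    simp at this

lemma run_chordal {n : ℕ} {G : SimpleGraph (Fin n)} {E : List (ℕ × ℕ)} (hE : Lists n G E)
    (hG : Chordal G) : (elimRun n E).1 = [] := by
  have hloop : ∀ x, (x, x) ∉ E := by
    intro x hx
    obtain ⟨i, j, hi, hj, hadj⟩ := (hE _ _).1 hx
    have : i = j := Fin.ext (hi.trans hj.symm)
    subst this
    exact hadj.ne rfl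
  have : ∀ (l : List ℕ) (s : List ℕ × List (ℕ × List ℕ)), Inv n E s → s.1.length ≤ l.length →
      (l.foldl (fun s _ => elimStep E s) s).1 = [] := by
    intro l
    induction l with
    | nil => intro s _ h; simpa using h
    | cons x l ih =>
      intro s h hlen
      rw [List.foldl_cons]
      apply ih _ (inv_step hloop h)
      rw [List.length_cons] at hlen
      by_cases hs : s.1 = []
      · have : (elimStep E s).1 = [] := by
          unfold elimStep
          rw [hs]
          simp [lcase, hs]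
        rw [this]; simp
      · have := progress hE hG h hs
        omega
  exact this _ _ (inv_init n E) (by simp)

/-- a complete elimination gives a perfect elimination order -/
theorem peo_of_inv {n : ℕ} {G : SimpleGraph (Fin n)} {E : List (ℕ × ℕ)} (hE : Lists n G E)
    {O : List (ℕ × List ℕ)} (h : Inv n E ([], O)) :
    ∃ (P : Peo G) (Sl : Fin n → List ℕ), (∀ i : Fin n, (i.val, Sl i) ∈ O) ∧
      (∀ q ∈ O, ∃ i : Fin n, q = (i.val, Sl i)) ∧
      ∀ (i : Fin n) (x : ℕ), x ∈ Sl i ↔ ∃ j : Fin n, j.val = x ∧ G.Adj i j ∧ P.r i < P.r j := by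
  classical
  set L := O.map Prod.fst with hL
  have hnd : L.Nodup := by simpa using h.nodup
  have hall : ∀ i : Fin n, i.val ∈ L := by
    intro i
    have h1 := h.all i.val i.isLt
    rw [List.append_nil] at h1
    exact h1
  have hex : ∀ i : Fin n, ∃ S, (i.val, S) ∈ O := by
    intro i
    obtain ⟨q, hq, hqi⟩ := List.mem_map.1 (hall i)
    exact ⟨q.2, by rw [← hqi]; exact hq⟩
  choose Sl hSl using hex
  have huniq : ∀ q ∈ O, ∀ q' ∈ O, q.1 = q'.1 → q = q' := by
    intro q hq q' hq' he
    exact List.inj_on_of_nodup_map hnd hq hq' he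
  -- position
  have hpos : ∀ O1 (q : ℕ × List ℕ) O2, O = O1 ++ q :: O2 → L.idxOf q.1 = O1.length ∧
      ∀ x, x ∈ O2.map Prod.fst ↔ x ∈ L ∧ L.idxOf q.1 < L.idxOf x := by
    intro O1 q O2 he
    have hLe : L = O1.map Prod.fst ++ q.1 :: O2.map Prod.fst := by rw [hL, he]; simp
    rw [hLe] at hnd
    rw [List.nodup_append] at hnd
    obtain ⟨hn1, hn2, hn3⟩ := hnd
    have hq1 : q.1 ∉ O1.map Prod.fst := fun hq => hn3 _ hq _ List.mem_cons_self rfl
    have e1 : L.idxOf q.1 = O1.length := by
      rw [hLe, List.idxOf_append_of_notMem hq1]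
      simp
    refine ⟨e1, fun x => ?_⟩
    constructor
    · intro hx
      have hx1 : x ∉ O1.map Prod.fst := fun hx' => hn3 _ hx' _ (List.mem_cons_of_mem _ hx) rfl
      have hne : q.1 ≠ x := by
        rintro rfl
        exact (List.nodup_cons.1 hn2).1 hx
      refine ⟨by rw [hLe]; exact List.mem_append_right _ (List.mem_cons_of_mem _ hx), ?_⟩
      rw [e1, hLe, List.idxOf_append_of_notMem hx1, List.idxOf_cons_ne _ hne]
      simp
    · rintro ⟨hx, hlt⟩
      rw [hLe] at hx
      rcases List.mem_append.1 hx with hx1 | hx1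
      · exfalso
        rw [e1, hLe, List.idxOf_append_of_mem hx1] at hlt
        have := List.idxOf_lt_length_of_mem hx1
        rw [List.length_map] at this
        omega
      · rcases List.mem_cons.1 hx1 with hx2 | hx2
        · exfalso
          rw [hx2] at hlt
          exact absurd hlt (lt_irrefl _)
        · exact hx2
  have hmem : ∀ (i : Fin n) (x : ℕ), x ∈ Sl i ↔ ∃ j : Fin n, j.val = x ∧ G.Adj i j ∧
      L.idxOf i.val < L.idxOf j.val := by
    intro i x
    obtain ⟨O1, O2, he⟩ := List.append_of_mem (hSl i)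
    have h1 := h.ent O1 (i.val, Sl i) O2 he x
    obtain ⟨_, h2⟩ := hpos O1 (i.val, Sl i) O2 he
    simp only [List.append_nil] at h1
    rw [h1]
    constructor
    · rintro ⟨h3, h4⟩
      obtain ⟨i', j, hi', hj, hadj⟩ := (hE _ _).1 h4
      have : i' = i := Fin.ext hi'
      subst this
      refine ⟨j, hj, hadj, ?_⟩
      rw [hj]
      exact ((h2 x).1 h3).2
    · rintro ⟨j, rfl, hadj, hlt⟩
      exact ⟨(h2 j.val).2 ⟨hall j, hlt⟩, (hE _ _).2 ⟨i, j, rfl, rfl, hadj⟩⟩
  refine ⟨⟨fun i => L.idxOf i.val, ?_, ?_⟩, Sl, hSl, ?_, hmem⟩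
  · intro i j hij
    exact Fin.ext ((List.idxOf_inj (hall i)).1 hij)
  · intro i x y hix hx hiy hy hxy
    have h1 : x.val ∈ Sl i := (hmem i x.val).2 ⟨x, rfl, hix, hx⟩
    have h2 : y.val ∈ Sl i := (hmem i y.val).2 ⟨y, rfl, hiy, hy⟩
    have h3 := h.clq _ (hSl i) _ h1 _ h2 (fun h => hxy (Fin.ext h))
    obtain ⟨i', j', hi', hj', hadj⟩ := (hE _ _).1 h3
    have e1 : i' = x := Fin.ext hi'
    have e2 : j' = y := Fin.ext hj'
    rw [← e1, ← e2]; exact hadj
  · intro q hq
    refine ⟨⟨q.1, h.ltO q hq⟩, ?_⟩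
    exact huniq q hq _ (hSl ⟨q.1, h.ltO q hq⟩) rfl

end Pool.Agent.Helper58.T3
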