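import Pool.Agent.Helper58.T3.FromTree

set_option autoImplicit false

namespace Pool.Agent.Helper58.T3

variable {V : Type} [DecidableEq V] {G : SimpleGraph V} (E : Elim G)

/-- the double star `σ` at the bag of `i` extends to all bags below `i` -/
inductive Ext : V → DS V → Prop
  | mk (i : V) (σ : DS V) (τ : V → DS V) (hv : σ.Valid G (E.K i))
      (h1 : ∀ j, j ≠ E.root → E.p j = i → Ext j (τ j))
      (h2 : ∀ j, j ≠ E.root → E.p j = i → Compat (E.S j) (τ j) σ) : Ext i σ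

/-- `σ` (at the parent bag) extends to the bags below and at `j` -/
def MM (j : V) (σ : DS V) : Prop := ∃ τ, Ext E j τ ∧ Compat (E.S j) τ σ

lemma ext_iff {i : V} {σ : DS V} : Ext E i σ ↔ σ.Valid G (E.K i) ∧
    ∀ j, j ≠ E.root → E.p j = i → MM E j σ := by
  classical
  constructor
  · intro h
    cases h with
    | mk i σ τ hv h1 h2 => exact ⟨hv, fun j hj hji => ⟨τ j, h1 j hj hji, h2 j hj hji⟩⟩
  · rintro ⟨hv, h⟩
    have : ∀ j, ∃ τ, (j ≠ E.root → E.p j = i → Ext E j τ ∧ Compat (E.S j) τ σ) := by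
      intro j
      by_cases hj : j ≠ E.root ∧ E.p j = i
      · obtain ⟨τ, hτ⟩ := h j hj.1 hj.2
        exact ⟨τ, fun _ _ => hτ⟩
      · exact ⟨σ, fun h1 h2 => absurd ⟨h1, h2⟩ hj⟩
    choose τ hτ using this
    exact Ext.mk i σ τ hv (fun j h1 h2 => (hτ j h1 h2).1) (fun j h1 h2 => (hτ j h1 h2).2)

/-- tree spanners correspond to extendable double stars at the root -/
theorem spanner_iff [Nontrivial V] (hG : G.Connected) :
    (∃ T, IsSpanner3 G T) ↔ ∃ σ, Ext E E.root σ := by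
  classical
  constructor
  · rintro ⟨T, hT⟩
    obtain ⟨σ, hv, hc⟩ := local_of_spanner hT E
    refine ⟨σ E.root, ?_⟩
    have : ∀ i, Ext E i (σ i) := by
      apply E.asc (P := fun i => Ext E i (σ i))
      intro i ih
      rw [ext_iff]
      refine ⟨hv i, fun j hj hji => ⟨σ j, ih j ?_, ?_⟩⟩
      · rw [← hji]; exact E.p_lt j hj
      · rw [← hji]; exact hc j hj
    exact this _
  · rintro ⟨σ0, hσ0⟩
    obtain ⟨χ, h0, hχ⟩ := E.exists_rec
      (fun i (τ : DS V) => if h : MM E i τ then h.choose else τ) σ0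
    have key : ∀ i, Ext E i (χ i) := by
      apply E.desc (P := fun i => Ext E i (χ i))
      intro i ih
      by_cases hi : i = E.root
      · rw [hi, h0]; exact hσ0
      · have h1 := ih _ (E.p_lt i hi)
        have h2 := ((ext_iff E).1 h1).2 i hi rfl
        rw [hχ i hi, dif_pos h2]
        exact h2.choose_spec.1
    refine ⟨glueTree E χ, isSpanner3_glueTree E χ (fun i => ((ext_iff E).1 (key i)).1) ?_ hG⟩
    intro i hi
    have h2 := ((ext_iff E).1 (key (E.p i))).2 i hi rfl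
    rw [hχ i hi, dif_pos h2]
    exact h2.choose_spec.2

/-! ### dependence on the attachment -/

omit [DecidableEq V] in
lemma Compat.mono {S S' : Set V} [DecidableEq V] {σ τ : DS V} (h : Compat S' σ τ) (hs : S ⊆ S') :
    Compat S σ τ := fun x hx y hy => h x (hs hx) y (hs hy)

lemma Compat.symm {S : Set V} {σ τ : DS V} (h : Compat S σ τ) : Compat S τ σ :=
  fun x hx y hy => (h x hx y hy).symm

lemma Compat.trans {S : Set V} {σ τ ρ : DS V} (h : Compat S σ τ) (h2 : Compat S τ ρ) :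
    Compat S σ ρ := fun x hx y hy => (h x hx y hy).trans (h2 x hx y hy)

lemma Compat.of_c {S : Set V} {σ τ : DS V} (h : ∀ x ∈ S, σ.c x = τ.c x) : Compat S σ τ := by
  intro x hx y hy
  funext f
  unfold DS.pv
  rw [h x hx, h y hy]

lemma c_congr {a b x : V} {g g' : V → Bool} (h : x ≠ a → x ≠ b → g x = g' x) :
    (⟨a, b, g⟩ : DS V).c x = (⟨a, b, g'⟩ : DS V).c x := by
  unfold DS.c
  simp only
  split_ifs with h1
  · rfl
  · push Not at h1
    rw [h h1.1 h1.2]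

lemma compat_congr {S : Set V} {a b : V} {g g' : V → Bool}
    (h : ∀ x ∈ S, x ≠ a → x ≠ b → g x = g' x) : Compat S ⟨a, b, g⟩ ⟨a, b, g'⟩ :=
  Compat.of_c (fun x hx => c_congr (h x hx))

lemma MM.congr {j a b : V} {g g' : V → Bool} (hM : MM E j ⟨a, b, g⟩)
    (h : ∀ x ∈ E.S j, x ≠ a → x ≠ b → g x = g' x) : MM E j ⟨a, b, g'⟩ := by
  obtain ⟨τ, h1, h2⟩ := hM
  exact ⟨τ, h1, h2.trans (compat_congr h)⟩

lemma Ext.congr {i a b : V} {g g' : V → Bool} (hE : Ext E i ⟨a, b, g⟩)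
    (h : ∀ x ∈ E.K i, x ≠ a → x ≠ b → g x = g' x) : Ext E i ⟨a, b, g'⟩ := by
  rw [ext_iff] at hE ⊢
  obtain ⟨⟨h1, h2⟩, h3⟩ := hE
  refine ⟨⟨h1, fun x hx => ?_⟩, fun j hj hji => ?_⟩
  · rw [← c_congr (h x hx)]; exact h2 x hx
  · refine MM.congr E (h3 j hj hji) (fun x hx => h x ?_)
    rw [← hji]; exact E.S_sub hx

/-- exchanging the names of the centres -/
def DS.swap (σ : DS V) : DS V := ⟨σ.b, σ.a, fun x => !σ.g x⟩

lemma DS.swap_c (σ : DS V) (x : V) : σ.swap.c x = σ.c x := by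
  unfold DS.c DS.swap
  simp only [or_comm (a := x = σ.b)]
  split_ifs with h
  · rfl
  · cases σ.g x <;> rfl

lemma compat_swap (S : Set V) (σ : DS V) : Compat S σ.swap σ := Compat.of_c (fun x _ => σ.swap_c x)

lemma Ext.swap {i : V} {σ : DS V} (h : Ext E i σ) : Ext E i σ.swap := by
  rw [ext_iff] at h ⊢
  obtain ⟨⟨h1, h2⟩, h3⟩ := h
  refine ⟨⟨h1.symm, fun x hx => ?_⟩, fun j hj hji => ?_⟩
  · rw [σ.swap_c]; exact h2 x hx
  · obtain ⟨τ, h4, h5⟩ := h3 j hj hji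
    exact ⟨τ, h4, h5.trans (compat_swap _ σ).symm⟩

/-! ### the centres are forced -/

lemma force1 {σ τ : DS V} {x y : V} (hxy : x ≠ y) (hab : σ.a ≠ σ.b) (hxa : x ≠ σ.a) (hxb : x ≠ σ.b)
    (hya : y ≠ σ.a) (hyb : y ≠ σ.b) (hx : σ.g x = false) (hy : σ.g y = true)
    (h : σ.pv x y = τ.pv x y) : τ.c x = σ.a := by
  have cx := σ.c_false hxa hxb hx
  have cy := σ.c_true hya hyb hy
  have h1 : τ.pv x y s(x, σ.a) = true := by
    rw [← h, ← cx]
    exact σ.pv_first hxy (by rw [cx]; exact hxa)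
  have h2 : τ.pv x y s(σ.a, σ.b) = true := by
    rw [← h]
    have := σ.pv_middle (x := x) (y := y) (by rw [cx, cy]; exact hab)
    rw [cx, cy] at this
    exact this
  rcases τ.pv_true h1 with ⟨h3, h4⟩ | ⟨h3, h4⟩ | ⟨h3, h4⟩ <;> rw [Sym2.eq_iff] at h4
  · rcases h4 with ⟨_, h5⟩ | ⟨_, h5⟩
    · exact h5.symm
    · exact absurd h5.symm hxa
  · rcases h4 with ⟨h5, h6⟩ | ⟨h5, h6⟩
    · exfalso
      rcases τ.pv_true h2 with ⟨h7, _⟩ | ⟨_, h8⟩ | ⟨_, h8⟩
      · exact h7 h5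
      · rw [← h5, ← h6, Sym2.eq_iff] at h8
        rcases h8 with ⟨h9, _⟩ | ⟨_, h9⟩
        · exact hxa h9.symm
        · exact hxb h9.symm
      · rw [← h6, Sym2.eq_iff] at h8
        rcases h8 with ⟨h9, _⟩ | ⟨_, h9⟩
        · exact hya h9.symm
        · exact hyb h9.symm
    · exfalso
      apply hxa
      have h7 := τ.c_c y
      rw [← h5] at h7
      rw [← h7]; exact h6.symm
  · rcases h4 with ⟨h5, _⟩ | ⟨_, h5⟩
    · exact absurd h5 hxy
    · exact absurd h5.symm hya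

lemma force2 {σ τ : DS V} {x y : V} (hxy : x ≠ y) (hab : σ.a ≠ σ.b) (hxa : x ≠ σ.a) (hxb : x ≠ σ.b)
    (hya : y ≠ σ.a) (hyb : y ≠ σ.b) (hx : σ.g x = false) (hy : σ.g y = true)
    (h : σ.pv x y = τ.pv x y) : τ.c y = σ.b := by
  have hsw : σ.swap.pv y x = σ.pv y x := by
    funext f
    unfold DS.pv
    rw [σ.swap_c, σ.swap_c]
  exact force1 (σ := σ.swap) (τ := τ) (x := y) (y := x) hxy.symm hab.symm hyb hya hxb hxa
    (by show (!σ.g y) = false; rw [hy]; rfl) (by show (!σ.g x) = true; rw [hx]; rfl)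
    (by rw [hsw, σ.pv_comm, h, τ.pv_comm])

lemma c_eq_iff {a b x : V} {g : V → Bool} (hab : a ≠ b) (h1 : x ≠ a) (h2 : x ≠ b) {g' : V → Bool} :
    (⟨a, b, g⟩ : DS V).c x = (⟨a, b, g'⟩ : DS V).c x → g x = g' x := by
  intro h
  unfold DS.c at h
  simp only [h1, h2, or_self, if_false] at h
  cases hg : g x <;> cases hg' : g' x <;> rw [hg, hg'] at h <;> simp_all

/-- a double star compatible with a nonconstant one has the same centres -/
lemma force {S : Set V} {a b : V} {h : V → Bool} {τ : DS V} (hab : a ≠ b)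
    (hc : Compat S τ ⟨a, b, h⟩) {x y : V} (hx : x ∈ S) (hy : y ∈ S) (hxa : x ≠ a) (hxb : x ≠ b)
    (hya : y ≠ a) (hyb : y ≠ b) (hgx : h x = false) (hgy : h y = true) :
    (τ.a = a ∧ τ.b = b ∨ τ.a = b ∧ τ.b = a) ∧
      ∀ z ∈ S, z ≠ a → z ≠ b → τ.c z = (⟨a, b, h⟩ : DS V).c z := by
  have key : ∀ z ∈ S, z ≠ a → z ≠ b → τ.c z = (⟨a, b, h⟩ : DS V).c z := by
    intro z hz hza hzb
    cases hgz : h z with
    | false =>
      rw [DS.c_false ⟨a, b, h⟩ hza hzb hgz]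
      have hzy : z ≠ y := by rintro rfl; rw [hgz] at hgy; exact absurd hgy (by simp)
      exact force1 (σ := ⟨a, b, h⟩) hzy hab hza hzb hya hyb hgz hgy (hc z hz y hy).symm
    | true =>
      rw [DS.c_true ⟨a, b, h⟩ hza hzb hgz]
      have hzy : x ≠ z := by rintro rfl; rw [hgz] at hgx; exact absurd hgx (by simp)
      exact force2 (σ := ⟨a, b, h⟩) hzy hab hxa hxb hza hzb hgx hgz (hc x hx z hz).symm
  refine ⟨?_, key⟩
  have h1 := key x hx hxa hxb
  have h2 := key y hy hya hyb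
  rw [DS.c_false ⟨a, b, h⟩ hxa hxb hgx] at h1
  rw [DS.c_true ⟨a, b, h⟩ hya hyb hgy] at h2
  simp only at h1 h2
  rcases τ.c_mem x with h3 | h3 <;> rcases τ.c_mem y with h4 | h4 <;> rw [h1] at h3 <;> rw [h2] at h4
  · exact absurd (h3.trans h4.symm) hab
  · exact Or.inl ⟨h3.symm, h4.symm⟩
  · exact Or.inr ⟨h4.symm, h3.symm⟩
  · exact absurd (h3.trans h4.symm) hab

/-- the three ways to extend -/
lemma MM.cases {j a b : V} {h : V → Bool} (hab : a ≠ b) (hM : MM E j ⟨a, b, h⟩) :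
    (∃ g, Ext E j ⟨a, b, g⟩ ∧ ∀ x ∈ E.S j, x ≠ a → x ≠ b → g x = h x) ∨
    (∀ x ∈ E.S j, x ≠ a → x ≠ b → h x = false) ∨ (∀ x ∈ E.S j, x ≠ a → x ≠ b → h x = true) := by
  by_cases h1 : ∀ x ∈ E.S j, x ≠ a → x ≠ b → h x = false
  · exact Or.inr (Or.inl h1)
  by_cases h2 : ∀ x ∈ E.S j, x ≠ a → x ≠ b → h x = true
  · exact Or.inr (Or.inr h2)
  left
  push Not at h1 h2
  obtain ⟨y, hy, hya, hyb, hgy⟩ := h1
  obtain ⟨x, hx, hxa, hxb, hgx⟩ := h2
  have hgy : _ = true := (Bool.not_eq_false _).mp hgy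
  have hgx : _ = false := (Bool.not_eq_true _).mp hgx
  obtain ⟨τ, hE, hc⟩ := hM
  obtain ⟨h3, h4⟩ := force hab hc hx hy hxa hxb hya hyb hgx hgy
  obtain ⟨ta, tb, tg⟩ := τ
  rcases h3 with ⟨h5, h6⟩ | ⟨h5, h6⟩
  · simp only at h5 h6
    subst h5; subst h6
    exact ⟨tg, hE, fun z hz hza hzb => c_eq_iff hab hza hzb (h4 z hz hza hzb)⟩
  · simp only at h5 h6
    subst h5; subst h6
    refine ⟨fun x => !tg x, Ext.swap E hE, fun z hz hza hzb => ?_⟩
    apply c_eq_iff hab hza hzb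
    have h5 := DS.swap_c ⟨ta, tb, tg⟩ z
    have h6 := h4 z hz hza hzb
    rw [← h6, ← h5]
    rfl

/-- the star configurations -/
lemma MM.star {j a b : V} (hM : MM E j ⟨a, b, fun _ => false⟩) :
    ∃ a' b' g', G.Adj a' b' ∧ Ext E j ⟨a', b', g'⟩ ∧ (∀ x ∈ E.S j, x ≠ a' → x ≠ b' → g' x = false) ∧
      Compat (E.S j) ⟨a', b', fun _ => false⟩ ⟨a, b, fun _ => false⟩ := by
  obtain ⟨τ, hE, hc⟩ := hM
  have hadj := ((ext_iff E).1 hE).1.1
  by_cases h1 : ∀ x ∈ E.S j, x ≠ τ.a → x ≠ τ.b → τ.g x = false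
  · exact ⟨τ.a, τ.b, τ.g, hadj, hE, h1, (compat_congr h1).symm.trans hc⟩
  by_cases h2 : ∀ x ∈ E.S j, x ≠ τ.a → x ≠ τ.b → τ.g x = true
  · have h3 : ∀ x ∈ E.S j, x ≠ τ.b → x ≠ τ.a → (!τ.g x) = false := by
      intro x hx hxb hxa
      rw [h2 x hx hxa hxb]; rfl
    exact ⟨τ.b, τ.a, fun x => !τ.g x, hadj.symm, Ext.swap E hE, h3,
      (compat_congr h3).symm.trans ((compat_swap _ τ).trans hc)⟩
  exfalso
  push Not at h1 h2
  obtain ⟨y, hy, hya, hyb, hgy⟩ := h1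
  obtain ⟨x, hx, hxa, hxb, hgx⟩ := h2
  have hgy : _ = true := (Bool.not_eq_false _).mp hgy
  have hgx : _ = false := (Bool.not_eq_true _).mp hgx
  have hxy : x ≠ y := by rintro rfl; rw [hgx] at hgy; exact absurd hgy (by simp)
  have e1 := force1 (σ := τ) hxy hadj.ne hxa hxb hya hyb hgx hgy (hc x hx y hy)
  have e2 := force2 (σ := τ) hxy hadj.ne hxa hxb hya hyb hgx hgy (hc x hx y hy)
  have e3 : ∀ z, (⟨a, b, fun _ => false⟩ : DS V).c z ≠ z → (⟨a, b, fun _ => false⟩ : DS V).c z = a := by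
    intro z hz
    unfold DS.c at hz ⊢
    simp only at hz ⊢
    split_ifs at hz ⊢ with h
    · exact absurd rfl hz
    · rfl
  have e4 := e3 x (by rw [e1]; exact hxa.symm)
  have e5 := e3 y (by rw [e2]; exact hyb.symm)
  exact hadj.ne (by rw [← e1, ← e2, e4, e5])

/-! ### lattice property -/

theorem ext_lattice {a b : V} (hab : a ≠ b) : ∀ i, ∀ g g', Ext E i ⟨a, b, g⟩ → Ext E i ⟨a, b, g'⟩ →
    Ext E i ⟨a, b, fun x => g x && g' x⟩ ∧ Ext E i ⟨a, b, fun x => g x || g' x⟩ := by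
  apply E.asc (P := fun i => ∀ g g', Ext E i ⟨a, b, g⟩ → Ext E i ⟨a, b, g'⟩ →
    Ext E i ⟨a, b, fun x => g x && g' x⟩ ∧ Ext E i ⟨a, b, fun x => g x || g' x⟩)
  intro i ih g g' h h'
  rw [ext_iff] at h h'
  have hM : ∀ j, j ≠ E.root → E.p j = i → MM E j ⟨a, b, fun x => g x && g' x⟩ ∧
      MM E j ⟨a, b, fun x => g x || g' x⟩ := by
    intro j hj hji
    have h1 := h.2 j hj hji
    have h2 := h'.2 j hj hji
    rcases MM.cases E hab h1 with ⟨g1, hg1, hg1'⟩ | h3 | h3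
    · rcases MM.cases E hab h2 with ⟨g2, hg2, hg2'⟩ | h4 | h4
      · obtain ⟨e1, e2⟩ := ih j (by rw [← hji]; exact E.p_lt j hj) g1 g2 hg1 hg2
        refine ⟨⟨_, e1, compat_congr ?_⟩, ⟨_, e2, compat_congr ?_⟩⟩
        · intro x hx hxa hxb
          rw [hg1' x hx hxa hxb, hg2' x hx hxa hxb]
        · intro x hx hxa hxb
          rw [hg1' x hx hxa hxb, hg2' x hx hxa hxb]
      · refine ⟨MM.congr E h2 ?_, MM.congr E h1 ?_⟩
        · intro x hx hxa hxb
          rw [h4 x hx hxa hxb]; simp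
        · intro x hx hxa hxb
          rw [h4 x hx hxa hxb]; simp
      · refine ⟨MM.congr E h1 ?_, MM.congr E h2 ?_⟩
        · intro x hx hxa hxb
          rw [h4 x hx hxa hxb]; simp
        · intro x hx hxa hxb
          rw [h4 x hx hxa hxb]; simp
    · refine ⟨MM.congr E h1 ?_, MM.congr E h2 ?_⟩
      · intro x hx hxa hxb
        rw [h3 x hx hxa hxb]; simp
      · intro x hx hxa hxb
        rw [h3 x hx hxa hxb]; simp
    · refine ⟨MM.congr E h2 ?_, MM.congr E h1 ?_⟩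
      · intro x hx hxa hxb
        rw [h3 x hx hxa hxb]; simp
      · intro x hx hxa hxb
        rw [h3 x hx hxa hxb]; simp
  have hval : ∀ g'' : V → Bool, (∀ x, g'' x = g x ∨ g'' x = g' x) →
      DS.Valid G (⟨a, b, g''⟩ : DS V) (E.K i) := by
    intro g'' hg
    refine ⟨h.1.1, fun x hx => ?_⟩
    rcases hg x with h5 | h5
    · rw [c_congr (g := g'') (g' := g) (fun _ _ => h5)]; exact h.1.2 x hx
    · rw [c_congr (g := g'') (g' := g') (fun _ _ => h5)]; exact h'.1.2 x hx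
  constructor
  · rw [ext_iff]
    refine ⟨hval _ (fun x => ?_), fun j hj hji => (hM j hj hji).1⟩
    cases g x <;> cases g' x <;> simp
  · rw [ext_iff]
    refine ⟨hval _ (fun x => ?_), fun j hj hji => (hM j hj hji).2⟩
    cases g x <;> cases g' x <;> simp

end Pool.Agent.Helper58.T3
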