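import Pool.Agent.Helper58.T3.RuleCorrect

set_option autoImplicit false

namespace Pool.Agent.Helper58.T3

open Pool.Agent.Helper58 Node

lemma lists_loop {n : ℕ} {G : SimpleGraph (Fin n)} {E : List (ℕ × ℕ)} (hE : Lists n G E) :
    ∀ x, (x, x) ∉ E := by
  intro x hx
  obtain ⟨i, j, hi, hj, hadj⟩ := (hE _ _).1 hx
  have : i = j := Fin.ext (hi.trans hj.symm)
  subst this
  exact hadj.ne rfl

/-- a graph on one vertex has a tree spanner -/
lemma spanner_one (G : SimpleGraph (Fin 1)) : ∃ T, IsSpanner3 G T := by
  refine ⟨⊥, bot_le, ?_, ?_⟩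
  · have : (⊥ : SimpleGraph (Fin 1)).Connected := by
      have : Nonempty (Fin 1) := ⟨0⟩
      refine SimpleGraph.Connected.mk (fun x y => ?_)
      rw [Subsingleton.elim x y]
    exact ⟨this, SimpleGraph.isAcyclic_bot⟩
  · intro x y h
    exact absurd (Subsingleton.elim x y) h.ne

lemma final_iff {n : ℕ} {G : SimpleGraph (Fin n)} {E : List (ℕ × ℕ)} (hE : Lists n G E)
    {O : List (ℕ × List ℕ)} (h : Inv n E ([], O)) :
    finalB n E O = true ↔ G.Connected ∧ ∃ T, IsSpanner3 G T := by
  classical
  obtain ⟨P, Sl, hO1, hO2, h3⟩ := peo_of_inv hE h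
  have hnd : O.Nodup := by
    have h4 : (O.map Prod.fst).Nodup := by simpa using h.nodup
    exact List.Nodup.of_map _ h4
  by_cases hG : G.Connected
  · obtain ⟨El, hEl⟩ := P.elim hG
    have hSl : ∀ i, Rep (Sl i) (El.S i) := by
      intro i x
      rw [h3, ← hEl]
      rfl
    have hroot : Sl El.root = [] := by
      rw [List.eq_nil_iff_forall_not_mem]
      intro x hx
      obtain ⟨j, _, h5⟩ := (hSl _ x).1 hx
      exact El.ne_root_of_mem_S h5 rfl
    have hother : ∀ i, i ≠ El.root → Sl i ≠ [] := by
      intro i hi h4
      have h5 := (hSl i (El.p i).val).2 ⟨_, rfl, El.p_mem_S hi⟩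
      rw [h4] at h5
      simp at h5
    have hf : O.filter (fun q => decide (q.2 = [])) = [(El.root.val, Sl El.root)] := by
      have hmem : ∀ q, q ∈ O.filter (fun q => decide (q.2 = [])) ↔ q = (El.root.val, Sl El.root) := by
        intro q
        simp only [List.mem_filter, decide_eq_true_eq]
        constructor
        · rintro ⟨h4, h5⟩
          obtain ⟨i, rfl⟩ := hO2 q h4
          by_cases hi : i = El.root
          · rw [hi]
          · exact absurd h5 (hother i hi)
        · rintro rfl
          exact ⟨hO1 _, hroot⟩
      have hnd2 := hnd.filter (fun q => decide (q.2 = []))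
      generalize hF : O.filter (fun q => decide (q.2 = [])) = F at *
      match F, hmem, hnd2 with
      | [], hmem, _ => exact absurd ((hmem _).2 rfl) (by simp)
      | [q], hmem, _ => rw [(hmem q).1 (by simp)]
      | q :: q' :: t, hmem, hnd2 =>
        have e1 := (hmem q).1 (by simp)
        have e2 := (hmem q').1 (by simp)
        rw [e1, e2] at hnd2
        simp at hnd2
    unfold finalB
    rw [hf]
    simp only [lcase, Bool.or_eq_true, decide_eq_true_eq]
    by_cases hn : n = 1
    · subst hn
      exact ⟨fun _ => ⟨hG, spanner_one G⟩, fun _ => Or.inl rfl⟩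
    · have hn0 : n ≠ 0 := by
        rintro rfl
        obtain ⟨x⟩ := hG.nonempty
        exact x.elim0
      have : Nontrivial (Fin n) := Fin.nontrivial_iff_two_le.2 (by omega)
      have h4 := decide_spanner El hG (fix_sound hE El Sl hSl hO1 hO2)
        (fix_closed hE El Sl hSl hO1 hO2)
      rw [h4]
      simp only [hn, false_or, hG, true_and, List.any_eq_true, Bool.not_eq_true']
      constructor
      · rintro ⟨⟨x, y⟩, hxy, h5⟩
        obtain ⟨a, b, rfl, rfl, hadj⟩ := (hE _ _).1 hxy
        refine ⟨a, b, hadj, fun h6 => ?_⟩
        rw [← Bool.not_eq_true, memF_iff] at h5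
        exact h5 h6
      · rintro ⟨a, b, hadj, h5⟩
        refine ⟨(a.val, b.val), (hE _ _).2 ⟨a, b, rfl, rfl, hadj⟩, ?_⟩
        rw [← Bool.not_eq_true, memF_iff]
        exact h5
  · constructor
    · intro h4
      exfalso
      apply hG
      unfold finalB at h4
      have hmem : ∀ i : Fin n, Sl i = [] → (i.val, Sl i) ∈ O.filter (fun q => decide (q.2 = [])) := by
        intro i hi
        exact List.mem_filter.2 ⟨hO1 i, by simpa using hi⟩
      generalize hF : O.filter (fun q => decide (q.2 = [])) = F at *
      match F, hF, hmem, h4 with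
      | [], _, _, h4 => simp [lcase] at h4
      | q :: q' :: t, _, _, h4 => simp [lcase] at h4
      | [q], hF, hmem, _ =>
        have hq : q ∈ O.filter (fun q => decide (q.2 = [])) := by rw [hF]; simp
        obtain ⟨i0, hi0⟩ := hO2 q (List.mem_of_mem_filter hq)
        have hreach : ∀ m (i : Fin n), (Finset.univ.filter (fun j : Fin n => P.r i < P.r j)).card = m →
            G.Reachable i i0 := by
          intro m
          induction m using Nat.strong_induction_on with
          | _ m ih =>
            intro i hi
            by_cases h5 : Sl i = []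
            · have h6 := List.mem_singleton.1 (hmem i h5)
              rw [hi0] at h6
              have h7 : i = i0 := Fin.ext (congrArg Prod.fst h6)
              rw [h7]
            · obtain ⟨x, hx⟩ := List.exists_mem_of_ne_nil _ h5
              obtain ⟨j, _, hij, hlt⟩ := (h3 i x).1 hx
              have h8 : (Finset.univ.filter (fun k : Fin n => P.r j < P.r k)).card < m := by
                rw [← hi]
                apply Finset.card_lt_card
                rw [Finset.ssubset_iff_of_subset]
                · exact ⟨j, by simpa using hlt, by simp⟩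
                · intro k hk
                  simp only [Finset.mem_filter, Finset.mem_univ, true_and] at hk ⊢
                  omega
              exact hij.reachable.trans (ih _ h8 j rfl)
        have : Nonempty (Fin n) := ⟨i0⟩
        exact SimpleGraph.Connected.mk (fun x y => (hreach _ x rfl).trans (hreach _ y rfl).symm)
    · rintro ⟨h4, _⟩
      exact absurd h4 hG

/-- the program is correct -/
theorem answer_iff {n : ℕ} {G : SimpleGraph (Fin n)} {E : List (ℕ × ℕ)} (hE : Lists n G E) :
    answer n E = true ↔ Chordal G ∧ G.Connected ∧ ∃ T, IsSpanner3 G T := by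
  have hinv := inv_run (n := n) (lists_loop hE)
  unfold answer
  rw [Bool.and_eq_true, decide_eq_true_eq]
  constructor
  · rintro ⟨h1, h2⟩
    have h3 : elimRun n E = ([], (elimRun n E).2) := Prod.ext h1 rfl
    rw [h3] at hinv
    obtain ⟨P, _⟩ := peo_of_inv hE hinv
    exact ⟨P.chordal, (final_iff hE hinv).1 h2⟩
  · rintro ⟨h1, h2⟩
    have h1' := run_chordal hE h1
    have h3 : elimRun n E = ([], (elimRun n E).2) := Prod.ext h1' rfl
    rw [h3] at hinv
    exact ⟨h1', (final_iff hE hinv).2 h2⟩

end Pool.Agent.Helper58.T3
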