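import Pool.Agent.Helper58.T3.Glue

set_option autoImplicit false

namespace Pool.Agent.Helper58.T3

variable {V : Type}

/-- an edge of a tree defines a cut -/
lemma exists_cut {T : SimpleGraph V} (hT : T.IsAcyclic) {a b : V} (hab : T.Adj a b) :
    ∃ χ : V → Bool, ∀ p q, T.Adj p q → (χ p ≠ χ q ↔ s(p, q) = s(a, b)) := by
  classical
  have hbr := SimpleGraph.isAcyclic_iff_forall_adj_isBridge.1 hT hab
  rw [SimpleGraph.isBridge_iff] at hbr
  set D := T.deleteEdges {s(a, b)} with hD
  refine ⟨fun z => decide (D.Reachable a z), ?_⟩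
  intro p q hpq
  constructor
  · intro h
    by_contra hne
    apply h
    have hadj : D.Adj p q := by
      rw [hD, SimpleGraph.deleteEdges_adj]
      exact ⟨hpq, hne⟩
    rw [decide_eq_decide]
    exact ⟨fun h => h.trans hadj.reachable, fun h => h.trans hadj.symm.reachable⟩
  · intro h
    rw [Sym2.eq_iff] at h
    rcases h with ⟨h1, h2⟩ | ⟨h1, h2⟩ <;> subst h1 <;> subst h2 <;> simp [hbr]

/-- a walk from the side of `b` to the side of `a` goes through the edge `ba` -/
lemma dist_cut {T : SimpleGraph V} (hT : T.Connected) {a b : V} {χ : V → Bool}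
    (hχ : ∀ p q, T.Adj p q → (χ p ≠ χ q ↔ s(p, q) = s(a, b))) (hne : χ a ≠ χ b) {z x : V}
    (w : T.Walk z x) (hz : χ z = χ b) (hx : χ x = χ a) :
    T.dist z b + 1 + T.dist a x ≤ w.length := by
  induction w with
  | nil => rw [hz] at hx; exact absurd hx.symm hne
  | @cons z z' x h w ih =>
    rw [SimpleGraph.Walk.length_cons]
    by_cases hz' : χ z' = χ b
    · have h1 := ih hz' hx
      have h2 := hT.dist_triangle (u := z) (v := z') (w := b)
      have h3 : T.dist z z' = 1 := SimpleGraph.dist_eq_one_iff_adj.2 h
      omega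
    · have h1 : χ z ≠ χ z' := by rw [hz]; exact Ne.symm hz'
      have h2 := (hχ z z' h).1 h1
      rw [Sym2.eq_iff] at h2
      rcases h2 with ⟨h3, h4⟩ | ⟨h3, h4⟩
      · subst h3; exact absurd hz hne
      · subst h3; subst h4
        have h5 := SimpleGraph.dist_le w
        rw [SimpleGraph.dist_self]
        omega

/-- a set of vertices at pairwise distance at most three in a tree is contained in a double star -/
lemma exists_centre {T : SimpleGraph V} (hT : T.IsTree) [Nontrivial V] {K : Set V} {x0 : V}
    (hx0 : x0 ∈ K) (hK : ∀ x ∈ K, ∀ y ∈ K, T.dist x y ≤ 3) :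
    ∃ a b, T.Adj a b ∧ ∀ z ∈ K, T.dist z a ≤ 1 ∨ T.dist z b ≤ 1 := by
  have hc := hT.1
  by_cases h3 : ∃ x ∈ K, ∃ y ∈ K, T.dist x y = 3
  · obtain ⟨x, hx, y, hy, hxy⟩ := h3
    obtain ⟨p, hp⟩ := hc.exists_walk_length_eq_dist x y
    rw [hxy] at hp
    cases p with
    | nil => simp at hp
    | @cons _ a _ h1 p =>
      cases p with
      | nil => simp at hp
      | @cons _ b _ h2 p =>
        cases p with
        | nil => simp at hp
        | @cons _ y' _ h3 p =>
          cases p with
          | nil =>
            obtain ⟨χ, hχ⟩ := exists_cut hT.2 h2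
            have hab : χ a ≠ χ b := (hχ a b h2).2 rfl
            have hxa : T.dist a x = 1 := SimpleGraph.dist_eq_one_iff_adj.2 h1.symm
            have hyb : T.dist b y = 1 := SimpleGraph.dist_eq_one_iff_adj.2 h3
            have e1 : χ x = χ a := by
              by_contra hne
              have h4 := (hχ x a h1).1 hne
              rw [Sym2.eq_iff] at h4
              rcases h4 with ⟨h5, _⟩ | ⟨h5, _⟩
              · subst h5; exact h1.ne rfl
              · subst h5
                rw [SimpleGraph.dist_eq_one_iff_adj.2 h3] at hxy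
                omega
            have e2 : χ y = χ b := by
              by_contra hne
              have h4 := (hχ b y h3).1 (Ne.symm hne)
              rw [Sym2.eq_iff] at h4
              rcases h4 with ⟨_, h5⟩ | ⟨_, h5⟩
              · subst h5; exact h3.ne rfl
              · subst h5
                rw [SimpleGraph.dist_eq_one_iff_adj.2 h1] at hxy
                omega
            refine ⟨a, b, h2, fun z hz => ?_⟩
            by_cases hzb : χ z = χ b
            · right
              obtain ⟨w, hw⟩ := hc.exists_walk_length_eq_dist z x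
              have h4 := dist_cut hc hχ hab w hzb e1
              have h5 := hK z hz x hx
              omega
            · left
              have hza : χ z = χ a := by
                cases hh : χ z <;> cases ha : χ a <;> cases hb : χ b <;> simp_all
              obtain ⟨w, hw⟩ := hc.exists_walk_length_eq_dist z y
              have hχ' : ∀ p q, T.Adj p q → (χ p ≠ χ q ↔ s(p, q) = s(b, a)) := by
                intro p q h
                rw [hχ p q h, Sym2.eq_swap (a := a)]
              have h4 := dist_cut hc hχ' (Ne.symm hab) w hza e2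
              have h5 := hK z hz y hy
              omega
          | cons _ _ => simp at hp
  · have hK2 : ∀ x ∈ K, ∀ y ∈ K, T.dist x y ≤ 2 := by
      intro x hx y hy
      have h1 := hK x hx y hy
      have h2 : T.dist x y ≠ 3 := fun h => h3 ⟨x, hx, y, hy, h⟩
      omega
    by_cases h2 : ∃ x ∈ K, ∃ y ∈ K, T.dist x y = 2
    · obtain ⟨x, hx, y, hy, hxy⟩ := h2
      obtain ⟨p, hp⟩ := hc.exists_walk_length_eq_dist x y
      rw [hxy] at hp
      cases p with
      | nil => simp at hp
      | @cons _ a _ h1 p =>
        cases p with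
        | nil => simp at hp
        | @cons _ y' _ h2 p =>
          cases p with
          | nil =>
            obtain ⟨χ, hχ⟩ := exists_cut hT.2 h1
            have hxa : χ x ≠ χ a := (hχ x a h1).2 rfl
            have e1 : χ y = χ a := by
              by_contra hne
              have h4 := (hχ a y h2).1 (Ne.symm hne)
              rw [Sym2.eq_iff] at h4
              rcases h4 with ⟨_, h5⟩ | ⟨_, h5⟩
              · subst h5; exact h2.ne rfl
              · subst h5
                rw [SimpleGraph.dist_self] at hxy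
                omega
            refine ⟨a, y, h2, fun z hz => Or.inl ?_⟩
            by_cases hza : χ z = χ a
            · obtain ⟨w, hw⟩ := hc.exists_walk_length_eq_dist z x
              have h4 := dist_cut hc hχ hxa w hza rfl
              have h5 := hK2 z hz x hx
              rw [SimpleGraph.dist_self] at h4
              omega
            · have hzx : χ z = χ x := by
                cases hh : χ z <;> cases ha : χ a <;> cases hb : χ x <;> simp_all
              obtain ⟨w, hw⟩ := hc.exists_walk_length_eq_dist z y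
              have hχ' : ∀ p q, T.Adj p q → (χ p ≠ χ q ↔ s(p, q) = s(a, x)) := by
                intro p q h
                rw [hχ p q h, Sym2.eq_swap (a := x)]
              have h4 := dist_cut hc hχ' (Ne.symm hxa) w hzx e1
              have h5 := hK2 z hz y hy
              have h6 : T.dist a y = 1 := SimpleGraph.dist_eq_one_iff_adj.2 h2
              have h7 : T.dist z x = 0 := by omega
              rw [hc.dist_eq_zero_iff] at h7
              rw [h7]
              exact (SimpleGraph.dist_eq_one_iff_adj.2 h1).le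
          | cons _ _ => simp at hp
    · obtain ⟨b, hb⟩ := hc.preconnected.exists_adj_of_nontrivial x0
      refine ⟨x0, b, hb, fun z hz => Or.inl ?_⟩
      have h1 := hK2 z hz x0 hx0
      have h4 : T.dist z x0 ≠ 2 := fun h => h2 ⟨z, hz, x0, hx0, h⟩
      omega

variable [DecidableEq V]

lemma pv_of_cut {T : SimpleGraph V} {a b : V} {χ : V → Bool}
    (hχ : ∀ p q, T.Adj p q → (χ p ≠ χ q ↔ s(p, q) = s(a, b))) (σ : DS V) {x y : V}
    (hσ : T.Adj σ.a σ.b) (hx : σ.c x ≠ x → T.Adj x (σ.c x)) (hy : σ.c y ≠ y → T.Adj y (σ.c y)) :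
    σ.pv x y s(a, b) = xor (χ x) (χ y) := by
  have key : ∀ p q, (p ≠ q → T.Adj p q) → ev p q s(a, b) = xor (χ p) (χ q) := by
    intro p q h
    by_cases hpq : p = q
    · subst hpq; rw [ev_self]; simp
    · have h1 := hχ p q (h hpq)
      by_cases h2 : s(p, q) = s(a, b)
      · rw [ev_true.2 ⟨hpq, h2⟩]
        have h3 := h1.2 h2
        cases hp : χ p <;> cases hq : χ q <;> simp_all
      · have h3 : χ p = χ q := by
          by_contra h4; exact h2 (h1.1 h4)
        have h4 : ev p q s(a, b) = false := by
          rw [← Bool.not_eq_true, ev_true]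
          exact fun h5 => h2 h5.2
        rw [h4, h3]; simp
  unfold DS.pv
  rw [key x (σ.c x) (fun h => hx h.symm), key (σ.c x) (σ.c y) ?_, key (σ.c y) y ?_]
  · cases χ x <;> cases χ (σ.c x) <;> cases χ (σ.c y) <;> cases χ y <;> rfl
  · intro h
    exact (hy h).symm
  · intro h
    rcases σ.c_mem x with h1 | h1 <;> rcases σ.c_mem y with h2 | h2 <;> rw [h1, h2] at h ⊢
    · exact absurd rfl h
    · exact hσ
    · exact hσ.symm
    · exact absurd rfl h

lemma pv_not_edge {T : SimpleGraph V} {f : Sym2 V} (hf : f ∉ T.edgeSet) (σ : DS V) {x y : V}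
    (hσ : T.Adj σ.a σ.b) (hx : σ.c x ≠ x → T.Adj x (σ.c x)) (hy : σ.c y ≠ y → T.Adj y (σ.c y)) :
    σ.pv x y f = false := by
  rw [← Bool.not_eq_true]
  intro h
  apply hf
  rcases σ.pv_true h with ⟨h1, h2⟩ | ⟨h1, h2⟩ | ⟨h1, h2⟩ <;> subst h2
  · exact hx h1.symm
  · show T.Adj _ _
    rcases σ.c_mem x with h3 | h3 <;> rcases σ.c_mem y with h4 | h4 <;> rw [h3, h4] at h1 ⊢
    · exact absurd rfl h1
    · exact hσ
    · exact hσ.symm
    · exact absurd rfl h1
  · exact hy h1.symm

/-- a tree spanner gives local double stars that fit together -/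
theorem local_of_spanner {G T : SimpleGraph V} (h : IsSpanner3 G T) [Nontrivial V] (E : Elim G) :
    ∃ σ : V → DS V, (∀ i, (σ i).Valid G (E.K i)) ∧
      ∀ i, i ≠ E.root → Compat (E.S i) (σ i) (σ (E.p i)) := by
  classical
  obtain ⟨hTG, hT, hd⟩ := h
  have hex : ∀ i, ∃ a b, T.Adj a b ∧ ∀ z ∈ E.K i, T.dist z a ≤ 1 ∨ T.dist z b ≤ 1 := by
    intro i
    refine exists_centre hT (E.self_mem_K i) ?_
    intro x hx y hy
    by_cases hxy : x = y
    · subst hxy; simp
    · exact hd x y (E.K_clique hx hy hxy)
  choose A B hAB hz using hex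
  let σ : V → DS V := fun i => ⟨A i, B i, fun z => !decide (T.dist z (A i) ≤ 1)⟩
  have hadj : ∀ i, ∀ x ∈ E.K i, (σ i).c x ≠ x → T.Adj x ((σ i).c x) := by
    intro i x hx hne
    have hxa : x ≠ A i := fun h => hne (by rw [h]; exact (σ i).c_a)
    have hxb : x ≠ B i := fun h => hne (by rw [h]; exact (σ i).c_b)
    by_cases h1 : T.dist x (A i) ≤ 1
    · have h2 : (σ i).g x = false := by simp [σ, h1]
      rw [(σ i).c_false hxa hxb h2]
      show T.Adj x (A i)
      rw [← SimpleGraph.dist_eq_one_iff_adj]
      have h3 : T.dist x (A i) ≠ 0 := fun h => hxa (hT.1.dist_eq_zero_iff.1 h)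
      omega
    · have h2 : (σ i).g x = true := by simpa [σ] using h1
      rw [(σ i).c_true hxa hxb h2]
      show T.Adj x (B i)
      rw [← SimpleGraph.dist_eq_one_iff_adj]
      have h3 : T.dist x (B i) ≠ 0 := fun h => hxb (hT.1.dist_eq_zero_iff.1 h)
      have h4 := (hz i x hx).resolve_left h1
      omega
  refine ⟨σ, fun i => ⟨hTG (hAB i), fun x hx hne => hTG (hadj i x hx (Ne.symm hne))⟩, ?_⟩
  intro i hi x hx y hy
  have hx1 := hadj i x (E.S_sub_K hx)
  have hy1 := hadj i y (E.S_sub_K hy)
  have hx2 := hadj (E.p i) x (E.S_sub hx)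
  have hy2 := hadj (E.p i) y (E.S_sub hy)
  funext f
  by_cases hf : f ∈ T.edgeSet
  · induction f with
    | _ a b =>
      have hab : T.Adj a b := hf
      obtain ⟨χ, hχ⟩ := exists_cut hT.2 hab
      rw [pv_of_cut hχ (σ i) (hAB i) hx1 hy1, pv_of_cut hχ (σ (E.p i)) (hAB _) hx2 hy2]
  · rw [pv_not_edge hf (σ i) (hAB i) hx1 hy1, pv_not_edge hf (σ (E.p i)) (hAB _) hx2 hy2]

end Pool.Agent.Helper58.T3
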