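import Pool.Agent.Helper58.T3.Elim

set_option autoImplicit false

namespace Pool.Agent.Helper58.T3

open Relation

variable {V : Type} [DecidableEq V]

lemma DS.Valid.adj_of_pv {G : SimpleGraph V} {σ : DS V} {K : Set V} (h : σ.Valid G K) {x y u w : V}
    (hx : x ∈ K) (hy : y ∈ K) (hf : σ.pv x y s(u, w) = true) : G.Adj u w := by
  rcases σ.pv_true hf with ⟨h1, h2⟩ | ⟨h1, h2⟩ | ⟨h1, h2⟩ <;> rw [Sym2.eq_iff] at h2 <;>
    rcases h2 with ⟨h3, h4⟩ | ⟨h3, h4⟩ <;> subst h3 <;> subst h4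
  · exact h.2 _ hx h1
  · exact (h.2 _ hx h1).symm
  · exact h.adj_cc h1
  · exact (h.adj_cc h1).symm
  · exact h.2 _ hy h1
  · exact (h.2 _ hy h1).symm

section glue

variable {G : SimpleGraph V} (E : Elim G) (σ : V → DS V)

/-- the path between two adjacent vertices -/
noncomputable def pth (x y : V) (f : Sym2 V) : Bool := (σ (E.lo x y)).pv x y f

lemma pth_comm (x y : V) : pth E σ x y = pth E σ y x := by
  funext f
  unfold pth
  rw [E.lo_comm, DS.pv_comm]

/-- the tree -/
def glueTree : SimpleGraph V where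
  Adj x y := G.Adj x y ∧ ∀ f, pth E σ x y f = ev x y f
  symm := ⟨fun x y h => ⟨h.1.symm, fun f => by rw [pth_comm, h.2, ev_comm]⟩⟩
  loopless := ⟨fun x h => h.1.ne rfl⟩

variable (hv : ∀ i, (σ i).Valid G (E.K i))
  (hc : ∀ i, i ≠ E.root → Compat (E.S i) (σ i) (σ (E.p i)))

include hc in
lemma pv_eq_pth : ∀ i, ∀ x ∈ E.K i, ∀ y ∈ E.K i, x ≠ y → (σ i).pv x y = pth E σ x y := by
  apply E.desc (P := fun i => ∀ x ∈ E.K i, ∀ y ∈ E.K i, x ≠ y → (σ i).pv x y = pth E σ x y)
  intro i ih x hx y hy hxy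
  rcases hx with rfl | hx
  · unfold pth
    funext f
    rw [E.lo_left hy]
  · rcases hy with rfl | hy
    · rw [pth_comm]
      unfold pth
      funext f
      rw [E.lo_left (E.S_sub_K hx), DS.pv_comm]
    · have hi := E.ne_root_of_mem_S hx
      rw [hc i hi x hx y hy]
      exact ih _ (E.p_lt i hi) x (E.S_sub hx) y (E.S_sub hy) hxy

include hv hc in
lemma done {i x y u w : V} (hx : x ∈ E.K i) (hy : y ∈ E.K i) (hf : (σ i).pv x y s(u, w) = true)
    (hu : u ∈ E.K i) (hw : w ∈ E.K i) : (glueTree E σ).Adj u w := by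
  have hadj := (hv i).adj_of_pv hx hy hf
  refine ⟨hadj, fun f => ?_⟩
  rw [← pv_eq_pth E σ hc i u hu w hw hadj.ne, (σ i).pv_edge hf]

include hv hc in
lemma down : ∀ i, ∀ x ∈ E.K i, ∀ y ∈ E.K i, ∀ u w, (σ i).pv x y s(u, w) = true →
    (∃ z, (z = u ∨ z = w) ∧ z ∉ E.K i ∧ E.Anc z i) → (glueTree E σ).Adj u w := by
  apply E.asc (P := fun i => ∀ x ∈ E.K i, ∀ y ∈ E.K i, ∀ u w, (σ i).pv x y s(u, w) = true →
    (∃ z, (z = u ∨ z = w) ∧ z ∉ E.K i ∧ E.Anc z i) → (glueTree E σ).Adj u w)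
  intro i ih x hx y hy u w hf ⟨z, hz, hzK, hzi⟩
  have hne : z ≠ i := fun h => hzK (Or.inl h)
  obtain ⟨j, hj, hji, hzj⟩ := E.exists_child hzi hne
  have hlt : E.r j < E.r i := by rw [← hji]; exact E.p_lt j hj
  have hzf : z ∈ s(u, w) := Sym2.mem_iff.2 hz
  obtain ⟨x', hx', y', hy', hf'⟩ := DS.pv_step (hv i) (E.S j) {v | E.Anc v j} (by
      intro v hv hva
      have h1 := E.anc_le hva
      have h2 := E.le_of_mem_K hv
      omega) (by
      intro v hv t ht hadj
      have h1 := E.anc_le ht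
      have h2 := E.le_of_mem_K hv
      exact E.mem_S_of_anc (w := t) ⟨hadj.symm, by omega⟩ ht (by omega)) (by
      intro t ht b hb hadj
      have hne : E.r b ≠ E.r t := fun h2 => hadj.ne (E.r_inj h2)
      rcases lt_or_ge (E.r b) (E.r t) with h1 | h1
      · exact E.anc_trans (E.anc_of_adj b t hadj h1) ht
      · rcases lt_or_ge (E.r j) (E.r b) with h2 | h2
        · exfalso
          apply hb
          have h3 := E.mem_S_of_anc (w := t) ⟨hadj.symm, by omega⟩ ht h2
          rw [← hji]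
          exact E.S_sub h3
        · exact E.anc_linear (E.anc_of_adj t b hadj.symm (by omega)) ht h2) hx hy hf hzj hzf
  have hf2 : (σ j).pv x' y' s(u, w) = true := by
    rw [hc j hj x' hx' y' hy', hji]; exact hf'
  have hx2 := E.S_sub_K hx'
  have hy2 := E.S_sub_K hy'
  have hadj := (hv j).adj_of_pv hx2 hy2 hf2
  -- the other ends
  have other : ∀ z z' : V, E.Anc z j → z ∈ E.K j → z' ∉ E.K j → G.Adj z z' → E.Anc z' j := by
    intro z z' h1 h2 h3 h4
    have h5 := E.anc_le h1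
    have h6 : z = j := by
      rcases h2 with h7 | h7
      · exact h7
      · have := h7.2; omega
    subst h6
    have hne : E.r z ≠ E.r z' := fun h2 => h4.ne (E.r_inj h2)
    rcases lt_or_ge (E.r z) (E.r z') with h7 | h7
    · exact absurd (Or.inr ⟨h4, h7⟩) h3
    · exact E.anc_of_adj z' z h4.symm (by omega)
  by_cases hzj' : z ∈ E.K j
  · rcases hz with rfl | rfl
    · by_cases hw : w ∈ E.K j
      · exact done E σ hv hc hx2 hy2 hf2 hzj' hw
      · exact ih j hlt x' hx2 y' hy2 z w hf2 ⟨w, Or.inr rfl, hw, other z w hzj hzj' hw hadj⟩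
    · by_cases hu : u ∈ E.K j
      · exact done E σ hv hc hx2 hy2 hf2 hu hzj'
      · exact ih j hlt x' hx2 y' hy2 u z hf2 ⟨u, Or.inl rfl, hu, other z u hzj hzj' hu hadj.symm⟩
  · exact ih j hlt x' hx2 y' hy2 u w hf2 ⟨z, hz, hzj', hzj⟩

include hv hc in
lemma tree_edge : ∀ i, ∀ x ∈ E.K i, ∀ y ∈ E.K i, ∀ u w, (σ i).pv x y s(u, w) = true →
    (glueTree E σ).Adj u w := by
  apply E.desc (P := fun i => ∀ x ∈ E.K i, ∀ y ∈ E.K i, ∀ u w, (σ i).pv x y s(u, w) = true →
    (glueTree E σ).Adj u w)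
  intro i ih x hx y hy u w hf
  by_cases huw : u ∈ E.K i ∧ w ∈ E.K i
  · exact done E σ hv hc hx hy hf huw.1 huw.2
  · obtain ⟨z, hz, hzK⟩ : ∃ z, (z = u ∨ z = w) ∧ z ∉ E.K i := by
      by_cases hu : u ∈ E.K i
      · exact ⟨w, Or.inr rfl, fun hw => huw ⟨hu, hw⟩⟩
      · exact ⟨u, Or.inl rfl, hu⟩
    by_cases hzi : E.Anc z i
    · exact down E σ hv hc i x hx y hy u w hf ⟨z, hz, hzK, hzi⟩
    · have hi : i ≠ E.root := fun h => hzi (by rw [h]; exact E.anc_root z)
      have hzf : z ∈ s(u, w) := Sym2.mem_iff.2 hz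
      obtain ⟨x', hx', y', hy', hf'⟩ := DS.pv_step (hv i) (E.S i) {v | ¬ E.Anc v i ∧ v ∉ E.K i} (by
          intro v hv hva
          exact hva.2 hv) (by
          intro v hv t ht hadj
          rcases hv with rfl | hv
          · exfalso
            have hne : E.r v ≠ E.r t := fun h2 => hadj.ne (E.r_inj h2)
            rcases lt_or_ge (E.r v) (E.r t) with h1 | h1
            · exact ht.2 (Or.inr ⟨hadj, h1⟩)
            · exact ht.1 (E.anc_of_adj t v hadj.symm (by omega))
          · exact hv) (by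
          intro t ht b hb hadj
          refine ⟨fun hbi => ?_, hb⟩
          have hne : E.r b ≠ E.r t := fun h2 => hadj.ne (E.r_inj h2)
          rcases lt_or_ge (E.r b) (E.r t) with h1 | h1
          · rcases lt_or_ge (E.r i) (E.r t) with h2 | h2
            · exact ht.2 (Or.inr (E.mem_S_of_anc (w := b) ⟨hadj, h1⟩ hbi h2))
            · exact ht.1 (E.anc_linear (E.anc_of_adj b t hadj h1) hbi h2)
          · exact ht.1 (E.anc_trans (E.anc_of_adj t b hadj.symm (by omega)) hbi)) hx hy hf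
          ⟨hzi, hzK⟩ hzf
      rw [hc i hi x' hx' y' hy'] at hf'
      exact ih _ (E.p_lt i hi) x' (E.S_sub hx') y' (E.S_sub hy') u w hf'

include hv hc in
/-- local double stars that fit together give a tree spanner -/
theorem isSpanner3_glueTree (hG : G.Connected) : IsSpanner3 G (glueTree E σ) := by
  classical
  set T := glueTree E σ with hT
  have step1 : ∀ i x y, x ∈ E.K i → y ∈ E.K i → x ≠ y → ((σ i).c x = x ∨ T.Adj x ((σ i).c x)) ∧
      ((σ i).c x = (σ i).c y ∨ T.Adj ((σ i).c x) ((σ i).c y)) ∧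
      ((σ i).c y = y ∨ T.Adj ((σ i).c y) y) := by
    intro i x y hx hy hxy
    refine ⟨?_, ?_, ?_⟩
    · by_cases h : (σ i).c x = x
      · exact Or.inl h
      · exact Or.inr (tree_edge E σ hv hc i x hx y hy _ _ ((σ i).pv_first hxy (Ne.symm h)))
    · by_cases h : (σ i).c x = (σ i).c y
      · exact Or.inl h
      · exact Or.inr (tree_edge E σ hv hc i x hx y hy _ _ ((σ i).pv_middle h))
    · by_cases h : (σ i).c y = y
      · exact Or.inl h
      · exact Or.inr (tree_edge E σ hv hc i y hy x hx _ _ ((σ i).pv_first hxy.symm (Ne.symm h))).symm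
  have hreach1 : ∀ {x y : V}, (x = y ∨ T.Adj x y) → T.Reachable x y := by
    intro x y h
    rcases h with rfl | h
    · exact SimpleGraph.Reachable.refl _
    · exact h.reachable
  have hreach : ∀ x y, G.Adj x y → T.Reachable x y := by
    intro x y h
    obtain ⟨hx, hy⟩ := E.mem_K_lo h
    obtain ⟨h1, h2, h3⟩ := step1 _ x y hx hy h.ne
    have h1' : T.Reachable ((σ (E.lo x y)).c x) x := hreach1 (h1.imp id (fun h => h.symm))
    exact (h1'.symm.trans (hreach1 h2)).trans (hreach1 h3)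
  have hconn : T.Connected := by
    have := hG.nonempty
    refine ⟨?_⟩
    intro x y
    obtain ⟨p⟩ := hG.preconnected x y
    induction p with
    | nil => exact SimpleGraph.Reachable.refl _
    | cons h _ ih => exact (hreach _ _ h).trans ih
  have hdist1 : ∀ {x y : V}, (x = y ∨ T.Adj x y) → T.dist x y ≤ 1 := by
    intro x y h
    rcases h with rfl | h
    · simp
    · exact (SimpleGraph.dist_eq_one_iff_adj.2 h).le
  have hdist : ∀ x y, G.Adj x y → T.dist x y ≤ 3 := by
    intro x y h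
    obtain ⟨hx, hy⟩ := E.mem_K_lo h
    obtain ⟨h1, h2, h3⟩ := step1 _ x y hx hy h.ne
    have h1' : T.dist x ((σ (E.lo x y)).c x) ≤ 1 := hdist1 (h1.imp Eq.symm id)
    have h2' := hdist1 h2
    have h3' := hdist1 h3
    have h4 := hconn.dist_triangle (u := x) (v := (σ (E.lo x y)).c x) (w := y)
    have h5 := hconn.dist_triangle (u := (σ (E.lo x y)).c x) (v := (σ (E.lo x y)).c y) (w := y)
    omega
  refine ⟨fun x y h => h.1, ⟨hconn, ?_⟩, hdist⟩
  rw [SimpleGraph.isAcyclic_iff_forall_adj_isBridge]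
  intro u w huw
  rw [SimpleGraph.isBridge_iff]
  obtain ⟨χ, hχ⟩ := E.cocycle (fun x y => pth E σ x y s(u, w))
    (fun x y => by rw [pth_comm]) (by
      intro x y z hxy hyz hxz
      obtain ⟨i, hx, hy, hz⟩ := E.triangle_mem hxy hyz hxz
      rw [← pv_eq_pth E σ hc i x hx z hz hxz.ne, ← pv_eq_pth E σ hc i x hx y hy hxy.ne,
        ← pv_eq_pth E σ hc i y hy z hz hyz.ne]
      exact (σ i).pv_triangle x y z _)
  have hχT : ∀ x y, T.Adj x y → s(x, y) ≠ s(u, w) → χ x = χ y := by
    intro x y h hne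
    have h1 := hχ x y h.1
    rw [h.2] at h1
    have h2 : ev x y s(u, w) = false := by
      rw [← Bool.not_eq_true, ev_true]
      exact fun h3 => hne h3.2
    rw [h2] at h1
    cases hx : χ x <;> cases hy : χ y <;> rw [hx, hy] at h1 <;> simp_all
  have hχuw : χ u ≠ χ w := by
    have h1 := hχ u w huw.1
    rw [huw.2, (ev_true).2 ⟨huw.1.ne, rfl⟩] at h1
    intro h2
    rw [h2] at h1
    simp at h1
  rintro ⟨p⟩
  apply hχuw
  have : ∀ {x y : V}, (T.deleteEdges {s(u, w)}).Walk x y → χ x = χ y := by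
    intro x y q
    induction q with
    | nil => rfl
    | cons h _ ih =>
      rw [SimpleGraph.deleteEdges_adj] at h
      exact (hχT _ _ h.1 h.2).trans ih
  exact this p

end glue

end Pool.Agent.Helper58.T3
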