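import Pool.Agent.Helper58.T3.Program

set_option autoImplicit false

namespace Pool.Agent.Helper58.T3

open Pool.Agent.Helper58

lemma sz_sublist {α : Type} [Enc α] {l m : List α} (h : l.Sublist m) : sz l ≤ sz m := by
  induction h with
  | slnil => exact le_rfl
  | cons a _ ih => rw [sz_lcons]; omega
  | cons_cons a _ ih => rw [sz_lcons, sz_lcons]; omega

lemma sz_list_le {α : Type} [Enc α] {B : ℕ} : ∀ (l : List α), (∀ a ∈ l, sz a ≤ B) →
    sz l ≤ l.length * (B + 1) + 1
  | [], _ => by simp [sz_lnil]
  | a :: l, h => by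
    have h1 := sz_list_le l (fun x hx => h x (List.mem_cons_of_mem _ hx))
    have h2 := h a (List.mem_cons_self)
    rw [sz_lcons, List.length_cons]
    have : (l.length + 1) * (B + 1) = l.length * (B + 1) + (B + 1) := by ring
    omega

/-- the invariant of elimination that bounds the size -/
lemma elim_size (E : List (ℕ × ℕ)) (W0 : List ℕ) : ∀ (l : List ℕ) (s : List ℕ × List (ℕ × List ℕ)),
    s.1.Sublist W0 → (∀ q ∈ s.2, sz q ≤ 2 * sz W0 + 1) →
    (l.foldl (fun s _ => elimStep E s) s).1.Sublist W0 ∧
    (∀ q ∈ (l.foldl (fun s _ => elimStep E s) s).2, sz q ≤ 2 * sz W0 + 1) ∧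
    (l.foldl (fun s _ => elimStep E s) s).2.length ≤ s.2.length + l.length
  | [], s, h1, h2 => ⟨h1, h2, le_rfl⟩
  | x :: l, s, h1, h2 => by
    rw [List.foldl_cons]
    have h3 : (elimStep E s).1.Sublist W0 ∧ (∀ q ∈ (elimStep E s).2, sz q ≤ 2 * sz W0 + 1) ∧
        (elimStep E s).2.length ≤ s.2.length + 1 := by
      unfold elimStep
      cases h4 : s.1.filter (fun v => simpB E s.1 v) with
      | nil => exact ⟨h1, h2, Nat.le_succ _⟩
      | cons v t =>
        have hv : v ∈ s.1 := by
          have : v ∈ s.1.filter (fun v => simpB E s.1 v) := by rw [h4]; exact List.mem_cons_self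
          exact List.mem_of_mem_filter this
        refine ⟨(List.filter_sublist).trans h1, ?_, ?_⟩
        · intro q hq
          simp only [lcase, List.mem_append, List.mem_singleton] at hq
          rcases hq with hq | hq
          · exact h2 q hq
          · subst hq
            rw [sz_pair]
            have h5 := sz_mem_le W0 v (h1.subset hv)
            have h6 : sz (nb E s.1 v) ≤ sz W0 := sz_sublist ((List.filter_sublist).trans h1)
            omega
        · simp [lcase]
    obtain ⟨h5, h6, h7⟩ := elim_size E W0 l (elimStep E s) h3.1 h3.2.1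
    refine ⟨h5, h6, ?_⟩
    rw [List.length_cons]
    have := h3.2.2
    omega

section ptf

variable {γ : Type} [Enc γ]

theorem ptf_elimRun {n : γ → ℕ} {E : γ → List (ℕ × ℕ)} (hn : PTf n) (hE : PTf E) :
    PTf (fun c => elimRun (n c) (E c)) := by
  have h0 : PTf (fun c => List.range (n c)) := by fun_prop
  have h1 : PTf (fun c => ((List.range (n c), []) : List ℕ × List (ℕ × List ℕ))) := by fun_prop
  refine PTf.foldl (step := fun c s _ => elimStep (E c) s)
    (B := fun c => sz (List.range (n c)) +
      (sz (List.range (n c)) * (2 * sz (List.range (n c)) + 1 + 1) + 1) + 1) h0 h1 ?_ ?_ ?_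
  · have h2 : PTf (fun p : γ × ((List ℕ × List (ℕ × List ℕ)) × ℕ) => E p.1) := by fun_prop
    have h3 : PTf (fun p : γ × ((List ℕ × List (ℕ × List ℕ)) × ℕ) => p.2.1) := by fun_prop
    exact ptf_elimStep h2 h3
  · have h2 := h0.sz_le
    exact (h2.add ((h2.mul ((((PB.const 2).mul h2).add (PB.const 1)).add (PB.const 1))).add
      (PB.const 1))).add (PB.const 1)
  · intro c i
    obtain ⟨h2, h3, h4⟩ := elim_size (E c) (List.range (n c)) ((List.range (n c)).take i)
      (List.range (n c), []) (List.Sublist.refl _) (by simp)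
    rw [sz_prod]
    have h5 := sz_sublist h2
    have h6 := sz_list_le _ h3
    simp only [List.length_nil, Nat.zero_add] at h4
    have h7 : ((List.range (n c)).take i).length ≤ sz (List.range (n c)) := by
      have h8 := length_lt_sz (List.range (n c))
      have h9 : ((List.range (n c)).take i).length ≤ (List.range (n c)).length := by
        rw [List.length_take]; exact Nat.min_le_right _ _
      omega
    have h8 := Nat.mul_le_mul_right (2 * sz (List.range (n c)) + 1 + 1) (h4.trans h7)
    omega

attribute [fun_prop] ptf_elimRun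

lemma fix_sublist (Vs : List ℕ) (E : List (ℕ × ℕ)) (O : List (ℕ × List ℕ)) (C : List Fact) :
    ∀ (l : List Fact) (F : List Fact), F.Sublist C →
    (l.foldl (fun F _ => C.filter (fun c => ruleB Vs E O F c)) F).Sublist C
  | [], _, h => h
  | _ :: l, _, _ => fix_sublist Vs E O C l _ List.filter_sublist

theorem ptf_fixF {Vs : γ → List ℕ} {E : γ → List (ℕ × ℕ)} {O : γ → List (ℕ × List ℕ)}
    (hV : PTf Vs) (hE : PTf E) (hO : PTf O) : PTf (fun c => fixF (Vs c) (E c) (O c)) := by
  have h0 : PTf (fun c => cands (E c) (O c)) := by fun_prop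
  have h1 : PTf (fun _ : γ => ([] : List Fact)) := by fun_prop
  refine PTf.foldl (step := fun c F _ => (cands (E c) (O c)).filter
    (fun x => ruleB (Vs c) (E c) (O c) F x)) (B := fun c => sz (cands (E c) (O c))) h0 h1 ?_ ?_ ?_
  · have h2 : PTf (fun p : γ × (List Fact × Fact) => cands (E p.1) (O p.1)) := by fun_prop
    have h3 : PTf (fun p : (γ × (List Fact × Fact)) × Fact =>
        ruleB (Vs p.1.1) (E p.1.1) (O p.1.1) p.1.2.1 p.2) := by fun_prop
    exact PTf.filter h2 h3
  · exact h0.sz_le
  · intro c i
    exact sz_sublist (fix_sublist _ _ _ _ _ _ (List.nil_sublist _))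

attribute [fun_prop] ptf_fixF

theorem ptf_finalB {n : γ → ℕ} {E : γ → List (ℕ × ℕ)} {O : γ → List (ℕ × List ℕ)}
    (hn : PTf n) (hE : PTf E) (hO : PTf O) : PTf (fun c => finalB (n c) (E c) (O c)) := by
  unfold finalB; fun_prop

attribute [fun_prop] ptf_finalB

theorem ptf_answer {n : γ → ℕ} {E : γ → List (ℕ × ℕ)} (hn : PTf n) (hE : PTf E) :
    PTf (fun c => answer (n c) (E c)) := by
  unfold answer; fun_prop

end ptf

end Pool.Agent.Helper58.T3
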