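import Pool.Agent.Helper58.T3.Final
import Pool.Agent.Helper58.T3.ProgramPTf
import Pool.Agent.Helper58.Equiv

set_option autoImplicit false

namespace Pool.Agent.Helper58.T3

open Pool.Agent.Helper58 Function

/-! ### the two forms of the spanner condition -/

lemma hasTree3Spanner_iff {V : Type} {G : SimpleGraph V} :
    HasTree3Spanner G ↔ ∃ T, IsSpanner3 G T := by
  constructor
  · rintro ⟨T, h1, h2, h3⟩
    refine ⟨T, h1, h2, fun x y hxy => ?_⟩
    have h4 := h3 x y
    rw [SimpleGraph.dist_eq_one_iff_adj.2 hxy] at h4
    exact h4
  · rintro ⟨T, h1, h2, h3⟩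
    refine ⟨T, h1, h2, fun x y => ?_⟩
    have hT : T.Connected := h2.1
    have hG : G.Connected := hT.mono h1
    have key : ∀ (x y : V) (w : G.Walk x y), T.dist x y ≤ 3 * w.length := by
      intro x y w
      induction w with
      | nil => simp
      | @cons a b c h w ih =>
        have h4 := hT.dist_triangle (u := a) (v := b) (w := c)
        have h5 := h3 a b h
        rw [SimpleGraph.Walk.length_cons]
        omega
    obtain ⟨w, hw⟩ := hG.exists_walk_length_eq_dist x y
    rw [← hw]
    exact key x y w

/-! ### zip -/

section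

variable {α β γ : Type} [Enc α] [Enc β] [Enc γ]

lemma sz_zip (l : List α) (m : List β) : sz (l.zip m) ≤ sz l + sz m := by
  induction l generalizing m with
  | nil => simp [sz_lnil]
  | cons a l ih =>
    cases m with
    | nil => simp [sz_lnil]
    | cons b m =>
      rw [List.zip_cons_cons, sz_lcons, sz_lcons, sz_lcons, sz_pair]
      have := ih m
      omega

/-- step of the zip computation -/
def zipSt (s : List (α × β) × List β) (a : α) : List (α × β) × List β :=
  lcase s.2 (s.1, []) (fun b t => (s.1 ++ [(a, b)], t))

omit [Enc α] [Enc β] in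
lemma foldl_zipSt (l : List α) (m : List β) (acc : List (α × β)) :
    l.foldl zipSt (acc, m) = (acc ++ l.zip m, m.drop l.length) := by
  induction l generalizing m acc with
  | nil => simp
  | cons a l ih =>
    rw [List.foldl_cons]
    cases m with
    | nil => simp [zipSt, lcase, ih]
    | cons b m => simp [zipSt, lcase, ih]

@[fun_prop] theorem ptf_zip {l : γ → List α} {m : γ → List β} (hl : PTf l) (hm : PTf m) :
    PTf (fun x => (l x).zip (m x)) := by
  have := PTf.foldl (step := fun _ s a => zipSt s a) (init := fun x => (([] : List (α × β)), m x))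
    (B := fun x => sz (l x) + sz (m x) + sz (m x) + 1) hl (by fun_prop)
    (by unfold zipSt; fun_prop)
    (((hl.sz_le.add hm.sz_le).add hm.sz_le).add (PB.const 1)) (by
      intro x i
      rw [foldl_zipSt, sz_pair, List.nil_append]
      have h1 := sz_zip ((l x).take i) (m x)
      have h2 := sz_take_le (l x) i
      have h3 := sz_drop_le (m x) ((l x).take i).length
      omega)
  exact (PTf.fst this).congr (fun x => by rw [foldl_zipSt]; simp)

end

/-! ### decoding -/

/-- all pairs of numbers below `n`, row by row -/
def pairsL (n : ℕ) : List (ℕ × ℕ) := (List.range n).flatMap (fun i => (List.range n).map (fun j => (i, j)))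

/-- the number of vertices -/
def recN (l : List Bool) : ℕ :=
  lcase ((List.range (l.length + 1)).filter (fun k => decide ((pairsL k).length = l.length))) 0
    (fun k _ => k)

/-- the list of edges -/
def recE (n : ℕ) (l : List Bool) : List (ℕ × ℕ) :=
  (((pairsL n).zip l).filter (fun p => p.2)).map (fun p => p.1)

/-- the decision program, on adjacency matrices -/
def decideBits (l : List Bool) : Bool := answer (recN l) (recE (recN l) l)

section

variable {γ : Type} [Enc γ]

@[fun_prop] theorem ptf_pairsL {n : γ → ℕ} (hn : PTf n) : PTf (fun c => pairsL (n c)) := by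
  unfold pairsL; fun_prop

@[fun_prop] theorem ptf_recN {l : γ → List Bool} (hl : PTf l) : PTf (fun c => recN (l c)) := by
  unfold recN; fun_prop

@[fun_prop] theorem ptf_recE {n : γ → ℕ} {l : γ → List Bool} (hn : PTf n) (hl : PTf l) :
    PTf (fun c => recE (n c) (l c)) := by
  unfold recE; fun_prop

theorem ptf_decideBits {l : γ → List Bool} (hl : PTf l) : PTf (fun c => decideBits (l c)) := by
  unfold decideBits
  exact ptf_answer (by fun_prop) (by fun_prop)

end

lemma length_pairsL (n : ℕ) : (pairsL n).length = n * n := by
  simp [pairsL]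

/-- all pairs of vertices, row by row -/
def pairsF (n : ℕ) : List (Fin n × Fin n) :=
  (List.finRange n).flatMap (fun i => (List.finRange n).map (fun j => (i, j)))

lemma mem_pairsF {n : ℕ} (p : Fin n × Fin n) : p ∈ pairsF n := by
  simp [pairsF]

lemma pairsL_eq (n : ℕ) : pairsL n = (pairsF n).map (fun p => (p.1.val, p.2.val)) := by
  unfold pairsL pairsF
  rw [List.map_flatMap, ← List.map_coe_finRange_eq_range, List.flatMap_map]
  congr 1
  funext i
  rw [List.map_map, List.map_map]
  rfl

open Classical in
lemma adjBits_eq (G : FinGraph) :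
    adjBits G = (pairsF G.1).map (fun p => decide (G.2.Adj p.1 p.2)) := by
  unfold adjBits pairsF
  rw [List.map_flatMap]
  congr 1
  funext i
  rw [List.map_map]
  rfl

lemma length_adjBits (G : FinGraph) : (adjBits G).length = G.1 * G.1 := by
  rw [← length_pairsL, pairsL_eq, adjBits_eq, List.length_map, List.length_map]

lemma adjBits_injective : Injective adjBits := by
  rintro ⟨n, G⟩ ⟨m, H⟩ h
  have h1 : n * n = m * m := by
    have := congrArg List.length h
    rwa [length_adjBits, length_adjBits] at this
  have h2 : n = m := Nat.mul_self_inj.1 h1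
  subst h2
  rw [adjBits_eq, adjBits_eq] at h
  simp only at h
  rw [List.map_inj_left] at h
  have h3 : G = H := by
    ext x y
    have := h (x, y) (mem_pairsF _)
    simpa using this
  rw [h3]

lemma recN_adjBits (G : FinGraph) : recN (adjBits G) = G.1 := by
  unfold recN
  rw [length_adjBits]
  have hmem : ∀ k, k ∈ (List.range (G.1 * G.1 + 1)).filter
      (fun k => decide ((pairsL k).length = G.1 * G.1)) ↔ k = G.1 := by
    intro k
    rw [List.mem_filter, List.mem_range, decide_eq_true_eq, length_pairsL]
    constructor
    · rintro ⟨_, h⟩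
      exact Nat.mul_self_inj.1 h
    · rintro rfl
      exact ⟨Nat.lt_succ_of_le (Nat.le_mul_self _), rfl⟩
  generalize (List.range (G.1 * G.1 + 1)).filter
      (fun k => decide ((pairsL k).length = G.1 * G.1)) = L at hmem
  cases L with
  | nil => exact absurd ((hmem _).2 rfl) (by simp)
  | cons k t => exact (hmem k).1 (by simp)

lemma lists_recE (G : FinGraph) : Lists G.1 G.2 (recE G.1 (adjBits G)) := by
  classical
  intro x y
  unfold recE
  rw [pairsL_eq, adjBits_eq, List.zip_map']
  simp only [List.mem_map, List.mem_filter, Prod.exists]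
  constructor
  · rintro ⟨a, b, c, ⟨⟨i, j, _, h2⟩, h3⟩, h4⟩
    simp only [Prod.mk.injEq] at h2 h4
    obtain ⟨⟨h5, h6⟩, h7⟩ := h2
    obtain ⟨h8, h9⟩ := h4
    rw [← h7] at h3
    exact ⟨i, j, h5.trans h8, h6.trans h9, by simpa using h3⟩
  · rintro ⟨i, j, rfl, rfl, h⟩
    exact ⟨i.val, j.val, true, ⟨⟨i, j, mem_pairsF _, by simp [h]⟩, rfl⟩, rfl⟩

theorem decideBits_iff (G : FinGraph) :
    decideBits (adjBits G) = true ↔ Chordal G.2 ∧ G.2.Connected ∧ HasTree3Spanner G.2 := by
  unfold decideBits
  rw [recN_adjBits, answer_iff (lists_recE G), hasTree3Spanner_iff]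

open Classical in
/-- TREE 3-SPANNER is polynomial on chordal graphs -/
theorem main : PolyTime adjBits (fun b : Bool => [b])
    (fun G : FinGraph => decide (Chordal G.2 ∧ G.2.Connected ∧ HasTree3Spanner G.2)) := by
  have hinj : Injective (fun G : FinGraph => (adjBits G).map (fun b => (b, false))) := by
    intro G H h
    refine adjBits_injective (List.map_injective_iff.2 ?_ h)
    intro a b hab
    exact congrArg Prod.fst hab
  refine polyTime_of_ptf adjBits (fun b => (b, false)) hinj (fun b => [b]) ?_
  have h1 : PTf (fun x : Coded (fun G : FinGraph => (adjBits G).map (fun b => (b, false))) hinj =>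
      (adjBits x.val).map (fun b => (b, false))) := PTf.of_enc_eq (fun _ => rfl)
  have h2 : PTf (fun x : Coded (fun G : FinGraph => (adjBits G).map (fun b => (b, false))) hinj =>
      ((adjBits x.val).map (fun b => (b, false))).map Prod.fst) := by
    refine PTf.map h1 ?_
    exact PTf.fst (PTf.snd PTf.id)
  have h3 : PTf (fun x : Coded (fun G : FinGraph => (adjBits G).map (fun b => (b, false))) hinj =>
      [decideBits (((adjBits x.val).map (fun b => (b, false))).map Prod.fst)]) :=
    PTf.cons (ptf_decideBits h2) (PTf.const _)
  refine h3.congr (fun x => ?_)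
  have h4 : ((adjBits x.val).map (fun b => (b, false))).map Prod.fst = adjBits x.val := by
    rw [List.map_map]
    exact List.map_id _
  rw [h4]
  congr 1
  rw [Bool.eq_iff_iff, decide_eq_true_eq, decideBits_iff]

end Pool.Agent.Helper58.T3
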