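import Pool.Agent.Helper58.PolyLib

set_option autoImplicit false

namespace Pool.Agent.Helper58.T3

open Pool.Agent.Helper58

/-! ### the decision program, on lists -/

/-- membership in a list of pairs -/
def adjB (E : List (ℕ × ℕ)) (x y : ℕ) : Bool := E.any (fun e => decide (e = (x, y)))

/-- neighbours of `v` in `W` -/
def nb (E : List (ℕ × ℕ)) (W : List ℕ) (v : ℕ) : List ℕ := W.filter (fun x => adjB E v x)

/-- `v` is simplicial in `W` -/
def simpB (E : List (ℕ × ℕ)) (W : List ℕ) (v : ℕ) : Bool :=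
  (nb E W v).all (fun x => (nb E W v).all (fun y => decide (x = y) || adjB E x y))

/-- eliminate one simplicial vertex -/
def elimStep (E : List (ℕ × ℕ)) (s : List ℕ × List (ℕ × List ℕ)) : List ℕ × List (ℕ × List ℕ) :=
  lcase (s.1.filter (fun v => simpB E s.1 v)) s
    (fun v _ => (s.1.filter (fun x => !decide (x = v)), s.2 ++ [(v, nb E s.1 v)]))

/-- eliminate simplicial vertices as long as possible -/
def elimRun (n : ℕ) (E : List (ℕ × ℕ)) : List ℕ × List (ℕ × List ℕ) :=
  (List.range n).foldl (fun s _ => elimStep E s) (List.range n, [])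

/-- facts: a bag `(i, S)`, two centres `(a, b)`, an implication `(u, v)` -/
abbrev Fact := (ℕ × List ℕ) × ((ℕ × ℕ) × (ℕ × ℕ))

/-- codes of nodes: `0` for true, `1` for false, `x + 2` for the vertex `x` -/
def nodes (L : List ℕ) (a b : ℕ) : List ℕ :=
  0 :: 1 :: (L.filter (fun x => !decide (x = a) && !decide (x = b))).map (fun x => x + 2)

def memF (F : List Fact) (c : Fact) : Bool := F.any (fun f => decide (f = c))
def memL (L : List ℕ) (c : ℕ) : Bool := L.any (fun f => decide (f = c))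

def bx (x y : Bool) : Bool := bif x then !y else y

def cB (a b x : ℕ) : ℕ := bif (decide (x = a) || decide (x = b)) then x else a
def evB (x y p q : ℕ) : Bool := !decide (x = y) && (decide ((x, y) = (p, q)) || decide ((y, x) = (p, q)))
def pvB (a b x y p q : ℕ) : Bool :=
  bx (evB x (cB a b x) p q) (bx (evB (cB a b x) (cB a b y) p q) (evB (cB a b y) y p q))

def compatB (Vs S : List ℕ) (a' b' a b : ℕ) : Bool :=
  S.all (fun x => S.all (fun y => Vs.all (fun p => Vs.all (fun q =>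
    decide (pvB a' b' x y p q = pvB a b x y p q)))))

def blockedB (F : List Fact) (q : ℕ × List ℕ) (a b : ℕ) : Bool :=
  (nodes q.2 a b).any (fun v => !decide (v = 0) && memF F (q, ((a, b), (0, v))))

def noStarB (Vs : List ℕ) (E : List (ℕ × ℕ)) (F : List Fact) (q : ℕ × List ℕ) (a b : ℕ) : Bool :=
  E.all (fun e => blockedB F q e.1 e.2 || !compatB Vs q.2 e.1 e.2 a b)

def rmB (Vs : List ℕ) (E : List (ℕ × ℕ)) (F : List Fact) (q : ℕ × List ℕ) (a b u v : ℕ) : Bool :=
  memF F (q, ((a, b), (u, v))) &&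
    ((!decide (u = 0) || (decide (v = 0) || noStarB Vs E F q a b)) &&
    (!decide (v = 1) || (decide (u = 1) || noStarB Vs E F q b a)))

def childB (q' q : ℕ × List ℕ) : Bool := memL q'.2 q.1 && q'.2.all (fun x => memL (q.1 :: q.2) x)

def ruleB (Vs : List ℕ) (E : List (ℕ × ℕ)) (O : List (ℕ × List ℕ)) (F : List Fact) (c : Fact) : Bool :=
  decide (c.2.2.1 = 1) || (decide (c.2.2.2 = 0) || (decide (c.2.2.1 = c.2.2.2) ||
  ((decide (c.2.2.2 = 1) && (c.1.1 :: c.1.2).any (fun x => decide (c.2.2.1 = x + 2) && !adjB E x c.2.1.2)) ||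
  ((decide (c.2.2.1 = 0) && (c.1.1 :: c.1.2).any (fun x => decide (c.2.2.2 = x + 2) && !adjB E x c.2.1.1)) ||
  ((nodes (c.1.1 :: c.1.2) c.2.1.1 c.2.1.2).any (fun w =>
    memF F (c.1, ((c.2.1.1, c.2.1.2), (c.2.2.1, w))) && memF F (c.1, ((c.2.1.1, c.2.1.2), (w, c.2.2.2)))) ||
  O.any (fun q => childB q c.1 && (memL (nodes q.2 c.2.1.1 c.2.1.2) c.2.2.1 &&
    (memL (nodes q.2 c.2.1.1 c.2.1.2) c.2.2.2 &&
      rmB Vs E F q c.2.1.1 c.2.1.2 c.2.2.1 c.2.2.2))))))))

def cands (E : List (ℕ × ℕ)) (O : List (ℕ × List ℕ)) : List Fact :=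
  O.flatMap (fun q => E.flatMap (fun e => (nodes (q.1 :: q.2) e.1 e.2).flatMap (fun u =>
    (nodes (q.1 :: q.2) e.1 e.2).map (fun v => (q, (e, (u, v)))))))

def fixF (Vs : List ℕ) (E : List (ℕ × ℕ)) (O : List (ℕ × List ℕ)) : List Fact :=
  (cands E O).foldl (fun F _ => (cands E O).filter (fun c => ruleB Vs E O F c)) []

/-- the final test, for an elimination order `O` -/
def finalB (n : ℕ) (E : List (ℕ × ℕ)) (O : List (ℕ × List ℕ)) : Bool :=
  lcase (O.filter (fun q => decide (q.2 = []))) false (fun q t => lcase t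
    (decide (n = 1) || E.any (fun e => !memF (fixF (List.range n) E O) (q, (e, (0, 1)))))
    (fun _ _ => false))

/-- the decision program -/
def answer (n : ℕ) (E : List (ℕ × ℕ)) : Bool :=
  decide ((elimRun n E).1 = []) && finalB n E (elimRun n E).2

/-! ### polynomial time -/

section ptf

variable {γ : Type} [Enc γ]

theorem ptf_adjB {E : γ → List (ℕ × ℕ)} {x y : γ → ℕ} (hE : PTf E) (hx : PTf x) (hy : PTf y) :
    PTf (fun c => adjB (E c) (x c) (y c)) := by
  unfold adjB; fun_prop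

attribute [fun_prop] ptf_adjB

theorem ptf_nb {E : γ → List (ℕ × ℕ)} {W : γ → List ℕ} {v : γ → ℕ} (hE : PTf E) (hW : PTf W)
    (hv : PTf v) : PTf (fun c => nb (E c) (W c) (v c)) := by
  unfold nb; fun_prop

attribute [fun_prop] ptf_nb

theorem ptf_simpB {E : γ → List (ℕ × ℕ)} {W : γ → List ℕ} {v : γ → ℕ} (hE : PTf E) (hW : PTf W)
    (hv : PTf v) : PTf (fun c => simpB (E c) (W c) (v c)) := by
  unfold simpB; fun_prop

attribute [fun_prop] ptf_simpB

theorem ptf_elimStep {E : γ → List (ℕ × ℕ)} {s : γ → List ℕ × List (ℕ × List ℕ)} (hE : PTf E)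
    (hs : PTf s) : PTf (fun c => elimStep (E c) (s c)) := by
  unfold elimStep; fun_prop

attribute [fun_prop] ptf_elimStep

theorem ptf_nodes {L : γ → List ℕ} {a b : γ → ℕ} (hL : PTf L) (ha : PTf a) (hb : PTf b) :
    PTf (fun c => nodes (L c) (a c) (b c)) := by
  unfold nodes; fun_prop

attribute [fun_prop] ptf_nodes

theorem ptf_memF {F : γ → List Fact} {x : γ → Fact} (hF : PTf F) (hx : PTf x) :
    PTf (fun c => memF (F c) (x c)) := by
  unfold memF; fun_prop

attribute [fun_prop] ptf_memF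

theorem ptf_memL {F : γ → List ℕ} {x : γ → ℕ} (hF : PTf F) (hx : PTf x) :
    PTf (fun c => memL (F c) (x c)) := by
  unfold memL; fun_prop

attribute [fun_prop] ptf_memL

theorem ptf_bx {x y : γ → Bool} (hx : PTf x) (hy : PTf y) : PTf (fun c => bx (x c) (y c)) := by
  unfold bx; fun_prop

attribute [fun_prop] ptf_bx

theorem ptf_cB {a b x : γ → ℕ} (ha : PTf a) (hb : PTf b) (hx : PTf x) :
    PTf (fun c => cB (a c) (b c) (x c)) := by
  unfold cB; fun_prop

attribute [fun_prop] ptf_cB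

theorem ptf_evB {x y p q : γ → ℕ} (hx : PTf x) (hy : PTf y) (hp : PTf p) (hq : PTf q) :
    PTf (fun c => evB (x c) (y c) (p c) (q c)) := by
  unfold evB; fun_prop

attribute [fun_prop] ptf_evB

theorem ptf_pvB {a b x y p q : γ → ℕ} (ha : PTf a) (hb : PTf b) (hx : PTf x) (hy : PTf y)
    (hp : PTf p) (hq : PTf q) : PTf (fun c => pvB (a c) (b c) (x c) (y c) (p c) (q c)) := by
  unfold pvB; fun_prop

attribute [fun_prop] ptf_pvB

theorem ptf_compatB {Vs S : γ → List ℕ} {a' b' a b : γ → ℕ} (hV : PTf Vs) (hS : PTf S)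
    (ha' : PTf a') (hb' : PTf b') (ha : PTf a) (hb : PTf b) :
    PTf (fun c => compatB (Vs c) (S c) (a' c) (b' c) (a c) (b c)) := by
  unfold compatB; fun_prop

attribute [fun_prop] ptf_compatB

theorem ptf_blockedB {F : γ → List Fact} {q : γ → ℕ × List ℕ} {a b : γ → ℕ} (hF : PTf F)
    (hq : PTf q) (ha : PTf a) (hb : PTf b) : PTf (fun c => blockedB (F c) (q c) (a c) (b c)) := by
  unfold blockedB; fun_prop

attribute [fun_prop] ptf_blockedB

theorem ptf_noStarB {Vs : γ → List ℕ} {E : γ → List (ℕ × ℕ)} {F : γ → List Fact}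
    {q : γ → ℕ × List ℕ} {a b : γ → ℕ} (hV : PTf Vs) (hE : PTf E) (hF : PTf F)
    (hq : PTf q) (ha : PTf a) (hb : PTf b) :
    PTf (fun c => noStarB (Vs c) (E c) (F c) (q c) (a c) (b c)) := by
  unfold noStarB; fun_prop

attribute [fun_prop] ptf_noStarB

theorem ptf_rmB {Vs : γ → List ℕ} {E : γ → List (ℕ × ℕ)} {F : γ → List Fact}
    {q : γ → ℕ × List ℕ} {a b u v : γ → ℕ} (hV : PTf Vs) (hE : PTf E) (hF : PTf F)
    (hq : PTf q) (ha : PTf a) (hb : PTf b) (hu : PTf u) (hv : PTf v) :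
    PTf (fun c => rmB (Vs c) (E c) (F c) (q c) (a c) (b c) (u c) (v c)) := by
  unfold rmB; fun_prop

attribute [fun_prop] ptf_rmB

theorem ptf_childB {q' q : γ → ℕ × List ℕ} (hq' : PTf q') (hq : PTf q) :
    PTf (fun c => childB (q' c) (q c)) := by
  unfold childB; fun_prop

attribute [fun_prop] ptf_childB

theorem ptf_ruleB {Vs : γ → List ℕ} {E : γ → List (ℕ × ℕ)} {O : γ → List (ℕ × List ℕ)}
    {F : γ → List Fact} {f : γ → Fact} (hV : PTf Vs) (hE : PTf E) (hO : PTf O) (hF : PTf F)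
    (hf : PTf f) : PTf (fun c => ruleB (Vs c) (E c) (O c) (F c) (f c)) := by
  unfold ruleB; fun_prop

attribute [fun_prop] ptf_ruleB

theorem ptf_cands {E : γ → List (ℕ × ℕ)} {O : γ → List (ℕ × List ℕ)} (hE : PTf E) (hO : PTf O) :
    PTf (fun c => cands (E c) (O c)) := by
  unfold cands; fun_prop

attribute [fun_prop] ptf_cands

end ptf

end Pool.Agent.Helper58.T3
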