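import Pool.Agent.Helper58.T3.Ext

set_option autoImplicit false

namespace Pool.Agent.Helper58.T3

variable {V : Type}

/-- nodes of the implication graphs: `none` is the constant true, `some none` the constant false -/
abbrev Node (V : Type) := Option (Option V)

namespace Node
def top : Node V := none
def bot : Node V := some none
def vtx (x : V) : Node V := some (some x)
end Node

open Node

/-- value of a node -/
def val (g : V → Bool) : Node V → Bool
  | none => true
  | some none => false
  | some (some x) => g x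

@[simp] lemma val_top (g : V → Bool) : val g top = true := rfl
@[simp] lemma val_bot (g : V → Bool) : val g bot = false := rfl
@[simp] lemma val_vtx (g : V → Bool) (x : V) : val g (vtx x) = g x := rfl

/-- nodes over a set -/
def InN (D : V → Prop) (u : Node V) : Prop := u = top ∨ u = bot ∨ ∃ x, u = vtx x ∧ D x

lemma inN_top (D : V → Prop) : InN D top := Or.inl rfl
lemma inN_bot (D : V → Prop) : InN D bot := Or.inr (Or.inl rfl)
lemma inN_vtx {D : V → Prop} {x : V} : InN D (vtx x) ↔ D x := by
  constructor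
  · rintro (h | h | ⟨y, h, hy⟩)
    · exact absurd h (by simp [vtx, top])
    · exact absurd h (by simp [vtx, bot])
    · simp only [vtx, Option.some.injEq] at h
      rw [h]; exact hy
  · exact fun h => Or.inr (Or.inr ⟨x, rfl, h⟩)

lemma vtx_ne_top (x : V) : vtx x ≠ top := by simp [vtx, top]
lemma vtx_ne_bot (x : V) : vtx x ≠ bot := by simp [vtx, bot]
lemma top_ne_bot : (top : Node V) ≠ bot := by simp [bot, top]
lemma vtx_inj {x y : V} (h : vtx x = vtx y) : x = y := by simpa [vtx] using h

/-- families closed under meet and join are given by implications -/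
theorem birkhoff [Finite V] (D : V → Prop) (M : (V → Bool) → Prop)
    (hcongr : ∀ g g', (∀ x, D x → g x = g' x) → M g → M g')
    (hand : ∀ g g', M g → M g' → M (fun x => g x && g' x))
    (hor : ∀ g g', M g → M g' → M (fun x => g x || g' x)) (h : V → Bool)
    (himp : ∀ u v, InN D u → InN D v → (∀ m, M m → val m u = true → val m v = true) →
      val h u = true → val h v = true) : M h := by
  classical
  cases nonempty_fintype V
  have hand' : ∀ g g' (v : Node V), val (fun x => g x && g' x) v = (val g v && val g' v) := by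
    intro g g' v
    rcases v with _ | _ | x <;> rfl
  have hor' : ∀ g g' (v : Node V), val (fun x => g x || g' x) v = (val g v || val g' v) := by
    intro g g' v
    rcases v with _ | _ | x <;> rfl
  have h1 : ∀ u v, InN D u → InN D v → val h u = true → val h v = false →
      ∃ m, M m ∧ val m u = true ∧ val m v = false := by
    intro u v hu hv h1 h2
    by_contra hcon
    push Not at hcon
    have := himp u v hu hv (fun m hm h3 => by
      have := hcon m hm h3
      simpa using this) h1
    rw [h2] at this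
    exact absurd this (by simp)
  have h2 : ∀ u, InN D u → val h u = true → ∀ s : Finset (Node V),
      (∀ v ∈ s, InN D v ∧ val h v = false) →
      ∃ m, M m ∧ val m u = true ∧ ∀ v ∈ s, val m v = false := by
    intro u hu h3 s
    induction s using Finset.induction_on with
    | empty =>
      intro _
      obtain ⟨m, hm, h4, _⟩ := h1 u bot hu (inN_bot D) h3 rfl
      exact ⟨m, hm, h4, by simp⟩
    | insert v s _ ih =>
      intro hs
      obtain ⟨m, hm, h4, h5⟩ := ih (fun w hw => hs w (Finset.mem_insert_of_mem hw))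
      obtain ⟨hv1, hv2⟩ := hs v (Finset.mem_insert_self _ _)
      obtain ⟨m', hm', h6, h7⟩ := h1 u v hu hv1 h3 hv2
      refine ⟨_, hand m m' hm hm', ?_, ?_⟩
      · rw [hand', h4, h6]; rfl
      · intro w hw
        rw [hand']
        rcases Finset.mem_insert.1 hw with rfl | hw
        · rw [h7]; simp
        · rw [h5 w hw]; simp
  set W : Finset (Node V) := Finset.univ.filter (fun v => InN D v ∧ val h v = false) with hW
  have hW1 : ∀ v ∈ W, InN D v ∧ val h v = false := by
    intro v hv
    rw [hW, Finset.mem_filter] at hv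
    exact hv.2
  have h3 : ∀ s : Finset (Node V), (∀ u ∈ s, InN D u ∧ val h u = true) →
      ∃ m, M m ∧ (∀ v ∈ W, val m v = false) ∧ ∀ u ∈ s, val m u = true := by
    intro s
    induction s using Finset.induction_on with
    | empty =>
      intro _
      obtain ⟨m, hm, _, h5⟩ := h2 top (inN_top D) rfl W hW1
      exact ⟨m, hm, h5, by simp⟩
    | insert u s _ ih =>
      intro hs
      obtain ⟨m, hm, h4, h5⟩ := ih (fun w hw => hs w (Finset.mem_insert_of_mem hw))
      obtain ⟨hu1, hu2⟩ := hs u (Finset.mem_insert_self _ _)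
      obtain ⟨m', hm', h6, h7⟩ := h2 u hu1 hu2 W hW1
      refine ⟨_, hor m m' hm hm', ?_, ?_⟩
      · intro v hv
        rw [hor', h4 v hv, h7 v hv]; rfl
      · intro w hw
        rw [hor']
        rcases Finset.mem_insert.1 hw with rfl | hw
        · rw [h6]; simp
        · rw [h5 w hw]; simp
  obtain ⟨m, hm, h4, h5⟩ := h3 (Finset.univ.filter (fun v => InN D v ∧ val h v = true)) (by
    intro u hu
    rw [Finset.mem_filter] at hu
    exact hu.2)
  refine hcongr m h ?_ hm
  intro x hx
  cases hh : h x with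
  | false =>
    have : vtx x ∈ W := by
      rw [hW, Finset.mem_filter]
      exact ⟨Finset.mem_univ _, inN_vtx.2 hx, hh⟩
    exact h4 _ this
  | true =>
    exact h5 (vtx x) (by
      rw [Finset.mem_filter]
      exact ⟨Finset.mem_univ _, inN_vtx.2 hx, hh⟩)

section rules

variable [DecidableEq V] {G : SimpleGraph V} (E : Elim G)

/-- nodes of the bag of `i` -/
def NK (i a b : V) : Node V → Prop := InN (fun x => x ∈ E.K i ∧ x ≠ a ∧ x ≠ b)
/-- nodes of the separator of `i` -/
def NS (i a b : V) : Node V → Prop := InN (fun x => x ∈ E.S i ∧ x ≠ a ∧ x ≠ b)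

/-- relations on nodes, for every vertex `i` and every pair of centres -/
abbrev Rel (V : Type) := V → V → V → Node V → Node V → Prop

/-- semantic implication -/
def Imp : Rel V := fun i a b u v => ∀ g, Ext E i ⟨a, b, g⟩ → val g u = true → val g v = true

/-- the star is excluded for the centres `a'`, `b'` -/
def Blocked (R : Rel V) (j a' b' : V) : Prop := ∃ v, NS E j a' b' v ∧ v ≠ top ∧ R j a' b' top v

/-- no star configuration equivalent to `a`, `b` extends -/
def NoStar (R : Rel V) (j a b : V) : Prop := ∀ a' b', G.Adj a' b' → Blocked E R j a' b' ∨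
  ¬ Compat (E.S j) ⟨a', b', fun _ => false⟩ ⟨a, b, fun _ => false⟩

/-- implications for the separator of `j` -/
def RM (R : Rel V) (j a b : V) (u v : Node V) : Prop := R j a b u v ∧
  (u = top → v ≠ top → NoStar E R j a b) ∧ (v = bot → u ≠ bot → NoStar E R j b a)

/-- one step of derivation -/
def Rule (R : Rel V) (i a b : V) (u v : Node V) : Prop :=
  u = bot ∨ v = top ∨ u = v ∨ (v = bot ∧ ∃ x, u = vtx x ∧ ¬ G.Adj x b) ∨
  (u = top ∧ ∃ x, v = vtx x ∧ ¬ G.Adj x a) ∨
  (∃ w, NK E i a b w ∧ R i a b u w ∧ R i a b w v) ∨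
  (∃ j, j ≠ E.root ∧ E.p j = i ∧ NS E j a b u ∧ NS E j a b v ∧ RM E R j a b u v)

lemma NS.NK_self {j a b : V} {u : Node V} (h : NS E j a b u) : NK E j a b u := by
  rcases h with h | h | ⟨x, h, hx⟩
  · exact Or.inl h
  · exact Or.inr (Or.inl h)
  · exact Or.inr (Or.inr ⟨x, h, E.S_sub_K hx.1, hx.2⟩)

lemma NS.NK_parent {j a b : V} {u : Node V} (h : NS E j a b u) : NK E (E.p j) a b u := by
  rcases h with h | h | ⟨x, h, hx⟩
  · exact Or.inl h
  · exact Or.inr (Or.inl h)
  · exact Or.inr (Or.inr ⟨x, h, E.S_sub hx.1, hx.2⟩)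

lemma val_congr {D : V → Prop} {g g' : V → Bool} (h : ∀ x, D x → g x = g' x) {u : Node V}
    (hu : InN D u) : val g u = val g' u := by
  rcases hu with rfl | rfl | ⟨x, rfl, hx⟩
  · rfl
  · rfl
  · exact h x hx

/-- soundness of a relation -/
def Sound (R : Rel V) : Prop := ∀ i a b u v, G.Adj a b → NK E i a b u → NK E i a b v →
  R i a b u v → Imp E i a b u v

lemma noStar_sound {R : Rel V} (hR : Sound E R) {j a b : V}
    (h : NoStar E R j a b) : ¬ MM E j ⟨a, b, fun _ => false⟩ := by
  intro hM
  obtain ⟨a', b', g', hadj', hE, hg', hc⟩ := MM.star E hM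
  rcases h a' b' hadj' with h1 | h1
  · obtain ⟨v, hv, hvt, hRv⟩ := h1
    have h2 := hR j a' b' top v hadj' (inN_top _) (NS.NK_self E hv) hRv g' hE rfl
    rcases hv with rfl | rfl | ⟨x, rfl, hx⟩
    · exact hvt rfl
    · exact absurd h2 (by simp)
    · rw [val_vtx, hg' x hx.1 hx.2.1 hx.2.2] at h2
      exact absurd h2 (by simp)
  · exact h1 hc

lemma MM_swap_false {j a b : V} (h : MM E j ⟨a, b, fun _ => true⟩) :
    MM E j ⟨b, a, fun _ => false⟩ := by
  obtain ⟨τ, h1, h2⟩ := h
  exact ⟨τ, h1, h2.trans (compat_swap (E.S j) ⟨a, b, fun _ => true⟩).symm⟩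

lemma MM_swap_true {j a b : V} (h : MM E j ⟨b, a, fun _ => false⟩) :
    MM E j ⟨a, b, fun _ => true⟩ := by
  obtain ⟨τ, h1, h2⟩ := h
  exact ⟨τ, h1, h2.trans (compat_swap (E.S j) ⟨b, a, fun _ => false⟩).symm⟩

lemma rm_sound {R : Rel V} (hR : Sound E R) {j a b : V} (hadj : G.Adj a b) {u v : Node V}
    (hu : NS E j a b u) (hv : NS E j a b v) (h : RM E R j a b u v) {g : V → Bool}
    (hM : MM E j ⟨a, b, g⟩) (hgu : val g u = true) : val g v = true := by
  obtain ⟨h1, h2, h3⟩ := h
  rcases MM.cases E hadj.ne hM with ⟨g', hE, hg'⟩ | hc | hc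
  · have hcong : ∀ x, (x ∈ E.S j ∧ x ≠ a ∧ x ≠ b) → g' x = g x := fun x hx => hg' x hx.1 hx.2.1 hx.2.2
    rw [← val_congr hcong hv]
    apply hR j a b u v hadj (NS.NK_self E hu) (NS.NK_self E hv) h1 g' hE
    rw [val_congr hcong hu]; exact hgu
  · rcases hu with rfl | rfl | ⟨x, rfl, hx⟩
    · by_contra hcon
      have hvt : v ≠ top := by rintro rfl; exact hcon rfl
      exact noStar_sound E hR (h2 rfl hvt) (MM.congr E hM (fun x hx hxa hxb => by rw [hc x hx hxa hxb]))
    · exact absurd hgu (by simp)
    · rw [val_vtx, hc x hx.1 hx.2.1 hx.2.2] at hgu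
      exact absurd hgu (by simp)
  · rcases hv with rfl | rfl | ⟨x, rfl, hx⟩
    · rfl
    · exfalso
      have hub : u ≠ bot := by rintro rfl; exact absurd hgu (by simp)
      refine noStar_sound E hR (h3 rfl hub) (MM_swap_false E ?_)
      exact MM.congr E hM (fun x hx hxa hxb => by rw [hc x hx hxa hxb])
    · rw [val_vtx, hc x hx.1 hx.2.1 hx.2.2]

/-- the derivation rule is sound -/
theorem rule_sound {R : Rel V} (hR : Sound E R) {i a b : V} (hadj : G.Adj a b) {u v : Node V}
    (hu : NK E i a b u) (hv : NK E i a b v) (h : Rule E R i a b u v) : Imp E i a b u v := by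
  intro g hE hgu
  rcases h with rfl | rfl | rfl | ⟨rfl, x, rfl, hx⟩ | ⟨rfl, x, rfl, hx⟩ | ⟨w, hw, h1, h2⟩ |
    ⟨j, hj, hji, hu', hv', h⟩
  · exact absurd hgu (by simp)
  · rfl
  · exact hgu
  · exfalso
    have hxK := inN_vtx.1 hu
    rw [val_vtx] at hgu
    have h1 := ((ext_iff E).1 hE).1.2 x hxK.1
    rw [DS.c_true ⟨a, b, g⟩ hxK.2.1 hxK.2.2 hgu] at h1
    exact hx (h1 hxK.2.2)
  · have hxK := inN_vtx.1 hv
    rw [val_vtx]
    by_contra hgx
    rw [Bool.not_eq_true] at hgx
    have h1 := ((ext_iff E).1 hE).1.2 x hxK.1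
    rw [DS.c_false ⟨a, b, g⟩ hxK.2.1 hxK.2.2 hgx] at h1
    exact hx (h1 hxK.2.1)
  · exact hR i a b w v hadj hw hv h2 g hE (hR i a b u w hadj hu hw h1 g hE hgu)
  · exact rm_sound E hR hadj hu' hv' h (((ext_iff E).1 hE).2 j hj hji) hgu

/-- implications describe the extendable attachments of the separator -/
lemma mm_of_imp [Finite V] {j a b : V} (hadj : G.Adj a b) (h : V → Bool)
    (himp : ∀ u v, NS E j a b u → NS E j a b v →
      (∀ m, MM E j ⟨a, b, m⟩ → val m u = true → val m v = true) → val h u = true → val h v = true) :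
    MM E j ⟨a, b, h⟩ := by
  have hlat : ∀ g g', MM E j ⟨a, b, g⟩ → MM E j ⟨a, b, g'⟩ →
      MM E j ⟨a, b, fun x => g x && g' x⟩ ∧ MM E j ⟨a, b, fun x => g x || g' x⟩ := by
    intro g g' h1 h2
    rcases MM.cases E hadj.ne h1 with ⟨g1, hg1, hg1'⟩ | h3 | h3
    · rcases MM.cases E hadj.ne h2 with ⟨g2, hg2, hg2'⟩ | h4 | h4
      · obtain ⟨e1, e2⟩ := ext_lattice E hadj.ne j g1 g2 hg1 hg2
        refine ⟨⟨_, e1, compat_congr ?_⟩, ⟨_, e2, compat_congr ?_⟩⟩
        · intro x hx hxa hxb
          rw [hg1' x hx hxa hxb, hg2' x hx hxa hxb]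
        · intro x hx hxa hxb
          rw [hg1' x hx hxa hxb, hg2' x hx hxa hxb]
      · refine ⟨MM.congr E h2 ?_, MM.congr E h1 ?_⟩
        · intro x hx hxa hxb
          rw [h4 x hx hxa hxb]; simp
        · intro x hx hxa hxb
          rw [h4 x hx hxa hxb]; simp
      · refine ⟨MM.congr E h1 ?_, MM.congr E h2 ?_⟩
        · intro x hx hxa hxb
          rw [h4 x hx hxa hxb]; simp
        · intro x hx hxa hxb
          rw [h4 x hx hxa hxb]; simp
    · refine ⟨MM.congr E h1 ?_, MM.congr E h2 ?_⟩
      · intro x hx hxa hxb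
        rw [h3 x hx hxa hxb]; simp
      · intro x hx hxa hxb
        rw [h3 x hx hxa hxb]; simp
    · refine ⟨MM.congr E h2 ?_, MM.congr E h1 ?_⟩
      · intro x hx hxa hxb
        rw [h3 x hx hxa hxb]; simp
      · intro x hx hxa hxb
        rw [h3 x hx hxa hxb]; simp
  refine birkhoff (fun x => x ∈ E.S j ∧ x ≠ a ∧ x ≠ b) (fun m => MM E j ⟨a, b, m⟩) ?_
    (fun g g' h1 h2 => (hlat g g' h1 h2).1) (fun g g' h1 h2 => (hlat g g' h1 h2).2) h himp
  intro g g' hg hM
  exact MM.congr E hM (fun x hx hxa hxb => hg x ⟨hx, hxa, hxb⟩)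

lemma noStar_complete [Finite V] {R : Rel V} {j : V}
    (hj : ∀ a b u v, G.Adj a b → NK E j a b u → NK E j a b v → Imp E j a b u v → R j a b u v)
    {a b : V} (h : ¬ MM E j ⟨a, b, fun _ => false⟩) : NoStar E R j a b := by
  intro a' b' hadj'
  by_contra hcon
  push Not at hcon
  obtain ⟨hb, hc⟩ := hcon
  apply h
  -- the constant false attachment extends
  have h1 : MM E j ⟨a', b', fun _ => false⟩ := by
    by_contra hM
    have h2 : ∃ v, NS E j a' b' v ∧ v ≠ top ∧ Imp E j a' b' top v := by
      by_contra hcon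
      push Not at hcon
      -- no implication from top: find attachments and take the meet
      apply hM
      have key : ∀ v, NS E j a' b' v → v ≠ top → ∃ g, Ext E j ⟨a', b', g⟩ ∧ val g v = false := by
        intro v hv hvt
        have := hcon v hv hvt
        unfold Imp at this
        push Not at this
        obtain ⟨g, hg, _, h4⟩ := this
        exact ⟨g, hg, by simpa using h4⟩
      refine mm_of_imp E hadj' _ ?_
      intro u v hu hv himp hval
      have hut : u = top := by
        rcases hu with rfl | rfl | ⟨x, rfl, _⟩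
        · rfl
        · exact absurd hval (by simp)
        · exact absurd hval (by simp)
      subst hut
      by_contra hv2
      have hvt : v ≠ top := by rintro rfl; exact hv2 rfl
      obtain ⟨g, hg, h5⟩ := key v hv hvt
      have h6 := himp g ⟨_, hg, fun _ _ _ _ => rfl⟩ rfl
      rw [h5] at h6
      exact absurd h6 (by simp)
    obtain ⟨v, hv, hvt, hi⟩ := h2
    exact hb ⟨v, hv, hvt, hj a' b' top v hadj' (inN_top _) (NS.NK_self E hv) hi⟩
  obtain ⟨τ, h2, h3⟩ := h1
  exact ⟨τ, h2, h3.trans hc⟩

/-- the derivation rule is complete -/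
theorem rule_complete [Finite V] {R : Rel V} (hR : ∀ i a b u v, G.Adj a b → NK E i a b u →
    NK E i a b v → Rule E R i a b u v → R i a b u v) :
    ∀ i, ∀ a b u v, G.Adj a b → NK E i a b u → NK E i a b v → Imp E i a b u v → R i a b u v := by
  apply E.asc (P := fun i => ∀ a b u v, G.Adj a b → NK E i a b u → NK E i a b v →
    Imp E i a b u v → R i a b u v)
  intro i ih a b u v hadj hu hv himp
  by_contra hcon
  have hrefl : ∀ w, NK E i a b w → R i a b w w := fun w hw =>
    hR i a b w w hadj hw hw (Or.inr (Or.inr (Or.inl rfl)))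
  have hbot : ∀ w, NK E i a b w → R i a b bot w := fun w hw =>
    hR i a b bot w hadj (inN_bot _) hw (Or.inl rfl)
  have htop : ∀ w, NK E i a b w → R i a b w top := fun w hw =>
    hR i a b w top hadj hw (inN_top _) (Or.inr (Or.inl rfl))
  have htrans : ∀ x y z, NK E i a b x → NK E i a b y → NK E i a b z → R i a b x y → R i a b y z →
      R i a b x z := fun x y z hx hy hz h1 h2 =>
    hR i a b x z hadj hx hz (Or.inr (Or.inr (Or.inr (Or.inr (Or.inr (Or.inl ⟨y, hy, h1, h2⟩))))))
  classical
  let g : V → Bool := fun x => decide (R i a b u (vtx x))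
  have hg : ∀ w, NK E i a b w → (val g w = true ↔ R i a b u w) := by
    intro w hw
    rcases hw with rfl | rfl | ⟨x, rfl, hx⟩
    · simp only [val_top, true_iff]
      exact htop u hu
    · simp only [val_bot, Bool.false_eq_true, false_iff]
      intro h
      exact hcon (htrans u bot v hu (inN_bot _) hv h (hbot v hv))
    · simp [g]
  have hE : Ext E i ⟨a, b, g⟩ := by
    rw [ext_iff]
    refine ⟨⟨hadj, ?_⟩, ?_⟩
    · intro x hx hxc
      have hxa : x ≠ a := fun h => hxc (by rw [h]; exact (DS.c_a ⟨a, b, g⟩).symm)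
      have hxb : x ≠ b := fun h => hxc (by rw [h]; exact (DS.c_b ⟨a, b, g⟩).symm)
      have hxN : NK E i a b (vtx x) := inN_vtx.2 ⟨hx, hxa, hxb⟩
      cases hgx : g x with
      | true =>
        rw [DS.c_true ⟨a, b, g⟩ hxa hxb hgx]
        by_contra hnb
        have h1 : R i a b (vtx x) bot := hR i a b _ _ hadj hxN (inN_bot _)
          (Or.inr (Or.inr (Or.inr (Or.inl ⟨rfl, x, rfl, hnb⟩))))
        have h2 : R i a b u (vtx x) := (hg _ hxN).1 hgx
        have h3 := htrans u (vtx x) bot hu hxN (inN_bot _) h2 h1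
        exact hcon (htrans u bot v hu (inN_bot _) hv h3 (hbot v hv))
      | false =>
        rw [DS.c_false ⟨a, b, g⟩ hxa hxb hgx]
        by_contra hna
        have h1 : R i a b top (vtx x) := hR i a b _ _ hadj (inN_top _) hxN
          (Or.inr (Or.inr (Or.inr (Or.inr (Or.inl ⟨rfl, x, rfl, hna⟩)))))
        have h2 := htrans u top (vtx x) hu (inN_top _) hxN (htop u hu) h1
        have h3 := (hg _ hxN).2 h2
        rw [val_vtx, hgx] at h3
        exact absurd h3 (by simp)
    · intro j hj hji
      have hlt : E.r j < E.r i := by rw [← hji]; exact E.p_lt j hj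
      have hJ : ∀ a b u v, G.Adj a b → NK E j a b u → NK E j a b v → Imp E j a b u v → R j a b u v :=
        ih j hlt
      refine mm_of_imp E hadj g ?_
      intro u' v' hu' hv' himp' hval
      have hu2 : NK E i a b u' := by rw [← hji]; exact NS.NK_parent E hu'
      have hv2 : NK E i a b v' := by rw [← hji]; exact NS.NK_parent E hv'
      have hRM : RM E R j a b u' v' := by
        refine ⟨?_, ?_, ?_⟩
        · apply hJ a b u' v' hadj (NS.NK_self E hu') (NS.NK_self E hv')
          intro m hm h1
          exact himp' m ⟨_, hm, fun _ _ _ _ => rfl⟩ h1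
        · intro h1 h2
          apply noStar_complete E hJ
          intro hM
          have h3 := himp' _ hM (by rw [h1]; rfl)
          rcases hv' with rfl | rfl | ⟨x, rfl, _⟩
          · exact h2 rfl
          · exact absurd h3 (by simp)
          · exact absurd h3 (by simp)
        · intro h1 h2
          apply noStar_complete E hJ
          intro hM
          have h4 := MM_swap_true E hM
          have h3 := himp' _ h4 (by
            rcases hu' with rfl | rfl | ⟨x, rfl, _⟩
            · rfl
            · exact absurd rfl h2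
            · rfl)
          rw [h1] at h3
          exact absurd h3 (by simp)
      have h1 : R i a b u' v' := hR i a b u' v' hadj hu2 hv2
        (Or.inr (Or.inr (Or.inr (Or.inr (Or.inr (Or.inr ⟨j, hj, hji, hu', hv', hRM⟩))))))
      have h2 := (hg u' hu2).1 hval
      exact (hg v' hv2).2 (htrans u u' v' hu hu2 hv2 h2 h1)
  have h1 := himp g hE ((hg u hu).2 (hrefl u hu))
  exact hcon ((hg v hv).1 h1)

/-- the decision criterion -/
theorem decide_spanner [Finite V] [Nontrivial V] (hG : G.Connected) {R : Rel V} (hs : Sound E R)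
    (hR : ∀ i a b u v, G.Adj a b → NK E i a b u → NK E i a b v → Rule E R i a b u v → R i a b u v) :
    (∃ T, IsSpanner3 G T) ↔ ∃ a b, G.Adj a b ∧ ¬ R E.root a b top bot := by
  rw [spanner_iff E hG]
  constructor
  · rintro ⟨⟨a, b, g⟩, h⟩
    have hadj := ((ext_iff E).1 h).1.1
    refine ⟨a, b, hadj, fun hRtb => ?_⟩
    have := hs E.root a b top bot hadj (inN_top _) (inN_bot _) hRtb g h rfl
    exact absurd this (by simp)
  · rintro ⟨a, b, hadj, h⟩
    by_contra hcon
    push Not at hcon
    apply h
    apply rule_complete E hR E.root a b top bot hadj (inN_top _) (inN_bot _)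
    intro g hE
    exact absurd hE (hcon _)

end rules

end Pool.Agent.Helper58.T3
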