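import Pool.Agent.Helper58.T3.ElimCorrect
import Pool.Agent.Helper58.T3.Rules

set_option autoImplicit false

namespace Pool.Agent.Helper58.T3

open Pool.Agent.Helper58 Node

variable {n : ℕ}

/-- codes of nodes -/
def nd : Node (Fin n) → ℕ
  | none => 0
  | some none => 1
  | some (some x) => x.val + 2

@[simp] lemma nd_top : nd (top : Node (Fin n)) = 0 := rfl
@[simp] lemma nd_bot : nd (bot : Node (Fin n)) = 1 := rfl
@[simp] lemma nd_vtx (x : Fin n) : nd (vtx x) = x.val + 2 := rfl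

lemma nd_inj {u v : Node (Fin n)} (h : nd u = nd v) : u = v := by
  rcases u with _ | _ | x <;> rcases v with _ | _ | y <;> simp only [nd] at h
  · rfl
  · omega
  · omega
  · omega
  · rfl
  · omega
  · omega
  · omega
  · have : x = y := Fin.ext (by omega)
    rw [this]

lemma nd_eq_zero {u : Node (Fin n)} : nd u = 0 ↔ u = top :=
  ⟨fun h => nd_inj (by rw [h, nd_top]), fun h => by rw [h, nd_top]⟩
lemma nd_eq_one {u : Node (Fin n)} : nd u = 1 ↔ u = bot :=
  ⟨fun h => nd_inj (by rw [h, nd_bot]), fun h => by rw [h, nd_bot]⟩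
lemma nd_eq_vtx {u : Node (Fin n)} {x : Fin n} : nd u = x.val + 2 ↔ u = vtx x :=
  ⟨fun h => nd_inj (by rw [h, nd_vtx]), fun h => by rw [h, nd_vtx]⟩

lemma mem_nodes {L : List ℕ} {a b u : ℕ} : u ∈ nodes L a b ↔
    u = 0 ∨ u = 1 ∨ ∃ x ∈ L, x ≠ a ∧ x ≠ b ∧ u = x + 2 := by
  simp only [nodes, List.mem_cons, List.mem_map, List.mem_filter, Bool.and_eq_true,
    Bool.not_eq_true', decide_eq_false_iff_not]
  constructor
  · rintro (h | h | ⟨x, ⟨h1, h2, h3⟩, h4⟩)
    · exact Or.inl h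
    · exact Or.inr (Or.inl h)
    · exact Or.inr (Or.inr ⟨x, h1, h2, h3, h4.symm⟩)
  · rintro (h | h | ⟨x, h1, h2, h3, h4⟩)
    · exact Or.inl h
    · exact Or.inr (Or.inl h)
    · exact Or.inr (Or.inr ⟨x, ⟨h1, h2, h3⟩, h4.symm⟩)

/-- lists representing sets of vertices -/
def Rep (L : List ℕ) (D : Set (Fin n)) : Prop := ∀ x : ℕ, x ∈ L ↔ ∃ j : Fin n, j.val = x ∧ j ∈ D

lemma mem_nodes_rep {L : List ℕ} {D : Set (Fin n)} (h : Rep L D) {a b : Fin n} {u : ℕ} :
    u ∈ nodes L a.val b.val ↔ ∃ U : Node (Fin n), u = nd U ∧ InN (fun x => x ∈ D ∧ x ≠ a ∧ x ≠ b) U := by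
  rw [mem_nodes]
  constructor
  · rintro (h1 | h1 | ⟨x, h1, h2, h3, h4⟩)
    · exact ⟨top, h1, inN_top _⟩
    · exact ⟨bot, h1, inN_bot _⟩
    · obtain ⟨j, rfl, hj⟩ := (h x).1 h1
      exact ⟨vtx j, h4, inN_vtx.2 ⟨hj, fun he => h2 (by rw [he]), fun he => h3 (by rw [he])⟩⟩
  · rintro ⟨U, rfl, hU⟩
    rcases hU with rfl | rfl | ⟨x, rfl, hx1, hx2, hx3⟩
    · exact Or.inl rfl
    · exact Or.inr (Or.inl rfl)
    · exact Or.inr (Or.inr ⟨x.val, (h _).2 ⟨x, rfl, hx1⟩, fun he => hx2 (Fin.ext he),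
        fun he => hx3 (Fin.ext he), rfl⟩)

lemma nd_mem_nodes {L : List ℕ} {D : Set (Fin n)} (h : Rep L D) {a b : Fin n} {U : Node (Fin n)} :
    nd U ∈ nodes L a.val b.val ↔ InN (fun x => x ∈ D ∧ x ≠ a ∧ x ≠ b) U := by
  rw [mem_nodes_rep h]
  constructor
  · rintro ⟨U', h1, h2⟩
    rw [nd_inj h1]; exact h2
  · intro h1
    exact ⟨U, rfl, h1⟩

lemma memF_iff {F : List Fact} {c : Fact} : memF F c = true ↔ c ∈ F := by
  simp [memF]

lemma memL_iff {F : List ℕ} {c : ℕ} : memL F c = true ↔ c ∈ F := by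
  simp [memL]

lemma bx_eq (x y : Bool) : bx x y = xor x y := by cases x <;> cases y <;> rfl

lemma cB_eq (a b x : Fin n) : cB a.val b.val x.val = ((⟨a, b, fun _ => false⟩ : DS (Fin n)).c x).val := by
  unfold cB DS.c
  simp only [Fin.ext_iff]
  by_cases h1 : x.val = a.val <;> by_cases h2 : x.val = b.val <;> simp [h1, h2]

lemma evB_eq (x y p q : Fin n) : evB x.val y.val p.val q.val = ev x y s(p, q) := by
  unfold evB
  rw [Bool.eq_iff_iff, ev_true]
  simp only [Bool.and_eq_true, Bool.not_eq_true', decide_eq_false_iff_not, Bool.or_eq_true,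
    decide_eq_true_eq, Prod.mk.injEq, Sym2.eq_iff, Fin.ext_iff, ne_eq]
  tauto

lemma pvB_eq (a b x y p q : Fin n) : pvB a.val b.val x.val y.val p.val q.val
    = (⟨a, b, fun _ => false⟩ : DS (Fin n)).pv x y s(p, q) := by
  unfold pvB DS.pv
  rw [bx_eq, bx_eq, cB_eq, cB_eq, evB_eq, evB_eq, evB_eq]

lemma compatB_iff {L : List ℕ} {D : Set (Fin n)} (h : Rep L D) {a' b' a b : Fin n} :
    compatB (List.range n) L a'.val b'.val a.val b.val = true ↔
      Compat D ⟨a', b', fun _ => false⟩ ⟨a, b, fun _ => false⟩ := by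
  simp only [compatB, List.all_eq_true, decide_eq_true_eq, List.mem_range]
  constructor
  · intro hh x hx y hy
    funext f
    induction f with
    | _ p q =>
      have := hh x.val ((h _).2 ⟨x, rfl, hx⟩) y.val ((h _).2 ⟨y, rfl, hy⟩) p.val p.isLt q.val q.isLt
      rw [pvB_eq, pvB_eq] at this
      exact this
  · intro hh x hx y hy p hp q hq
    obtain ⟨i, rfl, hi⟩ := (h _).1 hx
    obtain ⟨j, rfl, hj⟩ := (h _).1 hy
    have e1 := pvB_eq a' b' i j ⟨p, hp⟩ ⟨q, hq⟩
    have e2 := pvB_eq a b i j ⟨p, hp⟩ ⟨q, hq⟩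
    simp only at e1 e2
    rw [e1, e2, hh i hi j hj]

section bridge

variable {G : SimpleGraph (Fin n)} {E : List (ℕ × ℕ)} (hE : Lists n G E) (El : Elim G)
  (Sl : Fin n → List ℕ) (hSl : ∀ i, Rep (Sl i) (El.S i)) {O : List (ℕ × List ℕ)}
  (hO1 : ∀ i : Fin n, (i.val, Sl i) ∈ O) (hO2 : ∀ q ∈ O, ∃ i : Fin n, q = (i.val, Sl i))

/-- the code of a fact -/
def encF (Sl : Fin n → List ℕ) (i a b : Fin n) (U V : Node (Fin n)) : Fact :=
  ((i.val, Sl i), ((a.val, b.val), (nd U, nd V)))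

/-- the relation given by a list of facts -/
def RF (Sl : Fin n → List ℕ) (F : List Fact) : Rel (Fin n) := fun i a b U V => encF Sl i a b U V ∈ F

include hSl in
lemma rep_K (i : Fin n) : Rep (i.val :: Sl i) (El.K i) := by
  intro x
  rw [List.mem_cons, hSl i x]
  constructor
  · rintro (h | ⟨j, h1, h2⟩)
    · exact ⟨i, h.symm, El.self_mem_K i⟩
    · exact ⟨j, h1, El.S_sub_K h2⟩
  · rintro ⟨j, h1, rfl | h2⟩
    · exact Or.inl h1.symm
    · exact Or.inr ⟨j, h1, h2⟩

include hSl in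
lemma blockedB_iff {F : List Fact} {j a b : Fin n} :
    blockedB F (j.val, Sl j) a.val b.val = true ↔ Blocked El (RF Sl F) j a b := by
  simp only [blockedB, List.any_eq_true, Bool.and_eq_true, Bool.not_eq_true',
    decide_eq_false_iff_not, memF_iff]
  constructor
  · rintro ⟨v, h1, h2, h3⟩
    obtain ⟨U, rfl, hU⟩ := (mem_nodes_rep (hSl j)).1 h1
    exact ⟨U, hU, fun h => h2 (nd_eq_zero.2 h), h3⟩
  · rintro ⟨U, hU, h2, h3⟩
    exact ⟨nd U, (nd_mem_nodes (hSl j)).2 hU, fun h => h2 (nd_eq_zero.1 h), h3⟩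

include hE hSl in
lemma noStarB_iff {F : List Fact} {j a b : Fin n} :
    noStarB (List.range n) E F (j.val, Sl j) a.val b.val = true ↔ NoStar El (RF Sl F) j a b := by
  simp only [noStarB, List.all_eq_true, Bool.or_eq_true, Bool.not_eq_true']
  constructor
  · intro h a' b' hadj
    rcases h (a'.val, b'.val) ((hE _ _).2 ⟨a', b', rfl, rfl, hadj⟩) with h1 | h1
    · exact Or.inl ((blockedB_iff El Sl hSl).1 h1)
    · right
      intro hc
      rw [(compatB_iff (hSl j)).2 hc] at h1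
      exact absurd h1 (by simp)
  · rintro h ⟨x, y⟩ hxy
    obtain ⟨a', b', rfl, rfl, hadj⟩ := (hE _ _).1 hxy
    rcases h a' b' hadj with h1 | h1
    · exact Or.inl ((blockedB_iff El Sl hSl).2 h1)
    · right
      rw [← Bool.not_eq_true]
      intro hc
      exact h1 ((compatB_iff (hSl j)).1 hc)

include hE hSl in
lemma rmB_iff {F : List Fact} {j a b : Fin n} {U V : Node (Fin n)} :
    rmB (List.range n) E F (j.val, Sl j) a.val b.val (nd U) (nd V) = true ↔
      RM El (RF Sl F) j a b U V := by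
  simp only [rmB, Bool.and_eq_true, Bool.or_eq_true, Bool.not_eq_true', decide_eq_false_iff_not,
    decide_eq_true_eq, memF_iff, nd_eq_zero, nd_eq_one, noStarB_iff hE El Sl hSl, RM, RF, encF]
  tauto

include hSl in
lemma childB_iff {i j : Fin n} :
    childB (j.val, Sl j) (i.val, Sl i) = true ↔ (j ≠ El.root ∧ El.p j = i) := by
  rw [El.child_iff]
  simp only [childB, Bool.and_eq_true, List.all_eq_true, memL_iff]
  rw [hSl j i.val]
  constructor
  · rintro ⟨⟨i', h1, h2⟩, h3⟩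
    have e : i' = i := Fin.ext h1
    subst e
    refine ⟨h2, fun x hx => ?_⟩
    obtain ⟨x', h4, h5⟩ := (rep_K El Sl hSl i' x.val).1 (h3 x.val ((hSl j _).2 ⟨x, rfl, hx⟩))
    rw [← Fin.ext h4]; exact h5
  · rintro ⟨h1, h2⟩
    refine ⟨⟨i, rfl, h1⟩, fun x hx => ?_⟩
    obtain ⟨x', rfl, h5⟩ := (hSl j _).1 hx
    exact (rep_K El Sl hSl i x'.val).2 ⟨x', rfl, h2 x' h5⟩

include hE hSl hO1 hO2 in
lemma ruleB_iff {F : List Fact} {i a b : Fin n} {U V : Node (Fin n)} (hU : NK El i a b U)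
    (hV : NK El i a b V) :
    ruleB (List.range n) E O F (encF Sl i a b U V) = true ↔ Rule El (RF Sl F) i a b U V := by
  simp only [ruleB, encF, Bool.and_eq_true, Bool.or_eq_true, Bool.not_eq_true',
    decide_eq_true_eq, memF_iff, memL_iff, nd_eq_zero, nd_eq_one, List.any_eq_true, Rule]
  have e1 : (nd U = nd V) ↔ U = V := ⟨nd_inj, fun h => by rw [h]⟩
  have vert : ∀ (W : Node (Fin n)) (d : Fin n), NK El i a b W →
      ((∃ x, x ∈ i.val :: Sl i ∧ nd W = x + 2 ∧ adjB E x d.val = false) ↔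
        ∃ x, W = vtx x ∧ ¬ G.Adj x d) := by
    intro W d hW
    constructor
    · rintro ⟨x, h1, h2, h3⟩
      obtain ⟨x', rfl, h4⟩ := (rep_K El Sl hSl i x).1 h1
      refine ⟨x', nd_eq_vtx.1 h2, fun hadj => ?_⟩
      rw [← Bool.not_eq_true, adjB_iff, hE] at h3
      exact h3 ⟨x', d, rfl, rfl, hadj⟩
    · rintro ⟨x, rfl, h3⟩
      refine ⟨x.val, (rep_K El Sl hSl i _).2 ⟨x, rfl, (inN_vtx.1 hW).1⟩, rfl, ?_⟩
      rw [← Bool.not_eq_true, adjB_iff, hE]
      rintro ⟨x', d', h4, h5, h6⟩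
      rw [Fin.ext h4, Fin.ext h5] at h6
      exact h3 h6
  have e2 : (∃ x, x ∈ i.val :: Sl i ∧ nd U = x + 2 ∧ adjB E x b.val = false) ↔
      ∃ x, U = vtx x ∧ ¬ G.Adj x b := vert U b hU
  have e3 : (∃ x, x ∈ i.val :: Sl i ∧ nd V = x + 2 ∧ adjB E x a.val = false) ↔
      ∃ x, V = vtx x ∧ ¬ G.Adj x a := vert V a hV
  have e4 : (∃ w, w ∈ nodes (i.val :: Sl i) a.val b.val ∧
      ((i.val, Sl i), ((a.val, b.val), (nd U, w))) ∈ F ∧
      ((i.val, Sl i), ((a.val, b.val), (w, nd V))) ∈ F) ↔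
      ∃ w, NK El i a b w ∧ RF Sl F i a b U w ∧ RF Sl F i a b w V := by
    constructor
    · rintro ⟨w, h1, h2, h3⟩
      obtain ⟨W, rfl, hW⟩ := (mem_nodes_rep (rep_K El Sl hSl i)).1 h1
      exact ⟨W, hW, h2, h3⟩
    · rintro ⟨W, hW, h2, h3⟩
      exact ⟨nd W, (nd_mem_nodes (rep_K El Sl hSl i)).2 hW, h2, h3⟩
  have e5 : (∃ q, q ∈ O ∧ childB q (i.val, Sl i) = true ∧ nd U ∈ nodes q.2 a.val b.val ∧
      nd V ∈ nodes q.2 a.val b.val ∧
      rmB (List.range n) E F q a.val b.val (nd U) (nd V) = true) ↔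
      ∃ j, j ≠ El.root ∧ El.p j = i ∧ NS El j a b U ∧ NS El j a b V ∧ RM El (RF Sl F) j a b U V := by
    constructor
    · rintro ⟨q, hq, h1, h2, h3, h4⟩
      obtain ⟨j, rfl⟩ := hO2 q hq
      obtain ⟨h5, h6⟩ := (childB_iff El Sl hSl).1 h1
      exact ⟨j, h5, h6, (nd_mem_nodes (hSl j)).1 h2, (nd_mem_nodes (hSl j)).1 h3,
        (rmB_iff hE El Sl hSl).1 h4⟩
    · rintro ⟨j, h5, h6, h2, h3, h4⟩
      exact ⟨(j.val, Sl j), hO1 j, (childB_iff El Sl hSl).2 ⟨h5, h6⟩,
        (nd_mem_nodes (hSl j)).2 h2, (nd_mem_nodes (hSl j)).2 h3, (rmB_iff hE El Sl hSl).2 h4⟩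
  rw [e1, e2, e3, e4, e5]

lemma rule_mono {R R' : Rel (Fin n)} (h : ∀ i a b u v, R i a b u v → R' i a b u v) {i a b : Fin n}
    {u v : Node (Fin n)} (hr : Rule El R i a b u v) : Rule El R' i a b u v := by
  have hns : ∀ j a b, NoStar El R j a b → NoStar El R' j a b := by
    intro j a b h1 a' b' hadj
    rcases h1 a' b' hadj with ⟨v, h2, h3, h4⟩ | h2
    · exact Or.inl ⟨v, h2, h3, h _ _ _ _ _ h4⟩
    · exact Or.inr h2
  rcases hr with h1 | h1 | h1 | h1 | h1 | ⟨w, hw, h1, h2⟩ | ⟨j, hj, hji, hu', hv', h1, h2, h3⟩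
  · exact Or.inl h1
  · exact Or.inr (Or.inl h1)
  · exact Or.inr (Or.inr (Or.inl h1))
  · exact Or.inr (Or.inr (Or.inr (Or.inl h1)))
  · exact Or.inr (Or.inr (Or.inr (Or.inr (Or.inl h1))))
  · exact Or.inr (Or.inr (Or.inr (Or.inr (Or.inr (Or.inl ⟨w, hw, h _ _ _ _ _ h1, h _ _ _ _ _ h2⟩)))))
  · exact Or.inr (Or.inr (Or.inr (Or.inr (Or.inr (Or.inr ⟨j, hj, hji, hu', hv', h _ _ _ _ _ h1,
      fun h4 h5 => hns _ _ _ (h2 h4 h5), fun h4 h5 => hns _ _ _ (h3 h4 h5)⟩)))))

include hE hSl hO1 hO2 in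
lemma mem_cands {c : Fact} : c ∈ cands E O ↔ ∃ i a b U V, G.Adj a b ∧ NK El i a b U ∧
    NK El i a b V ∧ c = encF Sl i a b U V := by
  simp only [cands, List.mem_flatMap, List.mem_map]
  constructor
  · rintro ⟨q, hq, ⟨x, y⟩, he, u, hu, v, hv, rfl⟩
    obtain ⟨i, rfl⟩ := hO2 q hq
    obtain ⟨a, b, rfl, rfl, hadj⟩ := (hE _ _).1 he
    obtain ⟨U, rfl, hU⟩ := (mem_nodes_rep (rep_K El Sl hSl i)).1 hu
    obtain ⟨V, rfl, hV⟩ := (mem_nodes_rep (rep_K El Sl hSl i)).1 hv
    exact ⟨i, a, b, U, V, hadj, hU, hV, rfl⟩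
  · rintro ⟨i, a, b, U, V, hadj, hU, hV, rfl⟩
    exact ⟨(i.val, Sl i), hO1 i, (a.val, b.val), (hE _ _).2 ⟨a, b, rfl, rfl, hadj⟩, nd U,
      (nd_mem_nodes (rep_K El Sl hSl i)).2 hU, nd V, (nd_mem_nodes (rep_K El Sl hSl i)).2 hV, rfl⟩

end bridge

/-- iterating a monotone operator on sublists reaches a fixed point -/
lemma fix_stable {α : Type} (C : List α) (P : List α → α → Bool)
    (hmono : ∀ F F' : List α, (∀ x ∈ F, x ∈ F') → ∀ c ∈ C, P F c = true → P F' c = true) :
    C.filter (P (C.foldl (fun F _ => C.filter (P F)) [])) = C.foldl (fun F _ => C.filter (P F)) [] := by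
  have hsub : ∀ F F' : List α, (∀ x ∈ F, x ∈ F') → (C.filter (P F)).Sublist (C.filter (P F')) := by
    intro F F' h
    have : C.filter (P F) = (C.filter (P F')).filter (P F) := by
      rw [List.filter_filter]
      apply List.filter_congr
      intro c hc
      cases h1 : P F c with
      | false => simp
      | true => rw [hmono F F' h c hc h1]; rfl
    rw [this]
    exact List.filter_sublist
  let step : List α → List α := fun F => C.filter (P F)
  have hs : ∀ k : ℕ, step^[k + 1] [] = step (step^[k] []) :=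
    fun k => Function.iterate_succ_apply' step k []
  have key : ∀ k : ℕ, ((step^[k] []).Sublist (step^[k + 1] [])) ∧
      (step^[k + 1] [] = step^[k] [] ∨ k ≤ (step^[k] []).length) := by
    intro k
    induction k with
    | zero => exact ⟨List.nil_sublist _, Or.inr (Nat.zero_le _)⟩
    | succ k ih =>
      have h1 : (step (step^[k] [])).Sublist (step (step^[k + 1] [])) :=
        hsub _ _ (fun x hx => ih.1.subset hx)
      rw [← hs k, ← hs (k + 1)] at h1
      refine ⟨h1, ?_⟩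
      by_cases h3 : step^[k + 1] [] = step^[k] []
      · left
        rw [hs (k + 1), h3, ← hs k, h3]
      · right
        rcases ih.2 with h2 | h2
        · exact absurd h2 h3
        · have h4 := ih.1.length_le
          have h5 : (step^[k] []).length ≠ (step^[k + 1] []).length := fun h =>
            h3 (ih.1.eq_of_length h).symm
          omega
  have hfold : ∀ (l : List α) (F : List α), l.foldl (fun F _ => C.filter (P F)) F = step^[l.length] F := by
    intro l
    induction l with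
    | nil => intro F; rfl
    | cons a l ih =>
      intro F
      rw [List.foldl_cons, ih, List.length_cons, Function.iterate_succ_apply]
  rw [hfold]
  show step _ = _
  rcases (key C.length).2 with h | h
  · rw [hs] at h
    exact h
  · have h1 : (step^[C.length] []).Sublist C := by
      cases hC : C.length with
      | zero => exact List.nil_sublist _
      | succ m =>
        rw [hs]
        exact List.filter_sublist
    have h2 : step^[C.length] [] = C := h1.eq_of_length (le_antisymm h1.length_le h)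
    have h3 := (key C.length).1
    rw [hs, h2] at h3
    rw [h2]
    have h4 : (step C).Sublist C := List.filter_sublist
    exact h4.antisymm h3

section final

variable {G : SimpleGraph (Fin n)} {E : List (ℕ × ℕ)} (hE : Lists n G E) (El : Elim G)
  (Sl : Fin n → List ℕ) (hSl : ∀ i, Rep (Sl i) (El.S i)) {O : List (ℕ × List ℕ)}
  (hO1 : ∀ i : Fin n, (i.val, Sl i) ∈ O) (hO2 : ∀ q ∈ O, ∃ i : Fin n, q = (i.val, Sl i))

include hE hSl hO1 hO2 in
lemma ruleB_mono (F F' : List Fact) (h : ∀ x ∈ F, x ∈ F') : ∀ c ∈ cands E O,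
    ruleB (List.range n) E O F c = true → ruleB (List.range n) E O F' c = true := by
  intro c hc hr
  obtain ⟨i, a, b, U, V, hadj, hU, hV, rfl⟩ := (mem_cands hE El Sl hSl hO1 hO2).1 hc
  rw [ruleB_iff hE El Sl hSl hO1 hO2 hU hV] at hr ⊢
  exact rule_mono El (fun i a b u v h1 => h _ h1) hr

include hE hSl hO1 hO2 in
lemma fix_closed : ∀ i a b U V, G.Adj a b → NK El i a b U → NK El i a b V →
    Rule El (RF Sl (fixF (List.range n) E O)) i a b U V → RF Sl (fixF (List.range n) E O) i a b U V := by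
  intro i a b U V hadj hU hV hr
  have h1 := fix_stable (cands E O) (fun F c => ruleB (List.range n) E O F c)
    (ruleB_mono hE El Sl hSl hO1 hO2)
  show encF Sl i a b U V ∈ fixF (List.range n) E O
  unfold fixF
  rw [← h1, List.mem_filter]
  refine ⟨(mem_cands hE El Sl hSl hO1 hO2).2 ⟨i, a, b, U, V, hadj, hU, hV, rfl⟩, ?_⟩
  exact (ruleB_iff hE El Sl hSl hO1 hO2 hU hV).2 hr

include hE hSl hO1 hO2 in
lemma fix_sound : Sound El (RF Sl (fixF (List.range n) E O)) := by
  have key : ∀ (l : List Fact) (F : List Fact), Sound El (RF Sl F) →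
      Sound El (RF Sl (l.foldl (fun F _ => (cands E O).filter
        (fun c => ruleB (List.range n) E O F c)) F)) := by
    intro l
    induction l with
    | nil => intro F h; exact h
    | cons x l ih =>
      intro F h
      rw [List.foldl_cons]
      apply ih
      intro i a b u v hadj hu hv hm
      have hm' : encF Sl i a b u v ∈ (cands E O).filter (fun c => ruleB (List.range n) E O F c) := hm
      rw [List.mem_filter] at hm'
      exact rule_sound El h hadj hu hv ((ruleB_iff hE El Sl hSl hO1 hO2 hu hv).1 hm'.2)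
  apply key
  intro i a b u v _ _ _ h
  exact absurd h (by simp [RF])

end final

end Pool.Agent.Helper58.T3
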