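import Mathlib

set_option autoImplicit false

namespace Pool.Agent.Helper58.T3

variable {V : Type} [DecidableEq V]

/-- a double star: two centres `a`, `b`, every other vertex `x` is attached to `a` if `g x = false`
and to `b` if `g x = true` -/
structure DS (V : Type) where
  a : V
  b : V
  g : V → Bool

namespace DS

/-- the centre next to a vertex (a centre is its own centre) -/
def c (σ : DS V) (x : V) : V := if x = σ.a ∨ x = σ.b then x else (bif σ.g x then σ.b else σ.a)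

lemma c_mem (σ : DS V) (x : V) : σ.c x = σ.a ∨ σ.c x = σ.b := by
  unfold c
  split_ifs with h
  · exact h
  · cases σ.g x <;> simp

lemma c_a (σ : DS V) : σ.c σ.a = σ.a := by simp [c]
lemma c_b (σ : DS V) : σ.c σ.b = σ.b := by simp [c]

lemma c_c (σ : DS V) (x : V) : σ.c (σ.c x) = σ.c x := by
  rcases σ.c_mem x with h | h <;> rw [h]
  · exact σ.c_a
  · exact σ.c_b

lemma c_false (σ : DS V) {x : V} (h1 : x ≠ σ.a) (h2 : x ≠ σ.b) (h : σ.g x = false) : σ.c x = σ.a := by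
  simp [c, h1, h2, h]

lemma c_true (σ : DS V) {x : V} (h1 : x ≠ σ.a) (h2 : x ≠ σ.b) (h : σ.g x = true) : σ.c x = σ.b := by
  simp [c, h1, h2, h]

end DS

/-- indicator of the edge `xy` -/
def ev (x y : V) (f : Sym2 V) : Bool := decide (x ≠ y ∧ s(x, y) = f)

lemma ev_comm (x y : V) : ev x y = ev y x := by
  funext f
  unfold ev
  rw [decide_eq_decide, Sym2.eq_swap, ne_comm]

lemma ev_self (x : V) (f : Sym2 V) : ev x x f = false := by simp [ev]

lemma ev_true {x y : V} {f : Sym2 V} : ev x y f = true ↔ x ≠ y ∧ s(x, y) = f := by simp [ev]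

/-- the path from `x` to `y` in a double star, as a set of edges modulo 2 -/
def DS.pv (σ : DS V) (x y : V) (f : Sym2 V) : Bool :=
  xor (ev x (σ.c x) f) (xor (ev (σ.c x) (σ.c y) f) (ev (σ.c y) y f))

namespace DS

lemma pv_self (σ : DS V) (x : V) (f : Sym2 V) : σ.pv x x f = false := by
  unfold pv
  rw [ev_self, ev_comm (σ.c x) x]
  simp

lemma pv_comm (σ : DS V) (x y : V) : σ.pv x y = σ.pv y x := by
  funext f
  unfold pv
  rw [ev_comm (σ.c y) y, ev_comm (σ.c x) (σ.c y), ev_comm (σ.c x) x]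
  cases ev x (σ.c x) f <;> cases ev (σ.c y) (σ.c x) f <;> cases ev y (σ.c y) f <;> rfl

lemma pv_triangle (σ : DS V) (x y z : V) (f : Sym2 V) :
    σ.pv x z f = xor (σ.pv x y f) (σ.pv y z f) := by
  unfold pv
  have h : ev (σ.c x) (σ.c z) f = xor (ev (σ.c x) (σ.c y) f) (ev (σ.c y) (σ.c z) f) := by
    rcases σ.c_mem x with hx | hx <;> rcases σ.c_mem y with hy | hy <;>
      rcases σ.c_mem z with hz | hz <;> rw [hx, hy, hz] <;> simp [ev_self, ev_comm σ.b σ.a]
  rw [h, ev_comm (σ.c y) y]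
  cases ev x (σ.c x) f <;> cases ev (σ.c x) (σ.c y) f <;> cases ev y (σ.c y) f <;>
    cases ev (σ.c y) (σ.c z) f <;> cases ev (σ.c z) z f <;> rfl

/-- the edges of the path: first one -/
lemma pv_first (σ : DS V) {x y : V} (hxy : x ≠ y) (hx : x ≠ σ.c x) :
    σ.pv x y s(x, σ.c x) = true := by
  have hxa : x ≠ σ.a := fun h => hx (by rw [h, σ.c_a])
  have hxb : x ≠ σ.b := fun h => hx (by rw [h, σ.c_b])
  have h1 : ev x (σ.c x) s(x, σ.c x) = true := ev_true.2 ⟨hx, rfl⟩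
  have h2 : ev (σ.c x) (σ.c y) s(x, σ.c x) = false := by
    rw [← Bool.not_eq_true, ev_true]
    rintro ⟨h3, h4⟩
    rw [Sym2.eq_iff] at h4
    rcases h4 with ⟨h5, _⟩ | ⟨_, h5⟩
    · exact hx h5.symm
    · rcases σ.c_mem y with h6 | h6
      · exact hxa (h5.symm.trans h6)
      · exact hxb (h5.symm.trans h6)
  have h3 : ev (σ.c y) y s(x, σ.c x) = false := by
    rw [← Bool.not_eq_true, ev_true]
    rintro ⟨h3, h4⟩
    rw [Sym2.eq_iff] at h4
    rcases h4 with ⟨h5, _⟩ | ⟨_, h5⟩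
    · rcases σ.c_mem y with h6 | h6
      · exact hxa (h5.symm.trans h6)
      · exact hxb (h5.symm.trans h6)
    · exact hxy h5.symm
  unfold pv
  rw [h1, h2, h3]; rfl

lemma pv_middle (σ : DS V) {x y : V} (h : σ.c x ≠ σ.c y) : σ.pv x y s(σ.c x, σ.c y) = true := by
  have key : ∀ x y : V, σ.c x ≠ σ.c y → ev x (σ.c x) s(σ.c x, σ.c y) = false := by
    intro x y h
    rw [← Bool.not_eq_true, ev_true]
    rintro ⟨h3, h4⟩
    rw [Sym2.eq_iff] at h4
    rcases h4 with ⟨h5, _⟩ | ⟨h5, _⟩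
    · exact h3 h5
    · apply h3
      conv_rhs => rw [h5, σ.c_c]
      exact h5
  have h1 := key x y h
  have h2 := key y x h.symm
  rw [ev_comm, Sym2.eq_swap] at h2
  unfold pv
  rw [h1, h2]
  simp [ev, h]

/-- the edges of the path from `x` to `y` -/
lemma pv_true (σ : DS V) {x y : V} {f : Sym2 V} (h : σ.pv x y f = true) :
    (x ≠ σ.c x ∧ f = s(x, σ.c x)) ∨ (σ.c x ≠ σ.c y ∧ f = s(σ.c x, σ.c y)) ∨
      (y ≠ σ.c y ∧ f = s(y, σ.c y)) := by
  unfold pv at h
  by_cases h1 : ev x (σ.c x) f = true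
  · rw [ev_true] at h1; exact Or.inl ⟨h1.1, h1.2.symm⟩
  · by_cases h2 : ev (σ.c x) (σ.c y) f = true
    · rw [ev_true] at h2; exact Or.inr (Or.inl ⟨h2.1, h2.2.symm⟩)
    · rw [Bool.not_eq_true] at h1 h2
      rw [h1, h2] at h
      simp only [Bool.false_xor] at h
      rw [ev_comm, ev_true] at h
      exact Or.inr (Or.inr ⟨h.1, h.2.symm⟩)

lemma pv_c (σ : DS V) (x : V) : σ.pv x (σ.c x) = ev x (σ.c x) := by
  funext f
  unfold pv
  rw [σ.c_c, ev_self]
  simp

lemma pv_cc (σ : DS V) (x y : V) : σ.pv (σ.c x) (σ.c y) = ev (σ.c x) (σ.c y) := by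
  funext f
  unfold pv
  rw [σ.c_c, σ.c_c, ev_self, ev_self]
  simp

/-- an edge of the path joining two vertices is itself a path -/
lemma pv_edge (σ : DS V) {x y p q : V} (h : σ.pv x y s(p, q) = true) : σ.pv p q = ev p q := by
  rcases σ.pv_true h with ⟨_, h2⟩ | ⟨_, h2⟩ | ⟨_, h2⟩ <;> rw [Sym2.eq_iff] at h2 <;>
    rcases h2 with ⟨h3, h4⟩ | ⟨h3, h4⟩ <;> subst h3 <;> subst h4
  · exact σ.pv_c _
  · rw [pv_comm, ev_comm]; exact σ.pv_c _
  · exact σ.pv_cc _ _
  · rw [pv_comm, ev_comm]; exact σ.pv_cc _ _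
  · exact σ.pv_c _
  · rw [pv_comm, ev_comm]; exact σ.pv_c _

/-- validity of a double star on a set `K` of vertices -/
def Valid (G : SimpleGraph V) (σ : DS V) (K : Set V) : Prop :=
  G.Adj σ.a σ.b ∧ ∀ x ∈ K, x ≠ σ.c x → G.Adj x (σ.c x)

lemma Valid.adj_cc {G : SimpleGraph V} {σ : DS V} {K : Set V} (h : σ.Valid G K) {x y : V}
    (hxy : σ.c x ≠ σ.c y) : G.Adj (σ.c x) (σ.c y) := by
  rcases σ.c_mem x with hx | hx <;> rcases σ.c_mem y with hy | hy <;> rw [hx, hy] at hxy ⊢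
  · exact absurd rfl hxy
  · exact h.1
  · exact h.1.symm
  · exact absurd rfl hxy

/-- edges of a path between vertices of `K` leaving `K` in a direction `D` belong to a path between
vertices of the separator `S` -/
lemma pv_step {G : SimpleGraph V} {σ : DS V} {K : Set V} (hv : σ.Valid G K) (S D : Set V)
    (hKD : ∀ x ∈ K, x ∉ D) (h1 : ∀ z ∈ K, ∀ w ∈ D, G.Adj z w → z ∈ S)
    (h2 : ∀ w ∈ D, ∀ b, b ∉ K → G.Adj b w → b ∈ D) {x y : V} (hx : x ∈ K) (hy : y ∈ K)
    {f : Sym2 V} (hf : σ.pv x y f = true) {w : V} (hwD : w ∈ D) (hwf : w ∈ f) :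
    ∃ x' ∈ S, ∃ y' ∈ S, σ.pv x' y' f = true := by
  have first : ∀ x y : V, x ∈ K → y ∈ K → x ≠ y → x ≠ σ.c x → σ.c x ∈ D →
      ∃ x' ∈ S, ∃ y' ∈ S, σ.pv x' y' s(x, σ.c x) = true := by
    intro x y hx hy hxy hxc hw
    have hxS : x ∈ S := h1 x hx _ hw (hv.2 x hx hxc)
    by_cases hc : σ.c y = σ.c x
    · have hyc : y ≠ σ.c y := fun h => hKD y hy (by rw [h, hc]; exact hw)
      refine ⟨x, hxS, y, h1 y hy _ hw ?_, σ.pv_first hxy hxc⟩
      rw [← hc]; exact hv.2 y hy hyc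
    · have hadj : G.Adj (σ.c y) (σ.c x) := hv.adj_cc hc
      by_cases hyK : σ.c y ∈ K
      · have hxy' : x ≠ σ.c y := by
          intro h
          apply hxc
          conv_rhs => rw [h, σ.c_c]
          exact h
        exact ⟨x, hxS, σ.c y, h1 _ hyK _ hw hadj, σ.pv_first hxy' hxc⟩
      · have hyD : σ.c y ∈ D := h2 _ hw _ hyK hadj
        have hyc : y ≠ σ.c y := fun h => hKD y hy (by rw [h]; exact hyD)
        exact ⟨x, hxS, y, h1 y hy _ hyD (hv.2 y hy hyc), σ.pv_first hxy hxc⟩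
  have middle : ∀ x y : V, x ∈ K → y ∈ K → σ.c x ≠ σ.c y → σ.c x ∈ D →
      ∃ x' ∈ S, ∃ y' ∈ S, σ.pv x' y' s(σ.c x, σ.c y) = true := by
    intro x y hx hy hc hw
    have hxc : x ≠ σ.c x := fun h => hKD x hx (by rw [h]; exact hw)
    have hxS : x ∈ S := h1 x hx _ hw (hv.2 x hx hxc)
    have hadj : G.Adj (σ.c y) (σ.c x) := (hv.adj_cc hc).symm
    by_cases hyK : σ.c y ∈ K
    · refine ⟨x, hxS, σ.c y, h1 _ hyK _ hw hadj, ?_⟩
      have := σ.pv_middle (x := x) (y := σ.c y) (by rw [σ.c_c]; exact hc)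
      rw [σ.c_c] at this
      exact this
    · have hyD : σ.c y ∈ D := h2 _ hw _ hyK hadj
      have hyc : y ≠ σ.c y := fun h => hKD y hy (by rw [h]; exact hyD)
      exact ⟨x, hxS, y, h1 y hy _ hyD (hv.2 y hy hyc), σ.pv_middle hc⟩
  have hxy : x ≠ y := by
    intro h
    rw [h, pv_self] at hf
    exact absurd hf (by simp)
  rcases σ.pv_true hf with ⟨h3, h4⟩ | ⟨h3, h4⟩ | ⟨h3, h4⟩
  · subst h4
    rw [Sym2.mem_iff] at hwf
    rcases hwf with h5 | h5
    · exact absurd (h5 ▸ hwD) (hKD x hx)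
    · exact first x y hx hy hxy h3 (h5 ▸ hwD)
  · subst h4
    rw [Sym2.mem_iff] at hwf
    rcases hwf with h5 | h5
    · exact middle x y hx hy h3 (h5 ▸ hwD)
    · rw [Sym2.eq_swap]
      exact middle y x hy hx h3.symm (h5 ▸ hwD)
  · subst h4
    rw [Sym2.mem_iff] at hwf
    rcases hwf with h5 | h5
    · exact absurd (h5 ▸ hwD) (hKD y hy)
    · exact first y x hy hx hxy.symm h3 (h5 ▸ hwD)

end DS

/-- two double stars define the same paths between the vertices of `S` -/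
def Compat (S : Set V) (σ τ : DS V) : Prop := ∀ x ∈ S, ∀ y ∈ S, σ.pv x y = τ.pv x y

end Pool.Agent.Helper58.T3
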